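import Mathlib

set_option autoImplicit false

/-! Ballot type count: `a`-subsets of an initial segment all of whose prefixes have density
at most one quarter. -/

namespace Pool.Agent.Hhelper49.CWD

/-- `a`-subsets `A` of `{0,...,m-1}` with `4 |A ∩ [0,q)| ≤ q` for all `q ≤ m`. -/
noncomputable def G (m a : ℕ) : Finset (Finset ℕ) := by
  classical
  exact (Finset.powersetCard a (Finset.range m)).filter
    (fun A => ∀ q, q ≤ m → 4 * (A ∩ Finset.range q).card ≤ q)

theorem mem_G {m a : ℕ} {A : Finset ℕ} : A ∈ G m a ↔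
    (A ⊆ Finset.range m ∧ A.card = a) ∧ ∀ q, q ≤ m → 4 * (A ∩ Finset.range q).card ≤ q := by
  unfold G
  rw [Finset.mem_filter, Finset.mem_powersetCard]

theorem G_step (m a : ℕ) (h4 : 4 * (a + 1) ≤ m + 1) :
    (G m (a + 1)).card + (G m a).card ≤ (G (m + 1) (a + 1)).card := by
  have hnm : ∀ A ∈ G m a, m ∉ A := by
    intro A hA hm
    rw [mem_G] at hA
    have := hA.1.1 hm
    rw [Finset.mem_range] at this
    omega
  have hdisj : Disjoint (G m (a + 1)) ((G m a).image (fun A => insert m A)) := by
    rw [Finset.disjoint_left]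
    intro A hA hA'
    obtain ⟨B, hB, rfl⟩ := Finset.mem_image.mp hA'
    rw [mem_G] at hA
    have := hA.1.1 (Finset.mem_insert_self m B)
    rw [Finset.mem_range] at this
    omega
  have hinj : ((G m a).image (fun A => insert m A)).card = (G m a).card := by
    apply Finset.card_image_of_injOn
    intro A hA B hB hAB
    have h1 : (insert m A).erase m = (insert m B).erase m := by
      show (insert m A).erase m = (insert m B).erase m
      rw [show insert m A = insert m B from hAB]
    rwa [Finset.erase_insert (hnm A hA), Finset.erase_insert (hnm B hB)] at h1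
  rw [← hinj, ← Finset.card_union_of_disjoint hdisj]
  apply Finset.card_le_card
  intro A hA
  rcases Finset.mem_union.mp hA with hA | hA
  · rw [mem_G] at hA ⊢
    refine ⟨⟨hA.1.1.trans (Finset.range_mono (by omega)), hA.1.2⟩, ?_⟩
    intro q hq
    rcases Nat.lt_or_ge m q with h | h
    · have h5 : (A ∩ Finset.range q).card ≤ A.card := Finset.card_le_card Finset.inter_subset_left
      rw [hA.1.2] at h5
      omega
    · exact hA.2 q h
  · obtain ⟨B, hB, rfl⟩ := Finset.mem_image.mp hA
    have hmB := hnm B hB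
    rw [mem_G] at hB ⊢
    refine ⟨⟨?_, ?_⟩, ?_⟩
    · intro x hx
      rcases Finset.mem_insert.mp hx with rfl | hx
      · exact Finset.mem_range.mpr (by omega)
      · have := Finset.mem_range.mp (hB.1.1 hx)
        exact Finset.mem_range.mpr (by omega)
    · rw [Finset.card_insert_of_notMem hmB, hB.1.2]
    · intro q hq
      rcases Nat.lt_or_ge m q with h | h
      · have h5 : (insert m B ∩ Finset.range q).card ≤ (insert m B).card :=
          Finset.card_le_card Finset.inter_subset_left
        rw [Finset.card_insert_of_notMem hmB, hB.1.2] at h5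
        omega
      · have h6 : insert m B ∩ Finset.range q = B ∩ Finset.range q := by
          rw [Finset.insert_inter_of_notMem]
          rw [Finset.mem_range]
          omega
        rw [h6]
        exact hB.2 q h

/-- Ballot bound. -/
theorem ballot (m : ℕ) : ∀ a : ℕ, a ≤ m →
    ((m : ℝ) + 1 - 4 * a) * (m.choose a : ℝ) ≤ ((m : ℝ) + 1 - a) * ((G m a).card : ℝ) := by
  induction m with
  | zero =>
    intro a ha
    have ha0 : a = 0 := by omega
    subst ha0
    have h1 : (∅ : Finset ℕ) ∈ G 0 0 := by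
      rw [mem_G]
      refine ⟨⟨Finset.empty_subset _, Finset.card_empty⟩, ?_⟩
      intro q _
      simp
    have h2 : 1 ≤ (G 0 0).card := Finset.card_pos.mpr ⟨∅, h1⟩
    have h3 : (1 : ℝ) ≤ ((G 0 0).card : ℝ) := by exact_mod_cast h2
    rw [Nat.choose_zero_right]
    push_cast
    linarith
  | succ m ih =>
    intro a ha
    rcases Nat.eq_zero_or_pos a with h0 | h0
    · subst h0
      have h1 : (∅ : Finset ℕ) ∈ G (m + 1) 0 := by
        rw [mem_G]
        refine ⟨⟨Finset.empty_subset _, Finset.card_empty⟩, ?_⟩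
        intro q _
        simp
      have h2 : 1 ≤ (G (m + 1) 0).card := Finset.card_pos.mpr ⟨∅, h1⟩
      have h3 : (1 : ℝ) ≤ ((G (m + 1) 0).card : ℝ) := by exact_mod_cast h2
      have h4 : (0 : ℝ) ≤ (m : ℝ) := Nat.cast_nonneg m
      push_cast
      rw [Nat.choose_zero_right]
      push_cast
      nlinarith
    · obtain ⟨b, rfl⟩ : ∃ b, a = b + 1 := ⟨a - 1, by omega⟩
      have hGnn : (0 : ℝ) ≤ ((G (m + 1) (b + 1)).card : ℝ) := Nat.cast_nonneg _
      rcases Nat.lt_or_ge (m + 1) (4 * (b + 1)) with h4 | h4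
      · have h5 : ((m : ℝ) + 1 + 1) ≤ 4 * ((b : ℝ) + 1) := by exact_mod_cast h4
        have h6 : ((b : ℝ) + 1) ≤ (m : ℝ) + 1 := by exact_mod_cast ha
        have h7 : (0 : ℝ) ≤ ((m + 1).choose (b + 1) : ℝ) := Nat.cast_nonneg _
        push_cast
        nlinarith [mul_nonneg (sub_nonneg.mpr h5) h7, mul_nonneg (sub_nonneg.mpr h6) hGnn]
      · have hs := G_step m b h4
        have hs' : ((G m (b + 1)).card : ℝ) + ((G m b).card : ℝ) ≤
            ((G (m + 1) (b + 1)).card : ℝ) := by exact_mod_cast hs
        have i1 := ih (b + 1) (by omega)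
        have i2 := ih b (by omega)
        have hbm : b + 1 ≤ m := by omega
        -- choose identities
        have e1 : ((m + 1).choose (b + 1) : ℝ) * ((b : ℝ) + 1) = ((m : ℝ) + 1) * (m.choose b : ℝ) := by
          have := Nat.add_one_mul_choose_eq m b
          exact_mod_cast this.symm
        have e2 : ((m + 1).choose (b + 1) : ℝ) = (m.choose b : ℝ) + (m.choose (b + 1) : ℝ) := by
          exact_mod_cast Nat.choose_succ_succ m b
        push_cast at i1 i2 ⊢
        set X : ℝ := (m.choose b : ℝ) with hX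
        set Y : ℝ := (m.choose (b + 1) : ℝ) with hY
        set Z : ℝ := ((m + 1).choose (b + 1) : ℝ) with hZ
        set g1 : ℝ := ((G m (b + 1)).card : ℝ) with hg1
        set g2 : ℝ := ((G m b).card : ℝ) with hg2
        set g : ℝ := ((G (m + 1) (b + 1)).card : ℝ) with hg
        have hmb : ((b : ℝ) + 1) ≤ (m : ℝ) := by exact_mod_cast hbm
        have hp1 : (0 : ℝ) < (m : ℝ) + 1 - ((b : ℝ) + 1) := by linarith
        have hp2 : (0 : ℝ) < (m : ℝ) + 1 - (b : ℝ) := by linarith
        have j1 : ((m : ℝ) + 1 - 4 * ((b : ℝ) + 1)) * Y / ((m : ℝ) + 1 - ((b : ℝ) + 1)) ≤ g1 := by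
          rw [div_le_iff₀ hp1]
          linarith
        have j2 : ((m : ℝ) + 1 - 4 * (b : ℝ)) * X / ((m : ℝ) + 1 - (b : ℝ)) ≤ g2 := by
          rw [div_le_iff₀ hp2]
          linarith
        have hm1 : (0 : ℝ) < (m : ℝ) + 1 := by positivity
        have eX : X = Z * ((b : ℝ) + 1) / ((m : ℝ) + 1) := by
          rw [eq_div_iff hm1.ne']
          linarith
        have eY : Y = Z * ((m : ℝ) - (b : ℝ)) / ((m : ℝ) + 1) := by
          rw [eq_div_iff hm1.ne']
          have : Y = Z - X := by linarith
          rw [this]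
          nlinarith
        have key : ((m : ℝ) + 1 + 1 - 4 * ((b : ℝ) + 1)) * Z =
            ((m : ℝ) + 1 + 1 - ((b : ℝ) + 1)) *
              (((m : ℝ) + 1 - 4 * ((b : ℝ) + 1)) * Y / ((m : ℝ) + 1 - ((b : ℝ) + 1)) +
                ((m : ℝ) + 1 - 4 * (b : ℝ)) * X / ((m : ℝ) + 1 - (b : ℝ))) := by
          rw [eX, eY]
          have hq1 : (m : ℝ) + 1 - ((b : ℝ) + 1) ≠ 0 := hp1.ne'
          have hq2 : (m : ℝ) + 1 - (b : ℝ) ≠ 0 := hp2.ne'
          have hq3 : (m : ℝ) - (b : ℝ) ≠ 0 := by
            intro h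
            apply hq1
            linarith
          field_simp
          ring
        rw [key]
        apply mul_le_mul_of_nonneg_left _ (by linarith)
        linarith

end Pool.Agent.Hhelper49.CWD
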