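import Pool.Agent.Hhelper49.CWD.Total

set_option autoImplicit false

/-! `A(n,d,w) ≤ C A(n,d,w+k)` with explicit factors. -/

namespace Pool.Agent.Hhelper49.CWD

theorem hset_empty {n w r a : ℕ} (h : w < a) : (hset n w r a).card = 0 := by
  rw [Finset.card_eq_zero, Finset.eq_empty_iff_forall_notMem]
  intro x hx
  unfold hset at hx
  rw [Finset.mem_filter, mem_J] at hx
  have : cnt x r ≤ x.card := by
    rw [cnt_eq]
    exact Finset.card_le_card Finset.inter_subset_left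
  omega

theorem lower (n w k A : ℕ) (hn : 2 * (w + k) ≤ n) (hA : 4 * A ≤ k)
    (h6 : 0 ≤ (n : ℝ) - 6 * w) (c : ℕ → ℝ) (hc0 : ∀ a, a ≤ A → 0 ≤ c a)
    (hc : ∀ a b, a ≤ b → b ≤ A → c b ≤ c a)
    (hcu : ∀ a, a ≤ A → c a * ((k : ℝ) + 1 + a) ≤ (k : ℝ) + 1 - 2 * a) :
    ((n : ℝ) - 6 * w) *
      (∑ x ∈ (J n w).filter (fun x => cnt x (k + 2 * A) ≤ A), c (cnt x (k + 2 * A))) ≤
      (n : ℝ) * ((good n w k).card : ℝ) := by
  have h1 := sum_visits n w k A c hc0 hc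
  have h2 := sum_good n w k A (by omega)
  have h3 : ∀ a ∈ Finset.range (A + 1),
      ((n : ℝ) - 6 * w) * (c a * ((hset n w (k + 2 * a) a).card : ℝ)) ≤
        (n : ℝ) * ((goodSet n w k (k + 2 * a)).card : ℝ) := by
    intro a ha
    rw [Finset.mem_range] at ha
    have hgn : (0 : ℝ) ≤ ((goodSet n w k (k + 2 * a)).card : ℝ) := Nat.cast_nonneg _
    rcases Nat.lt_or_ge w a with hw | hw
    · rw [hset_empty hw]
      simp only [Nat.cast_zero, mul_zero]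
      exact mul_nonneg (Nat.cast_nonneg n) hgn
    · have h4 := good_ge hn (by omega : 4 * a ≤ k) hw h6
      have h5 := hcu a (by omega)
      have hpos : (0 : ℝ) < (k : ℝ) + 1 + a := by positivity
      have hh : (0 : ℝ) ≤ ((hset n w (k + 2 * a) a).card : ℝ) := Nat.cast_nonneg _
      have h7 : (((n : ℝ) - 6 * w) * (c a * ((hset n w (k + 2 * a) a).card : ℝ))) *
          ((k : ℝ) + 1 + a) ≤ ((n : ℝ) * ((goodSet n w k (k + 2 * a)).card : ℝ)) *
          ((k : ℝ) + 1 + a) := by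
        calc (((n : ℝ) - 6 * w) * (c a * ((hset n w (k + 2 * a) a).card : ℝ))) *
              ((k : ℝ) + 1 + a)
            = (c a * ((k : ℝ) + 1 + a)) *
              (((n : ℝ) - 6 * w) * ((hset n w (k + 2 * a) a).card : ℝ)) := by ring
          _ ≤ ((k : ℝ) + 1 - 2 * a) *
              (((n : ℝ) - 6 * w) * ((hset n w (k + 2 * a) a).card : ℝ)) :=
              mul_le_mul_of_nonneg_right h5 (mul_nonneg h6 hh)
          _ = ((k : ℝ) + 1 - 2 * a) * ((n : ℝ) - 6 * w) *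
              ((hset n w (k + 2 * a) a).card : ℝ) := by ring
          _ ≤ ((k : ℝ) + 1 + a) * (n : ℝ) * ((goodSet n w k (k + 2 * a)).card : ℝ) := h4
          _ = _ := by ring
      exact le_of_mul_le_mul_right h7 hpos
  calc ((n : ℝ) - 6 * w) *
        (∑ x ∈ (J n w).filter (fun x => cnt x (k + 2 * A) ≤ A), c (cnt x (k + 2 * A)))
      ≤ ((n : ℝ) - 6 * w) *
        ∑ a ∈ Finset.range (A + 1), c a * ((hset n w (k + 2 * a) a).card : ℝ) :=
        mul_le_mul_of_nonneg_left h1 h6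
    _ = ∑ a ∈ Finset.range (A + 1),
        ((n : ℝ) - 6 * w) * (c a * ((hset n w (k + 2 * a) a).card : ℝ)) := by
        rw [Finset.mul_sum]
    _ ≤ ∑ a ∈ Finset.range (A + 1), (n : ℝ) * ((goodSet n w k (k + 2 * a)).card : ℝ) :=
        Finset.sum_le_sum h3
    _ = (n : ℝ) * ∑ a ∈ Finset.range (A + 1), ((goodSet n w k (k + 2 * a)).card : ℝ) := by
        rw [Finset.mul_sum]
    _ ≤ _ := mul_le_mul_of_nonneg_left h2 (Nat.cast_nonneg n)

/-- Constant factor below `n / 6`. -/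
theorem good_const (n w k : ℕ) (hn : 2 * (w + k) ≤ n) (h6 : 6 * w ≤ n) :
    2 * ((n : ℝ) - 6 * w) ^ 2 * (n.choose w : ℝ) ≤ 5 * (n : ℝ) ^ 2 * ((good n w k).card : ℝ) := by
  have h6' : 0 ≤ (n : ℝ) - 6 * w := by
    have : (6 : ℝ) * w ≤ n := by exact_mod_cast h6
    linarith
  set A := k / 4 with hA
  have hA4 : 4 * A ≤ k := by omega
  have hA5 : k ≤ 4 * A + 3 := by omega
  have h1 := lower n w k A hn hA4 h6' (fun _ => 2 / 5) (fun _ _ => by norm_num)
    (fun _ _ _ _ => le_refl _) (by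
      intro a ha
      have : 4 * (a : ℝ) ≤ k := by
        have : 4 * a ≤ k := by omega
        exact_mod_cast this
      have h0 : (0 : ℝ) ≤ k := Nat.cast_nonneg k
      nlinarith)
  have h2 := moment n w (k + 2 * A) (by omega)
  have h3 := markov n w (k + 2 * A) A
  have h4 := Finset.card_filter_add_card_filter_not (s := J n w)
    (fun x => cnt x (k + 2 * A) ≤ A)
  rw [card_J] at h4
  rw [Finset.sum_const, nsmul_eq_mul] at h1
  set P : ℝ := (((J n w).filter (fun x => cnt x (k + 2 * A) ≤ A)).card : ℝ) with hP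
  set Q : ℝ := (((J n w).filter (fun x => ¬ cnt x (k + 2 * A) ≤ A)).card : ℝ) with hQ
  set B : ℝ := (n.choose w : ℝ) with hB
  set M : ℝ := ∑ x ∈ J n w, (cnt x (k + 2 * A) : ℝ) with hM
  have h4' : P + Q = B := by
    rw [hP, hQ, hB]
    exact_mod_cast h4
  have hBn : 0 ≤ B := Nat.cast_nonneg _
  have hn0 : (0 : ℝ) ≤ n := Nat.cast_nonneg n
  have hw0 : (0 : ℝ) ≤ w := Nat.cast_nonneg w
  have hA0 : (0 : ℝ) ≤ A := Nat.cast_nonneg A
  have hR : ((k + 2 * A : ℕ) : ℝ) ≤ 6 * ((A : ℝ) + 1) := by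
    have : k + 2 * A ≤ 6 * (A + 1) := by omega
    exact_mod_cast this
  have h5 : (n : ℝ) * Q ≤ 6 * w * B := by
    have h7 : ((A : ℝ) + 1) * ((n : ℝ) * Q) ≤ ((A : ℝ) + 1) * (6 * w * B) := by
      calc ((A : ℝ) + 1) * ((n : ℝ) * Q) = (n : ℝ) * (((A : ℝ) + 1) * Q) := by ring
        _ ≤ (n : ℝ) * M := mul_le_mul_of_nonneg_left h3 hn0
        _ ≤ ((k + 2 * A : ℕ) : ℝ) * w * B := h2
        _ = ((k + 2 * A : ℕ) : ℝ) * (w * B) := by ring
        _ ≤ (6 * ((A : ℝ) + 1)) * (w * B) :=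
            mul_le_mul_of_nonneg_right hR (mul_nonneg hw0 hBn)
        _ = _ := by ring
    exact le_of_mul_le_mul_left h7 (by positivity)
  have h8 : ((n : ℝ) - 6 * w) * B ≤ (n : ℝ) * P := by
    have : P = B - Q := by linarith
    rw [this]
    nlinarith
  calc 2 * ((n : ℝ) - 6 * w) ^ 2 * B
      = 2 * ((n : ℝ) - 6 * w) * (((n : ℝ) - 6 * w) * B) := by ring
    _ ≤ 2 * ((n : ℝ) - 6 * w) * ((n : ℝ) * P) :=
        mul_le_mul_of_nonneg_left h8 (by linarith)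
    _ = 5 * (n : ℝ) * (((n : ℝ) - 6 * w) * (P * (2 / 5))) := by ring
    _ ≤ 5 * (n : ℝ) * ((n : ℝ) * ((good n w k).card : ℝ)) :=
        mul_le_mul_of_nonneg_left h1 (by linarith)
    _ = _ := by ring

/-- Factor `1 + O(w/n)`. -/
theorem good_near (n w k : ℕ) (hn : 2 * (w + k) ≤ n) :
    ((n : ℝ) - 17 * w) * (n.choose w : ℝ) ≤ (n : ℝ) * ((good n w k).card : ℝ) := by
  have hn0 : (0 : ℝ) ≤ n := Nat.cast_nonneg n
  have hw0 : (0 : ℝ) ≤ w := Nat.cast_nonneg w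
  have hk0 : (0 : ℝ) ≤ k := Nat.cast_nonneg k
  have hgn : (0 : ℝ) ≤ ((good n w k).card : ℝ) := Nat.cast_nonneg _
  rcases lt_or_ge ((n : ℝ) - 17 * w) 0 with h17 | h17
  · have : ((n : ℝ) - 17 * w) * (n.choose w : ℝ) ≤ 0 :=
      mul_nonpos_of_nonpos_of_nonneg h17.le (Nat.cast_nonneg _)
    exact this.trans (mul_nonneg hn0 hgn)
  have h6' : 0 ≤ (n : ℝ) - 6 * w := by linarith
  set A := k / 4 with hA
  have hA4 : 4 * A ≤ k := by omega
  have hA5 : k ≤ 4 * A + 3 := by omega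
  have hk1 : (0 : ℝ) < (k : ℝ) + 1 := by positivity
  have h1 := lower n w k A hn hA4 h6' (fun a => 1 - 3 * a / ((k : ℝ) + 1))
    (by
      intro a ha
      have : 4 * (a : ℝ) ≤ k := by
        have : 4 * a ≤ k := by omega
        exact_mod_cast this
      have h0 : (0 : ℝ) ≤ a := Nat.cast_nonneg a
      have : 3 * (a : ℝ) / ((k : ℝ) + 1) ≤ 1 := by
        rw [div_le_one hk1]
        linarith
      linarith)
    (by
      intro a b hab hb
      have : (a : ℝ) ≤ b := by exact_mod_cast hab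
      have h2 : 3 * (a : ℝ) / ((k : ℝ) + 1) ≤ 3 * (b : ℝ) / ((k : ℝ) + 1) := by
        apply div_le_div_of_nonneg_right _ hk1.le
        linarith
      show 1 - 3 * (b : ℝ) / ((k : ℝ) + 1) ≤ 1 - 3 * (a : ℝ) / ((k : ℝ) + 1)
      linarith)
    (by
      intro a ha
      have h0 : (0 : ℝ) ≤ a := Nat.cast_nonneg a
      have h3 : (1 - 3 * (a : ℝ) / ((k : ℝ) + 1)) * ((k : ℝ) + 1 + a) =
          (k : ℝ) + 1 - 2 * a - 3 * a * a / ((k : ℝ) + 1) := by
        field_simp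
        ring
      show (1 - 3 * (a : ℝ) / ((k : ℝ) + 1)) * ((k : ℝ) + 1 + a) ≤ (k : ℝ) + 1 - 2 * a
      rw [h3]
      have : 0 ≤ 3 * (a : ℝ) * a / ((k : ℝ) + 1) := by positivity
      linarith)
  have h2 := moment n w (k + 2 * A) (by omega)
  have h3 := markov n w (k + 2 * A) A
  set Q : ℝ := (((J n w).filter (fun x => ¬ cnt x (k + 2 * A) ≤ A)).card : ℝ) with hQ
  set B : ℝ := (n.choose w : ℝ) with hB
  set M : ℝ := ∑ x ∈ J n w, (cnt x (k + 2 * A) : ℝ) with hM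
  have hBn : 0 ≤ B := Nat.cast_nonneg _
  have hA0 : (0 : ℝ) ≤ A := Nat.cast_nonneg A
  have hM0 : 0 ≤ M := Finset.sum_nonneg (fun x _ => Nat.cast_nonneg _)
  have hR : ((k + 2 * A : ℕ) : ℝ) ≤ 6 * ((A : ℝ) + 1) := by
    have : k + 2 * A ≤ 6 * (A + 1) := by omega
    exact_mod_cast this
  have hR2 : 2 * ((k + 2 * A : ℕ) : ℝ) ≤ 3 * ((k : ℝ) + 1) := by
    have : 2 * (k + 2 * A) ≤ 3 * (k + 1) := by omega
    exact_mod_cast this
  have h5 : (n : ℝ) * Q ≤ 6 * w * B := by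
    have h7 : ((A : ℝ) + 1) * ((n : ℝ) * Q) ≤ ((A : ℝ) + 1) * (6 * w * B) := by
      calc ((A : ℝ) + 1) * ((n : ℝ) * Q) = (n : ℝ) * (((A : ℝ) + 1) * Q) := by ring
        _ ≤ (n : ℝ) * M := mul_le_mul_of_nonneg_left h3 hn0
        _ ≤ ((k + 2 * A : ℕ) : ℝ) * w * B := h2
        _ = ((k + 2 * A : ℕ) : ℝ) * (w * B) := by ring
        _ ≤ (6 * ((A : ℝ) + 1)) * (w * B) :=
            mul_le_mul_of_nonneg_right hR (mul_nonneg hw0 hBn)
        _ = _ := by ring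
    exact le_of_mul_le_mul_left h7 (by positivity)
  have h5b : 2 * ((n : ℝ) * (3 * M / ((k : ℝ) + 1))) ≤ 9 * w * B := by
    have h7 : 2 * ((n : ℝ) * (3 * M / ((k : ℝ) + 1))) = 6 * ((n : ℝ) * M) / ((k : ℝ) + 1) := by
      ring
    rw [h7, div_le_iff₀ hk1]
    calc 6 * ((n : ℝ) * M) ≤ 6 * (((k + 2 * A : ℕ) : ℝ) * w * B) :=
          mul_le_mul_of_nonneg_left h2 (by norm_num)
      _ = 3 * (2 * ((k + 2 * A : ℕ) : ℝ)) * (w * B) := by ring
      _ ≤ 3 * (3 * ((k : ℝ) + 1)) * (w * B) :=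
          mul_le_mul_of_nonneg_right (by linarith) (mul_nonneg hw0 hBn)
      _ = _ := by ring
  -- the sum
  have hS : B - 3 * M / ((k : ℝ) + 1) - Q ≤
      ∑ x ∈ (J n w).filter (fun x => cnt x (k + 2 * A) ≤ A),
        (1 - 3 * ((cnt x (k + 2 * A) : ℕ) : ℝ) / ((k : ℝ) + 1)) := by
    have e1 : ∑ x ∈ J n w, (1 - 3 * ((cnt x (k + 2 * A) : ℕ) : ℝ) / ((k : ℝ) + 1)) =
        B - 3 * M / ((k : ℝ) + 1) := by
      rw [Finset.sum_sub_distrib, Finset.sum_const, card_J, nsmul_eq_mul, mul_one,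
        ← Finset.sum_div, ← Finset.mul_sum]
    have e2 := Finset.sum_filter_add_sum_filter_not (J n w)
      (fun x => cnt x (k + 2 * A) ≤ A)
      (fun x => (1 - 3 * ((cnt x (k + 2 * A) : ℕ) : ℝ) / ((k : ℝ) + 1)))
    have e3 : ∑ x ∈ (J n w).filter (fun x => ¬ cnt x (k + 2 * A) ≤ A),
        (1 - 3 * ((cnt x (k + 2 * A) : ℕ) : ℝ) / ((k : ℝ) + 1)) ≤ Q := by
      have e4 : Q = ∑ _x ∈ (J n w).filter (fun x => ¬ cnt x (k + 2 * A) ≤ A), (1 : ℝ) := by
        rw [Finset.sum_const, nsmul_eq_mul, mul_one]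
      rw [e4]
      apply Finset.sum_le_sum
      intro x _
      have : 0 ≤ 3 * ((cnt x (k + 2 * A) : ℕ) : ℝ) / ((k : ℝ) + 1) := by positivity
      linarith
    rw [e1] at e2
    linarith
  set S : ℝ := ∑ x ∈ (J n w).filter (fun x => cnt x (k + 2 * A) ≤ A),
        (1 - 3 * ((cnt x (k + 2 * A) : ℕ) : ℝ) / ((k : ℝ) + 1)) with hSdef
  have h9 : (2 * (n : ℝ) - 21 * w) * B ≤ 2 * (n : ℝ) * S := by
    have h10 : 2 * (n : ℝ) * (B - 3 * M / ((k : ℝ) + 1) - Q) ≤ 2 * (n : ℝ) * S :=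
      mul_le_mul_of_nonneg_left hS (by linarith)
    have h11 : 2 * (n : ℝ) * (B - 3 * M / ((k : ℝ) + 1) - Q) =
        2 * n * B - 2 * ((n : ℝ) * (3 * M / ((k : ℝ) + 1))) - 2 * ((n : ℝ) * Q) := by ring
    rw [h11] at h10
    have h12 : 2 * ((n : ℝ) * Q) ≤ 12 * w * B := by linarith
    have h13 : (2 * (n : ℝ) - 21 * w) * B = 2 * n * B - 9 * w * B - 12 * w * B := by ring
    rw [h13]
    linarith
  rcases Nat.eq_zero_or_pos n with hnz | hnz
  · subst hnz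
    have : w = 0 := by omega
    subst this
    simp
  have hnpos : (0 : ℝ) < n := by exact_mod_cast hnz
  have h14 : ((n : ℝ) - 6 * w) * ((2 * (n : ℝ) - 21 * w) * B) ≤
      2 * (n : ℝ) * ((n : ℝ) * ((good n w k).card : ℝ)) := by
    calc ((n : ℝ) - 6 * w) * ((2 * (n : ℝ) - 21 * w) * B)
        ≤ ((n : ℝ) - 6 * w) * (2 * (n : ℝ) * S) := mul_le_mul_of_nonneg_left h9 h6'
      _ = 2 * (n : ℝ) * (((n : ℝ) - 6 * w) * S) := by ring
      _ ≤ 2 * (n : ℝ) * ((n : ℝ) * ((good n w k).card : ℝ)) :=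
          mul_le_mul_of_nonneg_left h1 (by linarith)
  have h15 : 2 * (n : ℝ) * (((n : ℝ) - 17 * w) * B) ≤
      2 * (n : ℝ) * ((n : ℝ) * ((good n w k).card : ℝ)) := by
    refine le_trans ?_ h14
    have h16 : 2 * (n : ℝ) * (((n : ℝ) - 17 * w) * B) =
        (2 * n * ((n : ℝ) - 17 * w)) * B := by ring
    have h18 : ((n : ℝ) - 6 * w) * ((2 * (n : ℝ) - 21 * w) * B) =
        (((n : ℝ) - 6 * w) * (2 * (n : ℝ) - 21 * w)) * B := by ring
    rw [h16, h18]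
    apply mul_le_mul_of_nonneg_right _ hBn
    nlinarith [mul_nonneg hw0 hw0, mul_nonneg hn0 hw0]
  exact le_of_mul_le_mul_left h15 (by linarith)

/-- Main statement: a code of weight `w` yields a code of weight `w + k` with the same distance,
the loss being controlled. -/
theorem bounded (n d w k : ℕ) (hn : 2 * (w + k) ≤ n)
    (C : Finset (Finset (Fin n))) (hC : ∀ s ∈ C, s.card = w)
    (hD : ∀ s ∈ C, ∀ t ∈ C, s ≠ t → d ≤ (symmDiff s t).card) :
    ∃ C' : Finset (Finset (Fin n)),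
      ((n : ℝ) - 17 * w) * (C.card : ℝ) ≤ (n : ℝ) * (C'.card : ℝ) ∧
      (6 * w ≤ n → 2 * ((n : ℝ) - 6 * w) ^ 2 * (C.card : ℝ) ≤ 5 * (n : ℝ) ^ 2 * (C'.card : ℝ)) ∧
      (∀ s ∈ C', s.card = w + k) ∧
      (∀ s ∈ C', ∀ t ∈ C', s ≠ t → d ≤ (symmDiff s t).card) := by
  obtain ⟨σ, hσ⟩ := exists_perm C (good n w k) w hC (fun s hs => (mem_good.mp hs).1)
  rw [card_filter_act, Fintype.card_fin] at hσ
  obtain ⟨hC1, hD1⟩ := act_code C σ w d hC hD
  obtain ⟨C', h1, h2, h3⟩ := flip_all (C.image (act σ)) w k d hC1 hD1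
    ((C.image (act σ)).filter (fun s => s ∈ good n w k)) (Finset.filter_subset _ _)
    (fun x hx => (mem_good.mp (Finset.mem_filter.mp hx).2).2)
  rw [← h1] at hσ
  have hσ' : (C.card : ℝ) * ((good n w k).card : ℝ) ≤ (C'.card : ℝ) * (n.choose w : ℝ) := by
    exact_mod_cast hσ
  have hBpos : (0 : ℝ) < (n.choose w : ℝ) := by
    exact_mod_cast Nat.choose_pos (by omega : w ≤ n)
  have hCn : (0 : ℝ) ≤ (C.card : ℝ) := Nat.cast_nonneg _
  refine ⟨C', ?_, ?_, h2, h3⟩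
  · have h4 := good_near n w k hn
    have h5 : (((n : ℝ) - 17 * w) * (C.card : ℝ)) * (n.choose w : ℝ) ≤
        ((n : ℝ) * (C'.card : ℝ)) * (n.choose w : ℝ) := by
      calc (((n : ℝ) - 17 * w) * (C.card : ℝ)) * (n.choose w : ℝ)
          = (C.card : ℝ) * (((n : ℝ) - 17 * w) * (n.choose w : ℝ)) := by ring
        _ ≤ (C.card : ℝ) * ((n : ℝ) * ((good n w k).card : ℝ)) :=
            mul_le_mul_of_nonneg_left h4 hCn
        _ = (n : ℝ) * ((C.card : ℝ) * ((good n w k).card : ℝ)) := by ring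
        _ ≤ (n : ℝ) * ((C'.card : ℝ) * (n.choose w : ℝ)) :=
            mul_le_mul_of_nonneg_left hσ' (Nat.cast_nonneg n)
        _ = _ := by ring
    exact le_of_mul_le_mul_right h5 hBpos
  · intro h6
    have h4 := good_const n w k hn h6
    have h5 : (2 * ((n : ℝ) - 6 * w) ^ 2 * (C.card : ℝ)) * (n.choose w : ℝ) ≤
        (5 * (n : ℝ) ^ 2 * (C'.card : ℝ)) * (n.choose w : ℝ) := by
      calc (2 * ((n : ℝ) - 6 * w) ^ 2 * (C.card : ℝ)) * (n.choose w : ℝ)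
          = (C.card : ℝ) * (2 * ((n : ℝ) - 6 * w) ^ 2 * (n.choose w : ℝ)) := by ring
        _ ≤ (C.card : ℝ) * (5 * (n : ℝ) ^ 2 * ((good n w k).card : ℝ)) :=
            mul_le_mul_of_nonneg_left h4 hCn
        _ = 5 * (n : ℝ) ^ 2 * ((C.card : ℝ) * ((good n w k).card : ℝ)) := by ring
        _ ≤ 5 * (n : ℝ) ^ 2 * ((C'.card : ℝ) * (n.choose w : ℝ)) :=
            mul_le_mul_of_nonneg_left hσ' (by positivity)
        _ = _ := by ring
    exact le_of_mul_le_mul_right h5 hBpos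

end Pool.Agent.Hhelper49.CWD
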