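import Pool.Agent.Hhelper49.CWC.Cheb

set_option autoImplicit false

/-! The averaging bound with a factor of order `√((w₂ - w₁) w₁ / (n - 2 w₁))`. -/

namespace Pool.Agent.Hhelper49.CWD

open Pool.Agent.Hhelper49.CWC

/-- Variance bound. -/
theorem var_le2 (w N τ : ℕ) (hw : 1 ≤ w) (hN : 1 ≤ N) (hτ : τ ≤ w + N) :
    ∑ i ∈ Finset.range (τ + 1), ((i : ℝ) - τ * w / (w + N)) ^ 2 * hyp w N τ i ≤
      ((w : ℝ) * τ / (w + N)) * ((w + N).choose τ : ℝ) := by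
  set n : ℝ := (w : ℝ) + N with hn
  have hw' : (1 : ℝ) ≤ w := by exact_mod_cast hw
  have hN' : (1 : ℝ) ≤ N := by exact_mod_cast hN
  have hn1 : 2 ≤ n := by rw [hn]; linarith
  have hn0 : 0 < n := by linarith
  set μ : ℝ := τ * w / n with hμ
  set M0 : ℝ := ((w + N).choose τ : ℝ) with hM0
  have hM0pos : 0 ≤ M0 := Nat.cast_nonneg _
  set M1 : ℝ := ∑ i ∈ Finset.range (τ + 1), (i : ℝ) * hyp w N τ i with hM1
  set M2 : ℝ := ∑ i ∈ Finset.range (τ + 1), (i : ℝ) * (i - 1) * hyp w N τ i with hM2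
  have e0 : ∑ i ∈ Finset.range (τ + 1), (hyp w N τ i : ℝ) = M0 := by
    rw [hM0, ← hyp_sum]
    push_cast
    rfl
  have e1 : n * M1 = w * τ * M0 := m1_real w N τ
  have e2 : n * (n - 1) * M2 = w * (w - 1) * (τ * (τ - 1)) * M0 := m2_real w N τ
  have hsum : ∑ i ∈ Finset.range (τ + 1), ((i : ℝ) - μ) ^ 2 * hyp w N τ i =
      M2 + M1 - 2 * μ * M1 + μ ^ 2 * M0 := by
    rw [hM2, hM1, ← e0, Finset.mul_sum, Finset.mul_sum, ← Finset.sum_add_distrib,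
      ← Finset.sum_sub_distrib, ← Finset.sum_add_distrib]
    apply Finset.sum_congr rfl
    intro i _
    ring
  have hM1' : M1 = μ * M0 := by
    have : n * M1 = n * (μ * M0) := by
      rw [e1, hμ]
      field_simp
    exact mul_left_cancel₀ hn0.ne' this
  show ∑ i ∈ Finset.range (τ + 1), ((i : ℝ) - μ) ^ 2 * hyp w N τ i ≤ ((w : ℝ) * τ / n) * M0
  rw [hsum]
  have hτn : (τ : ℝ) ≤ n := by
    rw [hn]
    exact_mod_cast hτ
  have hτ0 : (0 : ℝ) ≤ τ := Nat.cast_nonneg τ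
  have hn2 : 0 < n - 1 := by linarith
  have hV : n ^ 2 * (n - 1) * (M2 + M1 - 2 * μ * M1 + μ ^ 2 * M0) =
      (w * (τ * (n - τ)) * (n - w)) * M0 := by
    have hμn : μ * n = τ * w := by
      rw [hμ]
      field_simp
    have : n ^ 2 * (n - 1) * (M2 + M1 - 2 * μ * M1 + μ ^ 2 * M0) =
        n * (n * (n - 1) * M2) + (n - 1) * n ^ 2 * (μ * M0 - μ ^ 2 * M0) := by
      rw [hM1']
      ring
    rw [this, e2]
    have h5 : (n - 1) * n ^ 2 * (μ * M0 - μ ^ 2 * M0) =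
        (n - 1) * (n * (μ * n) - (μ * n) ^ 2) * M0 := by ring
    rw [h5, hμn]
    ring
  have hb : (w * (τ * (n - τ)) * (n - w)) * M0 ≤ n ^ 2 * (n - 1) * (((w : ℝ) * τ / n) * M0) := by
    have h6 : (τ : ℝ) * (n - τ) ≤ τ * n := by nlinarith
    have h7 : n - (w : ℝ) ≤ n - 1 := by linarith
    have h8 : 0 ≤ n - (w : ℝ) := by
      rw [hn]
      linarith
    have h9 : (τ * (n - τ)) * (n - w) ≤ (τ * n) * (n - 1) := by
      apply mul_le_mul h6 h7 h8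
      positivity
    have h10 : w * ((τ * (n - τ)) * (n - w)) ≤ w * ((τ * n) * (n - 1)) :=
      mul_le_mul_of_nonneg_left h9 (by linarith)
    calc (w * (τ * (n - τ)) * (n - w)) * M0 = (w * ((τ * (n - τ)) * (n - w))) * M0 := by ring
      _ ≤ (w * ((τ * n) * (n - 1))) * M0 := mul_le_mul_of_nonneg_right h10 hM0pos
      _ = _ := by
          field_simp
  have hpos : 0 < n ^ 2 * (n - 1) := by positivity
  rw [← hV] at hb
  exact le_of_mul_le_mul_left hb hpos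

/-- The mode is at least a `1/√V` fraction. -/
theorem mode_large2 (w N τ : ℕ) (hw : 1 ≤ w) (hN : 1 ≤ N) (hτ : τ ≤ w + N) (V : ℝ) (hV : 0 < V)
    (hVle : (w : ℝ) * τ / (w + N) ≤ V) :
    (3 / 4 : ℝ) * ((w + N).choose τ : ℝ) ≤
      (4 * √V + 1) * (hyp w N τ ((w + 1) * (τ + 1) / (w + N + 2)) : ℝ) := by
  set m := (w + 1) * (τ + 1) / (w + N + 2) with hm
  set μ : ℝ := τ * w / (w + N) with hμ
  have hvar := var_le2 w N τ hw hN hτ
  rw [← hμ] at hvar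
  set M0 : ℝ := ((w + N).choose τ : ℝ) with hM0
  have hM0pos : 0 ≤ M0 := Nat.cast_nonneg _
  have e0 : ∑ i ∈ Finset.range (τ + 1), (hyp w N τ i : ℝ) = M0 := by
    rw [hM0, ← hyp_sum]
    push_cast
    rfl
  have hr0 : (0 : ℝ) ≤ 2 * √V := by positivity
  set S := (Finset.range (τ + 1)).filter (fun i : ℕ => |(i : ℝ) - μ| ≤ 2 * √V) with hS
  have hsplit : ∑ i ∈ S, (hyp w N τ i : ℝ) +
      ∑ i ∈ (Finset.range (τ + 1)).filter (fun i : ℕ => ¬ |(i : ℝ) - μ| ≤ 2 * √V),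
        (hyp w N τ i : ℝ) = M0 := by
    rw [← e0]
    exact Finset.sum_filter_add_sum_filter_not _ _ _
  have htail : ∑ i ∈ (Finset.range (τ + 1)).filter (fun i : ℕ => ¬ |(i : ℝ) - μ| ≤ 2 * √V),
        (hyp w N τ i : ℝ) ≤ M0 / 4 := by
    have h1 : (4 * V) * ∑ i ∈ (Finset.range (τ + 1)).filter
        (fun i : ℕ => ¬ |(i : ℝ) - μ| ≤ 2 * √V), (hyp w N τ i : ℝ) ≤ V * M0 := by
      rw [Finset.mul_sum]
      refine le_trans ?_ (hvar.trans (mul_le_mul_of_nonneg_right hVle hM0pos))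
      refine le_trans (Finset.sum_le_sum (g := fun i : ℕ => ((i : ℝ) - μ) ^ 2 * hyp w N τ i) ?_) ?_
      · intro i hi
        rw [Finset.mem_filter] at hi
        have h2 := hi.2
        push Not at h2
        have h3 : 4 * V ≤ ((i : ℝ) - μ) ^ 2 := by
          have h4 : (2 * √V) ^ 2 = 4 * V := by
            rw [mul_pow, Real.sq_sqrt hV.le]
            ring
          rw [← sq_abs, ← h4]
          exact pow_le_pow_left₀ hr0 h2.le 2
        exact mul_le_mul_of_nonneg_right h3 (Nat.cast_nonneg _)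
      · apply Finset.sum_le_sum_of_subset_of_nonneg (Finset.filter_subset _ _)
        intro i _ _
        positivity
    have h4 : (4 * V) * ∑ i ∈ (Finset.range (τ + 1)).filter
        (fun i : ℕ => ¬ |(i : ℝ) - μ| ≤ 2 * √V), (hyp w N τ i : ℝ) ≤ (4 * V) * (M0 / 4) := by
      calc _ ≤ V * M0 := h1
        _ = (4 * V) * (M0 / 4) := by ring
    exact le_of_mul_le_mul_left h4 (by positivity)
  have hmain : ∑ i ∈ S, (hyp w N τ i : ℝ) ≤ (2 * (2 * √V) + 1) * (hyp w N τ m : ℝ) := by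
    have h1 : ∑ i ∈ S, (hyp w N τ i : ℝ) ≤ ∑ _i ∈ S, (hyp w N τ m : ℝ) := by
      apply Finset.sum_le_sum
      intro i hi
      rw [hS, Finset.mem_filter, Finset.mem_range] at hi
      exact_mod_cast hyp_le_mode w N τ hτ i (by omega)
    rw [Finset.sum_const, nsmul_eq_mul] at h1
    refine h1.trans ?_
    apply mul_le_mul_of_nonneg_right _ (Nat.cast_nonneg _)
    apply card_close S μ _ hr0
    intro i hi
    rw [hS, Finset.mem_filter] at hi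
    exact hi.2
  have e4 : 2 * (2 * √V) + 1 = 4 * √V + 1 := by ring
  rw [e4] at hmain
  linarith

/-- Monotonicity up to a factor of order `√((w₂ - w₁) w₁ / (n - 2 w₁))`. -/
theorem almost_mono2 (n d w₁ w₂ : ℕ) (hw : 1 ≤ w₁) (h12 : w₁ < w₂) (hn : 2 * w₂ ≤ n)
    (C : Finset (Finset (Fin n))) (hC : ∀ s ∈ C, s.card = w₁)
    (hD : ∀ s ∈ C, ∀ t ∈ C, s ≠ t → d ≤ (symmDiff s t).card) :
    ∃ C' : Finset (Finset (Fin n)),
      (C.card : ℝ) ≤ (4 / 3 + 9 * √(((w₂ : ℝ) - w₁) * w₁ / (n - 2 * w₁))) * (C'.card : ℝ) ∧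
      (∀ s ∈ C', s.card = w₂) ∧
      (∀ s ∈ C', ∀ t ∈ C', s ≠ t → d ≤ (symmDiff s t).card) := by
  obtain ⟨N, hN⟩ : ∃ N, n = w₁ + N := ⟨n - w₁, by omega⟩
  obtain ⟨τ, hτ, hτw⟩ := exists_tau w₁ N w₂ h12.le (by omega)
  set i := (w₁ + 1) * (τ + 1) / (w₁ + N + 2) with hi
  have hiτ : i ≤ τ := by omega
  obtain ⟨T, hT, hTc⟩ := exists_flip C w₁ τ i hC hiτ (by rw [Fintype.card_fin]; omega)
  rw [Fintype.card_fin] at hTc
  obtain ⟨C', h1, h2, h3⟩ := flip_code C w₁ τ i d w₂ hC hD T hT hτw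
  refine ⟨C', ?_, h2, h3⟩
  rw [← h1] at hTc
  have hNn : n - w₁ = N := by omega
  rw [hNn] at hTc
  -- real quantities
  have hwR : (1 : ℝ) ≤ w₁ := by exact_mod_cast hw
  have hkR : (1 : ℝ) ≤ (w₂ : ℝ) - w₁ := by
    have : (w₁ : ℝ) + 1 ≤ w₂ := by exact_mod_cast h12
    linarith
  have hnR : 2 * (w₂ : ℝ) ≤ n := by exact_mod_cast hn
  have hgap : (0 : ℝ) < (n : ℝ) - 2 * w₁ := by linarith
  have hn4 : (4 : ℝ) ≤ n := by linarith
  have hNR : (n : ℝ) = w₁ + N := by exact_mod_cast hN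
  set x : ℝ := ((w₂ : ℝ) - w₁) * w₁ / (n - 2 * w₁) with hx
  have hxpos : 0 < x := by
    rw [hx]
    apply div_pos _ hgap
    exact mul_pos (by linarith) (by linarith)
  -- bound on τ
  have hτb : (τ : ℝ) * ((n : ℝ) - 2 * w₁) ≤ (n + 2) * ((w₂ : ℝ) - w₁) + 2 * (w₁ + 1) := by
    have hi1 : i * (w₁ + N + 2) ≤ (w₁ + 1) * (τ + 1) := Nat.div_mul_le_self _ _
    have hi2 : (i : ℝ) * ((n : ℝ) + 2) ≤ ((w₁ : ℝ) + 1) * (τ + 1) := by
      rw [hNR]
      exact_mod_cast hi1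
    have hi3 : (w₂ : ℝ) + 2 * i = w₁ + τ := by exact_mod_cast hτw
    have hi4 : (τ : ℝ) = ((w₂ : ℝ) - w₁) + 2 * i := by linarith
    have hi5 : (τ : ℝ) * ((n : ℝ) + 2) = ((w₂ : ℝ) - w₁) * (n + 2) + 2 * (i * ((n : ℝ) + 2)) := by
      nlinarith
    nlinarith
  have hVle : (w₁ : ℝ) * τ / (w₁ + N) ≤ 5 / 2 * x := by
    rw [← hNR, div_le_iff₀ (by linarith), hx]
    have h6 : (n + 2) * ((w₂ : ℝ) - w₁) + 2 * (w₁ + 1) ≤ 5 / 2 * ((w₂ : ℝ) - w₁) * n := by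
      nlinarith
    have h7 : (τ : ℝ) * ((n : ℝ) - 2 * w₁) ≤ 5 / 2 * ((w₂ : ℝ) - w₁) * n := hτb.trans h6
    have h8 : (w₁ : ℝ) * τ * ((n : ℝ) - 2 * w₁) ≤ w₁ * (5 / 2 * ((w₂ : ℝ) - w₁) * n) := by
      rw [mul_assoc]
      exact mul_le_mul_of_nonneg_left h7 (by linarith)
    have h9 : 5 / 2 * (((w₂ : ℝ) - w₁) * w₁ / (n - 2 * w₁)) * n =
        (w₁ * (5 / 2 * ((w₂ : ℝ) - w₁) * n)) / ((n : ℝ) - 2 * w₁) := by
      field_simp
    rw [h9, le_div_iff₀ hgap]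
    exact h8
  have hml := mode_large2 w₁ N τ hw (by omega) hτ (5 / 2 * x) (by positivity) hVle
  rw [← hi] at hml
  set H : ℝ := (hyp w₁ N τ i : ℝ) with hH
  have hTc' : (C.card : ℝ) * H ≤ (C'.card : ℝ) * ((w₁ + N).choose τ : ℝ) := by
    rw [hH, ← hN]
    exact_mod_cast hTc
  have hchoose : (0 : ℝ) < ((w₁ + N).choose τ : ℝ) := by
    exact_mod_cast Nat.choose_pos hτ
  have hHpos : 0 < H := by
    by_contra hcon
    push Not at hcon
    have : (4 * √(5 / 2 * x) + 1) * H ≤ 0 :=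
      mul_nonpos_of_nonneg_of_nonpos (by positivity) hcon
    linarith
  have hsqrt : 4 * √(5 / 2 * x) ≤ 27 / 4 * √x := by
    have h10 : √(5 / 2 * x) ≤ 27 / 16 * √x := by
      rw [Real.sqrt_le_left (by positivity), mul_pow, Real.sq_sqrt hxpos.le]
      nlinarith
    linarith
  have h5 : ((w₁ + N).choose τ : ℝ) ≤ (4 / 3 + 9 * √x) * H := by
    have h6 : (4 * √(5 / 2 * x) + 1) * H ≤ (27 / 4 * √x + 1) * H :=
      mul_le_mul_of_nonneg_right (by linarith) hHpos.le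
    have h7 : (4 / 3 + 9 * √x) * H = 4 / 3 * ((27 / 4 * √x + 1) * H) := by ring
    rw [h7]
    linarith
  have h7 : (C.card : ℝ) * H ≤ ((4 / 3 + 9 * √x) * (C'.card : ℝ)) * H := by
    calc (C.card : ℝ) * H ≤ (C'.card : ℝ) * ((w₁ + N).choose τ : ℝ) := hTc'
      _ ≤ (C'.card : ℝ) * ((4 / 3 + 9 * √x) * H) :=
        mul_le_mul_of_nonneg_left h5 (Nat.cast_nonneg _)
      _ = _ := by ring
  exact le_of_mul_le_mul_right h7 hHpos

end Pool.Agent.Hhelper49.CWD
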