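import Mathlib

set_option autoImplicit false

/-! Convolutions of ballot numbers (identities of Rothe and Jensen with step 2). -/

namespace Pool.Agent.Hhelper49.CWD

/-- `C(m+2a, a)`. -/
def cc (m a : ℕ) : ℤ := ((m + 2 * a).choose a : ℤ)

/-- `m/(m+2a) C(m+2a, a)`. -/
def uu (m : ℕ) : ℕ → ℤ
  | 0 => 1
  | a + 1 => ((m + 2 * a + 2).choose (a + 1) : ℤ) - 2 * ((m + 2 * a + 1).choose a : ℤ)

/-- `(m-2a)/(m+2a) C(m+2a, a)`. -/
def hh (m : ℕ) : ℕ → ℤ
  | 0 => 1
  | a + 1 => ((m + 2 * a + 2).choose (a + 1) : ℤ) - 4 * ((m + 2 * a + 1).choose a : ℤ)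

/-- Convolution. -/
def cv (p q : ℕ → ℕ → ℤ) (m₁ m₂ w : ℕ) : ℤ :=
  ∑ a ∈ Finset.range (w + 1), p m₁ a * q m₂ (w - a)

/-- The common recursion. -/
def Rec (p : ℕ → ℕ → ℤ) : Prop :=
  (∀ m, p (m + 1) 0 = p m 0) ∧ ∀ m a, p (m + 1) (a + 1) = p m (a + 1) + p (m + 2) a

theorem rec_cc : Rec cc := by
  refine ⟨fun m => by simp [cc], fun m a => ?_⟩
  unfold cc
  have e1 : m + 1 + 2 * (a + 1) = (m + 2 * a + 2) + 1 := by ring
  have e2 : m + 2 * (a + 1) = m + 2 * a + 2 := by ring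
  have e3 : m + 2 + 2 * a = m + 2 * a + 2 := by ring
  rw [e1, e2, e3, Nat.choose_succ_succ]
  push_cast
  ring

theorem rec_uu : Rec uu := by
  refine ⟨fun m => rfl, fun m a => ?_⟩
  cases a with
  | zero =>
    simp only [uu]
    simp
  | succ b =>
    simp only [uu]
    have e1 : m + 1 + 2 * (b + 1) + 2 = (m + 2 * b + 4) + 1 := by ring
    have e2 : m + 1 + 2 * (b + 1) + 1 = (m + 2 * b + 3) + 1 := by ring
    have e3 : m + 2 * (b + 1) + 2 = m + 2 * b + 4 := by ring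
    have e4 : m + 2 * (b + 1) + 1 = m + 2 * b + 3 := by ring
    have e5 : m + 2 + 2 * b + 2 = m + 2 * b + 4 := by ring
    have e6 : m + 2 + 2 * b + 1 = m + 2 * b + 3 := by ring
    rw [e1, e2, e3, e4, e5, e6, Nat.choose_succ_succ (m + 2 * b + 4), Nat.choose_succ_succ (m + 2 * b + 3)]
    push_cast
    ring

theorem cv_shift (p q : ℕ → ℕ → ℤ) (hp : Rec p) (hq : Rec q) :
    ∀ w m₁ m₂, cv p q (m₁ + 1) m₂ w = cv p q m₁ (m₂ + 1) w := by
  intro w
  induction w with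
  | zero =>
    intro m₁ m₂
    unfold cv
    simp only [zero_add, Finset.sum_range_one]
    rw [hp.1, hq.1]
  | succ w ih =>
    intro m₁ m₂
    have h1 : cv p q (m₁ + 1) m₂ (w + 1) = cv p q m₁ m₂ (w + 1) + cv p q (m₁ + 2) m₂ w := by
      unfold cv
      rw [Finset.sum_range_succ' _ (w + 1), Finset.sum_range_succ' _ (w + 1)]
      have h2 : ∀ a ∈ Finset.range (w + 1), p (m₁ + 1) (a + 1) * q m₂ (w + 1 - (a + 1)) =
          p m₁ (a + 1) * q m₂ (w + 1 - (a + 1)) + p (m₁ + 2) a * q m₂ (w - a) := by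
        intro a _
        have e : w + 1 - (a + 1) = w - a := by omega
        rw [hp.2, e]
        ring
      rw [Finset.sum_congr rfl h2, Finset.sum_add_distrib, hp.1]
      ring
    have h3 : cv p q m₁ (m₂ + 1) (w + 1) = cv p q m₁ m₂ (w + 1) + cv p q m₁ (m₂ + 2) w := by
      unfold cv
      rw [Finset.sum_range_succ _ (w + 1), Finset.sum_range_succ _ (w + 1)]
      have h2 : ∀ a ∈ Finset.range (w + 1), p m₁ a * q (m₂ + 1) (w + 1 - a) =
          p m₁ a * q m₂ (w + 1 - a) + p m₁ a * q (m₂ + 2) (w - a) := by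
        intro a ha
        rw [Finset.mem_range] at ha
        have e : w + 1 - a = (w - a) + 1 := by omega
        rw [e, hq.2]
        ring
      have e0 : w + 1 - (w + 1) = 0 := by omega
      rw [Finset.sum_congr rfl h2, Finset.sum_add_distrib, e0, hq.1]
      ring
    rw [h1, h3, show m₁ + 2 = m₁ + 1 + 1 from rfl, ih, ih]

theorem cv_left (p q : ℕ → ℕ → ℤ) (hp : Rec p) (hq : Rec q) (w : ℕ) :
    ∀ m₁ m₂, cv p q m₁ m₂ w = cv p q 0 (m₁ + m₂) w := by
  intro m₁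
  induction m₁ with
  | zero =>
    intro m₂
    rw [zero_add]
  | succ m ih =>
    intro m₂
    rw [cv_shift p q hp hq, ih]
    congr 1
    ring

theorem cv_right (p q : ℕ → ℕ → ℤ) (hp : Rec p) (hq : Rec q) (w : ℕ) :
    ∀ m₂ m₁, cv p q m₁ m₂ w = cv p q (m₁ + m₂) 0 w := by
  intro m₂
  induction m₂ with
  | zero =>
    intro m₁
    rw [add_zero]
  | succ m ih =>
    intro m₁
    rw [← cv_shift p q hp hq, ih]
    congr 1
    ring

theorem uu_zero (a : ℕ) : uu 0 (a + 1) = 0 := by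
  simp only [uu, zero_add]
  have h : (2 * a + 2).choose (a + 1) = 2 * (2 * a + 1).choose a := by
    have h1 : (2 * a + 2).choose (a + 1) = (2 * a + 1).choose a + (2 * a + 1).choose (a + 1) :=
      Nat.choose_succ_succ (2 * a + 1) a
    have h2 : (2 * a + 1).choose (a + 1) = (2 * a + 1).choose a := by
      apply Nat.choose_symm_of_eq_add
      ring
    omega
  rw [h]
  push_cast
  ring

theorem cv_uu_left (q : ℕ → ℕ → ℤ) (hq : Rec q) (m₁ m₂ w : ℕ) :
    cv uu q m₁ m₂ w = q (m₁ + m₂) w := by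
  rw [cv_left uu q rec_uu hq]
  unfold cv
  rw [Finset.sum_range_succ']
  have h : ∀ a ∈ Finset.range w, uu 0 (a + 1) * q (m₁ + m₂) (w - (a + 1)) = 0 := by
    intro a _
    rw [uu_zero, zero_mul]
  rw [Finset.sum_eq_zero h]
  simp [uu]

theorem cv_uu_right (p : ℕ → ℕ → ℤ) (hp : Rec p) (m₁ m₂ w : ℕ) :
    cv p uu m₁ m₂ w = p (m₁ + m₂) w := by
  rw [cv_right p uu hp rec_uu]
  unfold cv
  rw [Finset.sum_range_succ]
  have h : ∀ a ∈ Finset.range w, p (m₁ + m₂) a * uu 0 (w - a) = 0 := by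
    intro a ha
    rw [Finset.mem_range] at ha
    obtain ⟨b, hb⟩ : ∃ b, w - a = b + 1 := ⟨w - a - 1, by omega⟩
    rw [hb, uu_zero, mul_zero]
  rw [Finset.sum_eq_zero h]
  simp [uu]

theorem hh_eq (m a : ℕ) : hh m a = 2 * uu m a - cc m a := by
  cases a with
  | zero => simp [hh, uu, cc]
  | succ a =>
    simp only [hh, uu, cc]
    have e : m + 2 * (a + 1) = m + 2 * a + 2 := by ring
    rw [e]
    ring

/-- The double convolution of `cc`. -/
def QQ (M w : ℕ) : ℤ := cv cc cc 0 M w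

theorem cv_cc (m₁ m₂ w : ℕ) : cv cc cc m₁ m₂ w = QQ (m₁ + m₂) w :=
  cv_left cc cc rec_cc rec_cc w m₁ m₂

theorem cv_hh (m₁ m₂ w : ℕ) :
    cv hh hh m₁ m₂ w = 4 * uu (m₁ + m₂) w - 4 * cc (m₁ + m₂) w + QQ (m₁ + m₂) w := by
  have h1 : cv hh hh m₁ m₂ w = 4 * cv uu uu m₁ m₂ w - 2 * cv uu cc m₁ m₂ w -
      2 * cv cc uu m₁ m₂ w + cv cc cc m₁ m₂ w := by
    unfold cv
    rw [Finset.mul_sum, Finset.mul_sum, Finset.mul_sum, ← Finset.sum_sub_distrib,
      ← Finset.sum_sub_distrib, ← Finset.sum_add_distrib]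
    apply Finset.sum_congr rfl
    intro a _
    rw [hh_eq, hh_eq]
    ring
  rw [h1, cv_uu_left uu rec_uu, cv_uu_left cc rec_cc, cv_uu_right cc rec_cc, cv_cc]
  ring

theorem QQ_zero (M : ℕ) : QQ M 0 = 1 := by
  unfold QQ cv cc
  simp

theorem QQ_succ (M w : ℕ) : QQ M (w + 1) = cc M (w + 1) + 2 * QQ (M + 1) w := by
  have h1 : QQ M (w + 1) = cv uu cc 0 M (w + 1) + 2 * cv cc cc 1 M w := by
    unfold QQ cv
    rw [Finset.sum_range_succ' _ (w + 1), Finset.sum_range_succ' _ (w + 1)]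
    have h2 : ∀ a ∈ Finset.range (w + 1), cc 0 (a + 1) * cc M (w + 1 - (a + 1)) =
        uu 0 (a + 1) * cc M (w + 1 - (a + 1)) + 2 * (cc 1 a * cc M (w - a)) := by
      intro a _
      have e : w + 1 - (a + 1) = w - a := by omega
      have e2 : cc 0 (a + 1) = uu 0 (a + 1) + 2 * cc 1 a := by
        simp only [uu, cc]
        have e3 : 0 + 2 * (a + 1) = 0 + 2 * a + 2 := by ring
        have e4 : 0 + 2 * a + 1 = 1 + 2 * a := by ring
        rw [e3, e4]
        ring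
      rw [e2, e]
      ring
    rw [Finset.sum_congr rfl h2, Finset.sum_add_distrib, ← Finset.mul_sum]
    have e3 : cc 0 0 = uu 0 0 := by simp [cc, uu]
    rw [e3]
    ring
  rw [h1, cv_uu_left cc rec_cc, cv_cc, zero_add, add_comm 1 M]

theorem QQ_lower (w : ℕ) : ∀ M : ℕ, 2 * w ≤ M + 6 →
    ((M : ℤ) + 2 * w + 3) * cc M w ≤ ((M : ℤ) + 3) * QQ M w := by
  induction w with
  | zero =>
    intro M _
    rw [QQ_zero]
    simp [cc]
  | succ w ih =>
    intro M hM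
    have h1 := ih (M + 1) (by omega)
    rw [QQ_succ]
    have h2 : ((w : ℤ) + 1) * cc M (w + 1) = ((M : ℤ) + 2 * w + 2) * cc (M + 1) w := by
      unfold cc
      have e1 : M + 2 * (w + 1) = (M + 1 + 2 * w) + 1 := by ring
      have h3 := Nat.add_one_mul_choose_eq (M + 1 + 2 * w) w
      rw [e1]
      have h4 : ((M + 1 + 2 * w + 1 : ℕ) : ℤ) * ((M + 1 + 2 * w).choose w : ℤ) =
          ((M + 1 + 2 * w + 1).choose (w + 1) : ℤ) * ((w + 1 : ℕ) : ℤ) := by
        exact_mod_cast h3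
      push_cast at h4
      linarith
    set c1 := cc M (w + 1) with hc1
    set c2 := cc (M + 1) w with hc2
    set q := QQ (M + 1) w with hq
    have hc2n : 0 ≤ c2 := by
      rw [hc2]
      unfold cc
      exact Int.natCast_nonneg _
    have hMR : 2 * ((w : ℤ) + 1) ≤ M + 6 := by exact_mod_cast hM
    push_cast at h1 ⊢
    -- (M+3) q ≥ (M+2w+2) c2
    have h5 : ((M : ℤ) + 2 * w + 2) * c2 ≤ ((M : ℤ) + 3) * q := by
      have h6 : ((M : ℤ) + 4) * (((M : ℤ) + 2 * w + 2) * c2) ≤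
          ((M : ℤ) + 4) * (((M : ℤ) + 3) * q) := by
        have h7 : ((M : ℤ) + 4) * ((M : ℤ) + 2 * w + 2) ≤
            ((M : ℤ) + 3) * ((M : ℤ) + 1 + 2 * w + 3) := by nlinarith
        calc ((M : ℤ) + 4) * (((M : ℤ) + 2 * w + 2) * c2)
            = (((M : ℤ) + 4) * ((M : ℤ) + 2 * w + 2)) * c2 := by ring
          _ ≤ (((M : ℤ) + 3) * ((M : ℤ) + 1 + 2 * w + 3)) * c2 :=
              mul_le_mul_of_nonneg_right h7 hc2n
          _ = ((M : ℤ) + 3) * (((M : ℤ) + 1 + 2 * w + 3) * c2) := by ring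
          _ ≤ ((M : ℤ) + 3) * (((M : ℤ) + 1 + 3) * q) :=
              mul_le_mul_of_nonneg_left h1 (by positivity)
          _ = _ := by ring
      exact le_of_mul_le_mul_left h6 (by positivity)
    nlinarith

end Pool.Agent.Hhelper49.CWD
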