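import Pool.Agent.Hhelper49.CWD.Good

set_option autoImplicit false

/-! Number of words with a good cut point at `k + 2a`. -/

namespace Pool.Agent.Hhelper49.CWD

/-- Glue a reversed left part and a right part. -/
def glue (n r : ℕ) (A B : Finset ℕ) : Finset (Fin n) :=
  Finset.univ.filter (fun i => (i.val < r ∧ r - 1 - i.val ∈ A) ∨ (r ≤ i.val ∧ i.val - r ∈ B))

theorem mem_glue {n r : ℕ} {A B : Finset ℕ} {i : Fin n} : i ∈ glue n r A B ↔
    ((i.val < r ∧ r - 1 - i.val ∈ A) ∨ (r ≤ i.val ∧ i.val - r ∈ B)) := by
  unfold glue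
  rw [Finset.mem_filter]
  simp

theorem cnt_left {n r q : ℕ} {A B : Finset ℕ} (hrn : r ≤ n) (hq : q ≤ r)
    (hA : A ⊆ Finset.range r) :
    cnt (glue n r A B) q + (A ∩ Finset.range (r - q)).card = A.card := by
  have h1 : cnt (glue n r A B) q = (A \ Finset.range (r - q)).card := by
    unfold cnt
    apply Finset.card_bij (fun i _ => r - 1 - i.val)
    · intro i hi
      rw [Finset.mem_filter, mem_glue] at hi
      obtain ⟨h | h, h'⟩ := hi
      · rw [Finset.mem_sdiff, Finset.mem_range]
        exact ⟨h.2, by omega⟩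
      · omega
    · intro i hi j hj hij
      rw [Finset.mem_filter] at hi hj
      apply Fin.ext
      omega
    · intro b hb
      rw [Finset.mem_sdiff, Finset.mem_range] at hb
      have hbr := Finset.mem_range.mp (hA hb.1)
      refine ⟨⟨r - 1 - b, by omega⟩, ?_, ?_⟩
      · rw [Finset.mem_filter, mem_glue]
        refine ⟨Or.inl ⟨?_, ?_⟩, ?_⟩
        · show r - 1 - b < r
          omega
        · show r - 1 - (r - 1 - b) ∈ A
          have : r - 1 - (r - 1 - b) = b := by omega
          rw [this]
          exact hb.1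
        · show r - 1 - b < q
          omega
      · show r - 1 - (r - 1 - b) = b
        omega
  rw [h1]
  exact Finset.card_sdiff_add_card_inter A _

theorem cnt_right {n r q : ℕ} {A B : Finset ℕ} (hrq : r ≤ q) (hq : q ≤ n)
    (hA : A ⊆ Finset.range r) :
    cnt (glue n r A B) q = A.card + (B ∩ Finset.range (q - r)).card := by
  have h0 := cnt_left (B := B) (n := n) (by omega : r ≤ n) (le_refl r) hA
  have h00 : (A ∩ Finset.range (r - r)).card = 0 := by simp
  rw [h00, add_zero] at h0
  have h1 := card_inter_block (glue n r A B) hrq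
  rw [h0] at h1
  rw [← h1, add_comm]
  congr 1
  apply Finset.card_bij (fun i _ => i.val - r)
  · intro i hi
    rw [Finset.mem_inter, mem_glue, Finset.mem_sdiff] at hi
    obtain ⟨h, h2, h3⟩ := hi
    unfold seg at h2 h3
    rw [Finset.mem_filter] at h2 h3
    rw [Finset.mem_inter, Finset.mem_range]
    have h4 : ¬ i.val < r := fun h5 => h3 ⟨Finset.mem_univ _, h5⟩
    rcases h with h | h
    · omega
    · exact ⟨h.2, by omega⟩
  · intro i hi j hj hij
    rw [Finset.mem_inter, Finset.mem_sdiff] at hi hj
    unfold seg at hi hj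
    rw [Finset.mem_filter, Finset.mem_filter] at hi hj
    have h4 : ¬ i.val < r := fun h5 => hi.2.2 ⟨Finset.mem_univ _, h5⟩
    have h5 : ¬ j.val < r := fun h5 => hj.2.2 ⟨Finset.mem_univ _, h5⟩
    apply Fin.ext
    omega
  · intro b hb
    rw [Finset.mem_inter, Finset.mem_range] at hb
    refine ⟨⟨r + b, by omega⟩, ?_, ?_⟩
    · rw [Finset.mem_inter, mem_glue, Finset.mem_sdiff]
      unfold seg
      rw [Finset.mem_filter, Finset.mem_filter]
      refine ⟨Or.inr ⟨?_, ?_⟩, ⟨Finset.mem_univ _, ?_⟩, ?_⟩
      · show r ≤ r + b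
        omega
      · show r + b - r ∈ B
        have : r + b - r = b := by omega
        rw [this]
        exact hb.1
      · show r + b < q
        omega
      · rintro ⟨-, h⟩
        have h' : r + b < r := h
        omega
    · show r + b - r = b
      omega

theorem cnt_all {n : ℕ} (x : Finset (Fin n)) : cnt x n = x.card := by
  unfold cnt
  congr 1
  rw [Finset.filter_eq_self]
  intro i _
  exact i.isLt

theorem glue_inj {n r : ℕ} {A B A' B' : Finset ℕ} (hrn : r ≤ n)
    (hA : A ⊆ Finset.range r) (hB : B ⊆ Finset.range (n - r))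
    (h : glue n r A B = glue n r A' B') : A ⊆ A' ∧ B ⊆ B' := by
  constructor
  · intro b hb
    have hbr := Finset.mem_range.mp (hA hb)
    have h1 : (⟨r - 1 - b, by omega⟩ : Fin n) ∈ glue n r A B := by
      rw [mem_glue]
      left
      constructor
      · show r - 1 - b < r
        omega
      · show r - 1 - (r - 1 - b) ∈ A
        have : r - 1 - (r - 1 - b) = b := by omega
        rw [this]
        exact hb
    rw [h, mem_glue] at h1
    rcases h1 with ⟨h2, h3⟩ | ⟨h2, h3⟩
    · have h3' : r - 1 - (r - 1 - b) ∈ A' := h3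
      have : r - 1 - (r - 1 - b) = b := by omega
      rwa [this] at h3'
    · have h2' : r ≤ r - 1 - b := h2
      omega
  · intro b hb
    have hbr := Finset.mem_range.mp (hB hb)
    have h1 : (⟨r + b, by omega⟩ : Fin n) ∈ glue n r A B := by
      rw [mem_glue]
      right
      constructor
      · show r ≤ r + b
        omega
      · show r + b - r ∈ B
        have : r + b - r = b := by omega
        rw [this]
        exact hb
    rw [h, mem_glue] at h1
    rcases h1 with ⟨h2, h3⟩ | ⟨h2, h3⟩
    · have h2' : r + b < r := h2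
      omega
    · have h3' : r + b - r ∈ B' := h3
      have : r + b - r = b := by omega
      rwa [this] at h3'

open Classical in
/-- The words of weight `w` with good cut point `r`. -/
noncomputable def goodSet (n w k r : ℕ) : Finset (Finset (Fin n)) :=
  (Finset.powersetCard w (Finset.univ : Finset (Fin n))).filter (fun x => Good k r x)

theorem mem_goodSet {n w k r : ℕ} {x : Finset (Fin n)} : x ∈ goodSet n w k r ↔
    x.card = w ∧ Good k r x := by
  classical
  unfold goodSet
  rw [Finset.mem_filter, Finset.mem_powersetCard]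
  constructor
  · rintro ⟨⟨-, h1⟩, h2⟩
    exact ⟨h1, h2⟩
  · rintro ⟨h1, h2⟩
    exact ⟨⟨Finset.subset_univ _, h1⟩, h2⟩

theorem good_count {n k w a : ℕ} (hr : k + 2 * a ≤ n) (haw : a ≤ w) :
    (G (k + 2 * a) a).card * (G (n - (k + 2 * a)) (w - a)).card ≤
      (goodSet n w k (k + 2 * a)).card := by
  set r := k + 2 * a with hrdef
  rw [← Finset.card_product]
  apply Finset.card_le_card_of_injOn (fun p => glue n r p.1 p.2)
  · rintro ⟨A, B⟩ hp
    rw [Finset.mem_coe, Finset.mem_product, mem_G, mem_G] at hp
    obtain ⟨⟨⟨hA, hAc⟩, hA4⟩, ⟨⟨hB, hBc⟩, hB4⟩⟩ := hp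
    simp only at hA hAc hA4 hB hBc hB4
    rw [Finset.mem_coe, mem_goodSet]
    have e0 : cnt (glue n r A B) r = a := by
      have h0 := cnt_left (B := B) hr (le_refl r) hA
      have h00 : (A ∩ Finset.range (r - r)).card = 0 := by simp
      omega
    refine ⟨?_, ?_, ?_, ?_⟩
    · show (glue n r A B).card = w
      rw [← cnt_all, cnt_right hr (le_refl n) hA]
      have : B ∩ Finset.range (n - r) = B := Finset.inter_eq_left.mpr hB
      rw [this, hAc, hBc]
      omega
    · show 2 * cnt (glue n r A B) r + k = r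
      omega
    · intro q hq
      show 4 * cnt (glue n r A B) r ≤ 4 * cnt (glue n r A B) q + (r - q)
      have h1 := cnt_left (B := B) hr hq hA
      have h2 := hA4 (r - q) (by omega)
      omega
    · intro q hq hqn
      show 4 * cnt (glue n r A B) q ≤ 4 * cnt (glue n r A B) r + (q - r)
      have h1 := cnt_right (B := B) hq hqn hA
      have h2 := hB4 (q - r) (by omega)
      omega
  · rintro ⟨A, B⟩ hp ⟨A', B'⟩ hp' h
    rw [Finset.mem_coe, Finset.mem_product, mem_G, mem_G] at hp hp'
    simp only at hp hp' h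
    have h1 := glue_inj hr hp.1.1.1 hp.2.1.1 h
    have h2 := glue_inj hr hp'.1.1.1 hp'.2.1.1 h.symm
    exact Prod.ext (Finset.Subset.antisymm h1.1 h2.1) (Finset.Subset.antisymm h1.2 h2.2)

end Pool.Agent.Hhelper49.CWD
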