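import Pool.Agent.Hhelper49.CWC.Cheb
import Pool.Agent.Hhelper49.CWC.Steps

set_option autoImplicit false

/-! Exact monotonicity for weights which are not too close, for all distances. -/

namespace Pool.Agent.Hhelper49.CWD

open Pool.Agent.Hhelper49.CWC

theorem pow_le_choose' (c : ℕ) : ∀ m N : ℕ, c * m ≤ N → c ^ m ≤ N.choose m := by
  intro m
  induction m with
  | zero =>
    intro N _
    simp
  | succ m ih =>
    intro N hN
    rcases Nat.eq_zero_or_pos c with hc | hc
    · subst hc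
      rw [zero_pow (Nat.succ_ne_zero m)]
      exact Nat.zero_le _
    obtain ⟨M, rfl⟩ : ∃ M, N = M + 1 := ⟨N - 1, by
      have : 0 < c * (m + 1) := Nat.mul_pos hc (Nat.succ_pos m)
      omega⟩
    have h1 : c * m ≤ M := by
      have : c * (m + 1) = c * m + c := by ring
      omega
    have h2 := ih M h1
    have h3 := Nat.add_one_mul_choose_eq M m
    have h4 : (m + 1) * c ^ (m + 1) ≤ (m + 1) * (M + 1).choose (m + 1) := by
      calc (m + 1) * c ^ (m + 1) = (c * (m + 1)) * c ^ m := by ring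
        _ ≤ (M + 1) * M.choose m := Nat.mul_le_mul hN h2
        _ = (M + 1).choose (m + 1) * (m + 1) := h3
        _ = _ := by ring
    exact Nat.le_of_mul_le_mul_left h4 (Nat.succ_pos m)

/-- `C(w,k) N^k ≤ C(N,k) w^k` for `w ≤ N`. -/
theorem choose_mul_pow : ∀ k w N : ℕ, w ≤ N → w.choose k * N ^ k ≤ N.choose k * w ^ k := by
  intro k
  induction k with
  | zero =>
    intro w N _
    simp
  | succ k ih =>
    intro w N h
    rcases Nat.eq_zero_or_pos w with h0 | h0
    · subst h0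
      simp
    obtain ⟨v, rfl⟩ : ∃ v, w = v + 1 := ⟨w - 1, by omega⟩
    obtain ⟨M, rfl⟩ : ∃ M, N = M + 1 := ⟨N - 1, by omega⟩
    have e1 := Nat.add_one_mul_choose_eq v k
    have e2 := Nat.add_one_mul_choose_eq M k
    have h1 := ih v M (by omega)
    -- C(v,k) (M+1)^k ≤ C(M,k) (v+1)^k
    have h2 : v.choose k * (M + 1) ^ k ≤ M.choose k * (v + 1) ^ k := by
      rcases Nat.eq_zero_or_pos v with hv | hv
      · subst hv
        rcases Nat.eq_zero_or_pos k with hk | hk
        · subst hk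
          simp
        · rw [Nat.choose_eq_zero_of_lt hk]
          simp
      · have h3 : v ^ k * (M + 1) ^ k ≤ M ^ k * (v + 1) ^ k := by
          rw [← mul_pow, ← mul_pow]
          apply Nat.pow_le_pow_left
          nlinarith
        have hMpos : 0 < M ^ k := Nat.pow_pos (by omega)
        have h4 : (v.choose k * (M + 1) ^ k) * (M ^ k * v ^ k) ≤
            (M.choose k * (v + 1) ^ k) * (M ^ k * v ^ k) := by
          calc (v.choose k * (M + 1) ^ k) * (M ^ k * v ^ k)
              = (v.choose k * M ^ k) * (v ^ k * (M + 1) ^ k) := by ring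
            _ ≤ (M.choose k * v ^ k) * (M ^ k * (v + 1) ^ k) := Nat.mul_le_mul h1 h3
            _ = _ := by ring
        exact Nat.le_of_mul_le_mul_right h4 (Nat.mul_pos hMpos (Nat.pow_pos hv))
    have h5 : (k + 1) * ((v + 1).choose (k + 1) * (M + 1) ^ (k + 1)) ≤
        (k + 1) * ((M + 1).choose (k + 1) * (v + 1) ^ (k + 1)) := by
      calc (k + 1) * ((v + 1).choose (k + 1) * (M + 1) ^ (k + 1))
          = ((v + 1).choose (k + 1) * (k + 1)) * (M + 1) ^ (k + 1) := by ring
        _ = ((v + 1) * v.choose k) * (M + 1) ^ (k + 1) := by rw [← e1]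
        _ = ((v + 1) * (M + 1)) * (v.choose k * (M + 1) ^ k) := by ring
        _ ≤ ((v + 1) * (M + 1)) * (M.choose k * (v + 1) ^ k) := Nat.mul_le_mul_left _ h2
        _ = ((M + 1) * M.choose k) * (v + 1) ^ (k + 1) := by ring
        _ = ((M + 1).choose (k + 1) * (k + 1)) * (v + 1) ^ (k + 1) := by rw [e2]
        _ = _ := by ring
    exact Nat.le_of_mul_le_mul_left h5 (Nat.succ_pos k)

/-- Upper bound for the central binomial coefficient. -/
theorem central_sq : ∀ m : ℕ, ((2 * m).choose m) ^ 2 * (3 * m + 1) ≤ 16 ^ m := by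
  intro m
  induction m with
  | zero => simp
  | succ m ih =>
    have h1 : (m + 1) * (2 * (m + 1)).choose (m + 1) = 2 * (2 * m + 1) * (2 * m).choose m := by
      have := Nat.succ_mul_centralBinom_succ m
      unfold Nat.centralBinom at this
      exact this
    set X := (2 * (m + 1)).choose (m + 1) with hX
    set Y := (2 * m).choose m with hY
    have h2 : ((m + 1) * X) ^ 2 = (2 * (2 * m + 1) * Y) ^ 2 := by rw [h1]
    have h3 : ((m + 1) ^ 2 * (3 * m + 1)) * (X ^ 2 * (3 * (m + 1) + 1)) ≤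
        ((m + 1) ^ 2 * (3 * m + 1)) * 16 ^ (m + 1) := by
      calc ((m + 1) ^ 2 * (3 * m + 1)) * (X ^ 2 * (3 * (m + 1) + 1))
          = ((m + 1) * X) ^ 2 * ((3 * m + 1) * (3 * (m + 1) + 1)) := by ring
        _ = (2 * (2 * m + 1) * Y) ^ 2 * ((3 * m + 1) * (3 * (m + 1) + 1)) := by rw [h2]
        _ = (Y ^ 2 * (3 * m + 1)) * (4 * (2 * m + 1) ^ 2 * (3 * (m + 1) + 1)) := by ring
        _ ≤ 16 ^ m * (4 * (2 * m + 1) ^ 2 * (3 * (m + 1) + 1)) := Nat.mul_le_mul_right _ ih
        _ ≤ 16 ^ m * (16 * ((m + 1) ^ 2 * (3 * m + 1))) := by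
            apply Nat.mul_le_mul_left
            nlinarith
        _ = _ := by ring
    exact Nat.le_of_mul_le_mul_left h3 (by positivity)

/-- The trinomial identity. -/
theorem trinom (w₁ k r : ℕ) (hr : r ≤ w₁) :
    (w₁ + k).choose r * (w₁ + k - r).choose (w₁ - r) = (w₁ + k).choose w₁ * w₁.choose r := by
  have := Nat.choose_mul (n := w₁ + k) (k := w₁) (s := r) hr
  exact this.symm

/-- Comparison of the packing bound at weight `w₁` with the Gilbert bound at weight `w₁ + k`. -/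
theorem gap (n w₁ k r c c' : ℕ) (F : ℝ) (hF : 0 ≤ F) (hr : r < w₁) (hn : w₁ + k ≤ n)
    (hcond : ((w₁ + k).choose r : ℝ) * ((w₁ + k).choose w₁ : ℝ) * F ≤ ((n - w₁).choose k : ℝ))
    (h1 : c * w₁.choose (w₁ - r) ≤ n.choose (w₁ - r))
    (h2 : n.choose (w₁ + k - r) ≤ c' * ((w₁ + k).choose (w₁ + k - r)) ^ 2) :
    (c : ℝ) * F ≤ (c' : ℝ) := by
  have e1 : n.choose (w₁ + k - r) * (w₁ + k - r).choose (w₁ - r) =
      n.choose (w₁ - r) * (n - (w₁ - r)).choose k := by
    have := Nat.choose_mul (n := n) (k := w₁ + k - r) (s := w₁ - r) (by omega)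
    have e : w₁ + k - r - (w₁ - r) = k := by omega
    rwa [e] at this
  have e2 := trinom w₁ k r hr.le
  have e3 : (w₁ + k).choose (w₁ + k - r) = (w₁ + k).choose r := Nat.choose_symm (by omega)
  have e4 : w₁.choose (w₁ - r) = w₁.choose r := Nat.choose_symm hr.le
  rw [e3] at h2
  rw [e4] at h1
  have h3 : (n - w₁).choose k ≤ (n - (w₁ - r)).choose k := Nat.choose_le_choose k (by omega)
  have p1 : (0 : ℝ) < (w₁.choose r : ℝ) := by exact_mod_cast Nat.choose_pos hr.le
  have p2 : (0 : ℝ) < (n.choose (w₁ - r) : ℝ) := by exact_mod_cast Nat.choose_pos (by omega)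
  have p3 : (0 : ℝ) < ((w₁ + k).choose r : ℝ) := by exact_mod_cast Nat.choose_pos (by omega)
  have p4 : (0 : ℝ) < ((w₁ + k - r).choose (w₁ - r) : ℝ) := by
    exact_mod_cast Nat.choose_pos (by omega)
  have q1 : (c : ℝ) * (w₁.choose r : ℝ) ≤ (n.choose (w₁ - r) : ℝ) := by exact_mod_cast h1
  have q2 : (n.choose (w₁ + k - r) : ℝ) ≤ (c' : ℝ) * ((w₁ + k).choose r : ℝ) ^ 2 := by
    exact_mod_cast h2
  have q3 : (n.choose (w₁ + k - r) : ℝ) * ((w₁ + k - r).choose (w₁ - r) : ℝ) =
      (n.choose (w₁ - r) : ℝ) * ((n - (w₁ - r)).choose k : ℝ) := by exact_mod_cast e1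
  have q4 : ((w₁ + k).choose r : ℝ) * ((w₁ + k - r).choose (w₁ - r) : ℝ) =
      ((w₁ + k).choose w₁ : ℝ) * (w₁.choose r : ℝ) := by exact_mod_cast e2
  have q5 : ((n - w₁).choose k : ℝ) ≤ ((n - (w₁ - r)).choose k : ℝ) := by exact_mod_cast h3
  have hc0 : (0 : ℝ) ≤ c := Nat.cast_nonneg c
  -- multiply everything
  set a : ℝ := (w₁.choose r : ℝ)
  set b : ℝ := (n.choose (w₁ - r) : ℝ)
  set s : ℝ := ((w₁ + k).choose r : ℝ)
  set t : ℝ := ((w₁ + k - r).choose (w₁ - r) : ℝ)
  set u : ℝ := ((w₁ + k).choose w₁ : ℝ)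
  set N1 : ℝ := ((n - w₁).choose k : ℝ)
  set N2 : ℝ := ((n - (w₁ - r)).choose k : ℝ)
  set g : ℝ := (n.choose (w₁ + k - r) : ℝ)
  have h5 : ((c : ℝ) * F) * (s * s * t) ≤ (c' : ℝ) * (s * s * t) := by
    calc ((c : ℝ) * F) * (s * s * t) = (s * F) * ((c : ℝ) * (s * t)) := by ring
      _ = (s * F) * (u * ((c : ℝ) * a)) := by rw [q4]; ring
      _ ≤ (s * F) * (u * b) := by
          apply mul_le_mul_of_nonneg_left _ (mul_nonneg p3.le hF)
          exact mul_le_mul_of_nonneg_left q1 (Nat.cast_nonneg _)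
      _ = (s * u * F) * b := by ring
      _ ≤ N1 * b := mul_le_mul_of_nonneg_right hcond p2.le
      _ ≤ N2 * b := mul_le_mul_of_nonneg_right q5 p2.le
      _ = g * t := by rw [q3]; ring
      _ ≤ ((c' : ℝ) * s ^ 2) * t := mul_le_mul_of_nonneg_right q2 p4.le
      _ = (c' : ℝ) * (s * s * t) := by ring
  exact le_of_mul_le_mul_right h5 (mul_pos (mul_pos p3 p3) p4)

end Pool.Agent.Hhelper49.CWD
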