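import Pool.Agent.Hhelper49.CWD.Far

set_option autoImplicit false

namespace Pool.Agent.Hhelper49.CWD

open Pool.Agent.Hhelper49.CWC

theorem choose_mono_half (N a b : ℕ) (hab : a ≤ b) (hb : 2 * b ≤ N) :
    N.choose a ≤ N.choose b := by
  induction b, hab using Nat.le_induction with
  | base => exact le_refl _
  | succ m hm ih =>
    exact (ih (by omega)).trans (Nat.choose_le_succ_of_lt_half_left (by omega))

/-- A code with at least two words of weight `w₁` yields a code of weight `w₁ + k` which is larger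
by the factor `F`. -/
theorem gain (n d w₁ k : ℕ) (F : ℝ) (hF : 0 ≤ F) (hn : w₁ + k ≤ n) (hd : 1 ≤ d)
    (hcond : ∀ r, r < w₁ →
      ((w₁ + k).choose r : ℝ) * ((w₁ + k).choose w₁ : ℝ) * F ≤ ((n - w₁).choose k : ℝ))
    (C : Finset (Finset (Fin n))) (hC : ∀ s ∈ C, s.card = w₁)
    (hD : ∀ s ∈ C, ∀ t ∈ C, s ≠ t → d ≤ (symmDiff s t).card) (h2 : 2 ≤ C.card) :
    ∃ C' : Finset (Finset (Fin n)), (C.card : ℝ) * F ≤ (C'.card : ℝ) ∧
      (∀ s ∈ C', s.card = w₁ + k) ∧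
      (∀ s ∈ C', ∀ t ∈ C', s ≠ t → d ≤ (symmDiff s t).card) := by
  obtain ⟨δ, hd1, hd2⟩ : ∃ δ, d ≤ 2 * δ ∧ 2 * δ ≤ d + 1 := ⟨(d + 1) / 2, by omega, by omega⟩
  have hI : ∀ s ∈ C, ∀ t ∈ C, s ≠ t → (s ∩ t).card + δ ≤ w₁ := by
    intro s hs t ht hne
    have ha := card_symmDiff_add s t
    have hb := hD s hs t ht hne
    rw [hC s hs, hC t ht] at ha
    omega
  obtain ⟨s0, hs0, t0, ht0, hne0⟩ := Finset.one_lt_card.mp (by omega : 1 < C.card)
  have h0 := hI s0 hs0 t0 ht0 hne0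
  have hδ : 1 ≤ δ := by omega
  obtain ⟨r, rfl⟩ : ∃ r, δ = r + 1 := ⟨δ - 1, by omega⟩
  have hrw : r < w₁ := by omega
  have hp := packing C w₁ (w₁ - r) hC (fun s hs t ht hne => by
    have := hI s hs t ht hne
    omega)
  rw [Fintype.card_fin] at hp
  obtain ⟨C', g1, g2, g3⟩ := gilbert n (w₁ + k) (w₁ + k - r) (by omega) hn
  refine ⟨C', gap n w₁ k r C.card C'.card F hF hrw hn (hcond r hrw) hp g1, g2, ?_⟩
  intro s hs t ht hne
  have ha := card_symmDiff_add s t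
  have hb := g3 s hs t ht hne
  rw [g2 s hs, g2 t ht] at ha
  omega

/-- Codes with at most one word. -/
theorem tiny (n d w₂ : ℕ) (hn : w₂ ≤ n) (C : Finset (Finset (Fin n))) (h : C.card ≤ 1) :
    ∃ C' : Finset (Finset (Fin n)), C'.card = C.card ∧ (∀ s ∈ C', s.card = w₂) ∧
      (∀ s ∈ C', ∀ t ∈ C', s ≠ t → d ≤ (symmDiff s t).card) := by
  have huniv : w₂ ≤ (Finset.univ : Finset (Fin n)).card := by
    rw [Finset.card_univ, Fintype.card_fin]
    exact hn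
  obtain ⟨u, -, hu⟩ := Finset.exists_subset_card_eq huniv
  rcases Nat.le_one_iff_eq_zero_or_eq_one.mp h with h | h
  · exact ⟨∅, by rw [h]; rfl, by simp, by simp⟩
  · refine ⟨{u}, by rw [h]; rfl, ?_, ?_⟩
    · intro s hs
      rw [Finset.mem_singleton] at hs
      rw [hs, hu]
    · intro s hs t ht hne
      rw [Finset.mem_singleton] at hs ht
      exact absurd (hs.trans ht.symm) hne

theorem shrink {n d w₂ : ℕ} (C C' : Finset (Finset (Fin n))) (h : C.card ≤ C'.card)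
    (h1 : ∀ s ∈ C', s.card = w₂)
    (h2 : ∀ s ∈ C', ∀ t ∈ C', s ≠ t → d ≤ (symmDiff s t).card) :
    ∃ C' : Finset (Finset (Fin n)), C'.card = C.card ∧ (∀ s ∈ C', s.card = w₂) ∧
      (∀ s ∈ C', ∀ t ∈ C', s ≠ t → d ≤ (symmDiff s t).card) := by
  obtain ⟨C'', h4, h5⟩ := Finset.exists_subset_card_eq h
  exact ⟨C'', h5, fun s hs => h1 s (h4 hs), fun s hs t ht hne => h2 s (h4 hs) t (h4 ht) hne⟩

/-- Weights between `w₁` and `2 w₁`. -/
theorem mono_near (n d w₁ k : ℕ) (hd : 1 ≤ d) (hk : k ≤ w₁) (hn : w₁ + k ≤ n)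
    (hcond : 2 ^ w₁ * (5 * w₁) ^ k ≤ n ^ k) : Mono n d w₁ (w₁ + k) := by
  intro C hC hD
  rcases Nat.lt_or_ge C.card 2 with h2 | h2
  · exact tiny n d (w₁ + k) hn C (by omega)
  rcases Nat.eq_zero_or_pos k with hk0 | hk0
  · subst hk0
    exact ⟨C, rfl, hC, hD⟩
  have h5 : 5 * w₁ ≤ n := by
    by_contra hcon
    push Not at hcon
    have h6 : n ^ k < (5 * w₁) ^ k := Nat.pow_lt_pow_left hcon (by omega)
    have h7 : (5 * w₁) ^ k ≤ 2 ^ w₁ * (5 * w₁) ^ k := Nat.le_mul_of_pos_left _ (by positivity)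
    omega
  have h8 : 2 ^ w₁ * (4 * w₁) ^ k ≤ (n - w₁) ^ k := by
    have h9 : 4 * n ≤ 5 * (n - w₁) := by omega
    have h10 : (4 * n) ^ k ≤ (5 * (n - w₁)) ^ k := Nat.pow_le_pow_left h9 k
    have h11 : 5 ^ k * (2 ^ w₁ * (4 * w₁) ^ k) ≤ 5 ^ k * (n - w₁) ^ k := by
      calc 5 ^ k * (2 ^ w₁ * (4 * w₁) ^ k) = 4 ^ k * (2 ^ w₁ * (5 * w₁) ^ k) := by
            rw [mul_pow, mul_pow]; ring
        _ ≤ 4 ^ k * n ^ k := Nat.mul_le_mul_left _ hcond
        _ = (4 * n) ^ k := by rw [mul_pow]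
        _ ≤ (5 * (n - w₁)) ^ k := h10
        _ = _ := by rw [mul_pow]
    exact Nat.le_of_mul_le_mul_left h11 (by positivity)
  have hkey : 2 ^ (w₁ + k) * (w₁ + k).choose k ≤ (n - w₁).choose k := by
    have hwk : w₁ + k ≤ n - w₁ := by omega
    have c1 := choose_mul_pow k (w₁ + k) (n - w₁) hwk
    have c2 : 2 ^ (w₁ + k) * (w₁ + k) ^ k ≤ (n - w₁) ^ k := by
      calc 2 ^ (w₁ + k) * (w₁ + k) ^ k ≤ 2 ^ (w₁ + k) * (2 * w₁) ^ k :=
            Nat.mul_le_mul_left _ (Nat.pow_le_pow_left (by omega) k)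
        _ = 2 ^ w₁ * (4 * w₁) ^ k := by
            rw [pow_add, mul_pow, mul_pow]
            have : (4 : ℕ) ^ k = 2 ^ k * 2 ^ k := by
              rw [← mul_pow]
              norm_num
            rw [this]
            ring
        _ ≤ _ := h8
    have hpos : 0 < (w₁ + k) ^ k := Nat.pow_pos (by omega)
    have c3 : (2 ^ (w₁ + k) * (w₁ + k).choose k) * (w₁ + k) ^ k ≤
        (n - w₁).choose k * (w₁ + k) ^ k := by
      calc (2 ^ (w₁ + k) * (w₁ + k).choose k) * (w₁ + k) ^ k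
          = (w₁ + k).choose k * (2 ^ (w₁ + k) * (w₁ + k) ^ k) := by ring
        _ ≤ (w₁ + k).choose k * (n - w₁) ^ k := Nat.mul_le_mul_left _ c2
        _ ≤ _ := c1
    exact Nat.le_of_mul_le_mul_right c3 hpos
  obtain ⟨C', g1, g2, g3⟩ := gain n d w₁ k 1 (by norm_num) hn hd (by
    intro r _
    have c4 : (w₁ + k).choose r ≤ 2 ^ (w₁ + k) := Nat.choose_le_two_pow _ _
    have c5 : (w₁ + k).choose w₁ = (w₁ + k).choose k := by
      rw [← Nat.choose_symm_add]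
    have c6 : (w₁ + k).choose r * (w₁ + k).choose w₁ ≤ (n - w₁).choose k := by
      rw [c5]
      exact (Nat.mul_le_mul_right _ c4).trans hkey
    rw [mul_one]
    exact_mod_cast c6) C hC hD h2
  rw [mul_one] at g1
  exact shrink C C' (by exact_mod_cast g1) g2 g3

/-- Weights from `2 w₁` on. -/
theorem mono_double (n d w₁ w₂ : ℕ) (hd : 1 ≤ d) (h12 : 2 * w₁ ≤ w₂) (hn : 2 * w₂ ≤ n)
    (h17 : 17 * w₁ ≤ n) : Mono n d w₁ w₂ := by
  intro C hC hD
  rcases Nat.lt_or_ge C.card 2 with h2 | h2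
  · exact tiny n d w₂ (by omega) C (by omega)
  rcases Nat.eq_zero_or_pos w₁ with hw0 | hw0
  · exfalso
    obtain ⟨s0, hs0, t0, ht0, hne0⟩ := Finset.one_lt_card.mp (by omega : 1 < C.card)
    apply hne0
    have e1 := hC s0 hs0
    have e2 := hC t0 ht0
    rw [hw0, Finset.card_eq_zero] at e1 e2
    rw [e1, e2]
  have hF : (0 : ℝ) ≤ 4 * √((2 * w₁ : ℕ) : ℝ) := by positivity
  obtain ⟨C1, g1, g2, g3⟩ := gain n d w₁ w₁ (4 * √((2 * w₁ : ℕ) : ℝ)) hF (by omega) hd (by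
    intro r hr
    have e0 : w₁ + w₁ = 2 * w₁ := by ring
    rw [e0]
    set m := w₁ with hm
    -- C(2m,r) ≤ C(2m,m-1) = C(2m,m) m/(m+1)
    have c1 : (2 * m).choose r ≤ (2 * m).choose (m - 1) :=
      choose_mono_half (2 * m) r (m - 1) (by omega) (by omega)
    have c2 : (2 * m).choose m * m = (2 * m).choose (m - 1) * (m + 1) := by
      have := Nat.choose_succ_right_eq (2 * m) (m - 1)
      have e1 : m - 1 + 1 = m := by omega
      have e2 : 2 * m - (m - 1) = m + 1 := by omega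
      rw [e1, e2] at this
      exact this
    have c3 := central_sq m
    have c4 := pow_le_choose' 16 m (n - m) (by omega)
    set X : ℝ := ((2 * m).choose m : ℝ) with hX
    have d1 : ((2 * m).choose r : ℝ) ≤ ((2 * m).choose (m - 1) : ℝ) := by exact_mod_cast c1
    have d2 : X * (m : ℝ) = ((2 * m).choose (m - 1) : ℝ) * ((m : ℝ) + 1) := by
      rw [hX]
      exact_mod_cast c2
    have d3 : X ^ 2 * (3 * (m : ℝ) + 1) ≤ 16 ^ m := by
      rw [hX]
      exact_mod_cast c3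
    have d4 : (16 : ℝ) ^ m ≤ ((n - m).choose m : ℝ) := by exact_mod_cast c4
    have hm1 : (1 : ℝ) ≤ m := by exact_mod_cast hw0
    have hX0 : 0 ≤ X := Nat.cast_nonneg _
    -- sqrt bound
    have hs : 4 * √((2 * m : ℕ) : ℝ) * m ≤ ((m : ℝ) + 1) * (3 * m + 1) := by
      have h3 : √((2 * m : ℕ) : ℝ) ≤ ((m : ℝ) + 1) * (3 * m + 1) / (4 * m) := by
        rw [Real.sqrt_le_left (by positivity)]
        rw [div_pow, le_div_iff₀ (by positivity)]
        push_cast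
        have h4 : ((m : ℝ) + 1) * (3 * m + 1) = 3 * m ^ 2 + 4 * m + 1 := by ring
        rw [h4]
        nlinarith [mul_nonneg (by linarith : (0 : ℝ) ≤ m) (sq_nonneg ((m : ℝ) - 1)),
          sq_nonneg (3 * (m : ℝ) ^ 2 - 4 * m), pow_pos (by linarith : (0 : ℝ) < m) 3,
          pow_pos (by linarith : (0 : ℝ) < m) 2]
      rw [le_div_iff₀ (by positivity)] at h3
      linarith
    have key : ((2 * m).choose (m - 1) : ℝ) * X * (4 * √((2 * m : ℕ) : ℝ)) ≤ 16 ^ m := by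
      have hp : (0 : ℝ) < ((m : ℝ) + 1) := by linarith
      have h5 : (((2 * m).choose (m - 1) : ℝ) * X * (4 * √((2 * m : ℕ) : ℝ))) * ((m : ℝ) + 1) ≤
          16 ^ m * ((m : ℝ) + 1) := by
        calc (((2 * m).choose (m - 1) : ℝ) * X * (4 * √((2 * m : ℕ) : ℝ))) * ((m : ℝ) + 1)
            = (((2 * m).choose (m - 1) : ℝ) * ((m : ℝ) + 1)) * X *
              (4 * √((2 * m : ℕ) : ℝ)) := by ring
          _ = X ^ 2 * (4 * √((2 * m : ℕ) : ℝ) * m) := by rw [← d2]; ring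
          _ ≤ X ^ 2 * (((m : ℝ) + 1) * (3 * m + 1)) :=
              mul_le_mul_of_nonneg_left hs (sq_nonneg X)
          _ = (X ^ 2 * (3 * (m : ℝ) + 1)) * ((m : ℝ) + 1) := by ring
          _ ≤ _ := mul_le_mul_of_nonneg_right d3 hp.le
      exact le_of_mul_le_mul_right h5 hp
    calc ((2 * m).choose r : ℝ) * X * (4 * √((2 * m : ℕ) : ℝ))
        ≤ ((2 * m).choose (m - 1) : ℝ) * X * (4 * √((2 * m : ℕ) : ℝ)) := by
          apply mul_le_mul_of_nonneg_right _ hF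
          exact mul_le_mul_of_nonneg_right d1 hX0
      _ ≤ 16 ^ m := key
      _ ≤ _ := d4) C hC hD h2
  have e0 : w₁ + w₁ = 2 * w₁ := by ring
  rw [e0] at g2
  obtain ⟨C', k1, k2, k3⟩ := almost_mono n d (2 * w₁) w₂ (by omega) h12 hn C1 g2 g3
  refine shrink C C' ?_ k2 k3
  have hpos : (0 : ℝ) < 4 * √((2 * w₁ : ℕ) : ℝ) := by
    have : (0 : ℝ) < ((2 * w₁ : ℕ) : ℝ) := by exact_mod_cast (by omega : 0 < 2 * w₁)
    positivity
  have h3 : (4 * √((2 * w₁ : ℕ) : ℝ)) * (C.card : ℝ) ≤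
      (4 * √((2 * w₁ : ℕ) : ℝ)) * (C'.card : ℝ) := by
    calc (4 * √((2 * w₁ : ℕ) : ℝ)) * (C.card : ℝ) = (C.card : ℝ) * (4 * √((2 * w₁ : ℕ) : ℝ)) := by
          ring
      _ ≤ (C1.card : ℝ) := g1
      _ ≤ _ := k1
  exact_mod_cast le_of_mul_le_mul_left h3 hpos

end Pool.Agent.Hhelper49.CWD
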