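import Pool.Agent.Hhelper49.CWD.Far2

set_option autoImplicit false

/-! Weights from `2 w₁` on for `n ≥ 8 w₁ + 7`. -/

namespace Pool.Agent.Hhelper49.CWD

open Pool.Agent.Hhelper49.CWC

theorem up_choose (N m : ℕ) (_h : m ≤ N) :
    (N + 1).choose (m + 1) * (N - m) = N.choose (m + 1) * (N + 1) := by
  have h1 := Nat.choose_succ_right_eq (N + 1) m
  have h2 := Nat.choose_succ_right_eq N m
  have h3 := Nat.add_one_mul_choose_eq N m
  -- C(N+1,m+1) (N-m) (m+1) = C(N+1,m) ... use the product formula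
  have h4 : (N + 1) * N.choose m = (N + 1).choose (m + 1) * (m + 1) := h3
  have h5 : ((N + 1).choose (m + 1) * (N - m)) * (m + 1) =
      (N.choose (m + 1) * (N + 1)) * (m + 1) := by
    calc ((N + 1).choose (m + 1) * (N - m)) * (m + 1)
        = ((N + 1).choose (m + 1) * (m + 1)) * (N - m) := by ring
      _ = ((N + 1) * N.choose m) * (N - m) := by rw [h4]
      _ = (N + 1) * (N.choose m * (N - m)) := by ring
      _ = (N + 1) * (N.choose (m + 1) * (m + 1)) := by rw [h2]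
      _ = _ := by ring
  exact Nat.eq_of_mul_eq_mul_right (by omega) h5

theorem growth (m : ℕ) (hm : 15 ≤ m) :
    16 * (7 * m).choose m ≤ (7 * (m + 1)).choose (m + 1) := by
  have e1 : (7 * m + 1) * (7 * m).choose m = (7 * m + 1).choose (m + 1) * (m + 1) :=
    Nat.add_one_mul_choose_eq (7 * m) m
  have e2 := up_choose (7 * m + 1) m (by omega)
  have e3 := up_choose (7 * m + 2) m (by omega)
  have e4 := up_choose (7 * m + 3) m (by omega)
  have e5 := up_choose (7 * m + 4) m (by omega)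
  have e6 := up_choose (7 * m + 5) m (by omega)
  have e7 := up_choose (7 * m + 6) m (by omega)
  have s2 : 7 * m + 1 - m = 6 * m + 1 := by omega
  have s3 : 7 * m + 2 - m = 6 * m + 2 := by omega
  have s4 : 7 * m + 3 - m = 6 * m + 3 := by omega
  have s5 : 7 * m + 4 - m = 6 * m + 4 := by omega
  have s6 : 7 * m + 5 - m = 6 * m + 5 := by omega
  have s7 : 7 * m + 6 - m = 6 * m + 6 := by omega
  rw [s2] at e2
  rw [s3] at e3
  rw [s4] at e4
  rw [s5] at e5
  rw [s6] at e6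
  rw [s7] at e7
  have t2 : 7 * m + 1 + 1 = 7 * m + 2 := by omega
  have t3 : 7 * m + 2 + 1 = 7 * m + 3 := by omega
  have t4 : 7 * m + 3 + 1 = 7 * m + 4 := by omega
  have t5 : 7 * m + 4 + 1 = 7 * m + 5 := by omega
  have t6 : 7 * m + 5 + 1 = 7 * m + 6 := by omega
  have t7 : 7 * m + 6 + 1 = 7 * m + 7 := by omega
  rw [t2] at e2
  rw [t3] at e3
  rw [t4] at e4
  rw [t5] at e5
  rw [t6] at e6
  rw [t7] at e7
  have t8 : 7 * (m + 1) = 7 * m + 7 := by ring
  rw [t8]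
  set c0 := (7 * m).choose m
  set c1 := (7 * m + 1).choose (m + 1)
  set c2 := (7 * m + 2).choose (m + 1)
  set c3 := (7 * m + 3).choose (m + 1)
  set c4 := (7 * m + 4).choose (m + 1)
  set c5 := (7 * m + 5).choose (m + 1)
  set c6 := (7 * m + 6).choose (m + 1)
  set c7 := (7 * m + 7).choose (m + 1)
  set D := (m + 1) * ((6 * m + 1) * (6 * m + 2) * (6 * m + 3) * (6 * m + 4) * (6 * m + 5) *
    (6 * m + 6)) with hD
  set E := (7 * m + 1) * ((7 * m + 2) * (7 * m + 3) * (7 * m + 4) * (7 * m + 5) * (7 * m + 6) *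
    (7 * m + 7)) with hE
  have hprod : c7 * D = c0 * E := by
    calc c7 * D = (c7 * (6 * m + 6)) * ((m + 1) * ((6 * m + 1) * (6 * m + 2) * (6 * m + 3) *
          (6 * m + 4) * (6 * m + 5))) := by rw [hD]; ring
      _ = (c6 * (7 * m + 7)) * ((m + 1) * ((6 * m + 1) * (6 * m + 2) * (6 * m + 3) *
          (6 * m + 4) * (6 * m + 5))) := by rw [e7]
      _ = (c6 * (6 * m + 5)) * ((7 * m + 7) * ((m + 1) * ((6 * m + 1) * (6 * m + 2) *
          (6 * m + 3) * (6 * m + 4)))) := by ring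
      _ = (c5 * (7 * m + 6)) * ((7 * m + 7) * ((m + 1) * ((6 * m + 1) * (6 * m + 2) *
          (6 * m + 3) * (6 * m + 4)))) := by rw [e6]
      _ = (c5 * (6 * m + 4)) * ((7 * m + 6) * (7 * m + 7) * ((m + 1) * ((6 * m + 1) *
          (6 * m + 2) * (6 * m + 3)))) := by ring
      _ = (c4 * (7 * m + 5)) * ((7 * m + 6) * (7 * m + 7) * ((m + 1) * ((6 * m + 1) *
          (6 * m + 2) * (6 * m + 3)))) := by rw [e5]
      _ = (c4 * (6 * m + 3)) * ((7 * m + 5) * (7 * m + 6) * (7 * m + 7) * ((m + 1) *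
          ((6 * m + 1) * (6 * m + 2)))) := by ring
      _ = (c3 * (7 * m + 4)) * ((7 * m + 5) * (7 * m + 6) * (7 * m + 7) * ((m + 1) *
          ((6 * m + 1) * (6 * m + 2)))) := by rw [e4]
      _ = (c3 * (6 * m + 2)) * ((7 * m + 4) * (7 * m + 5) * (7 * m + 6) * (7 * m + 7) *
          ((m + 1) * (6 * m + 1))) := by ring
      _ = (c2 * (7 * m + 3)) * ((7 * m + 4) * (7 * m + 5) * (7 * m + 6) * (7 * m + 7) *
          ((m + 1) * (6 * m + 1))) := by rw [e3]
      _ = (c2 * (6 * m + 1)) * ((7 * m + 3) * (7 * m + 4) * (7 * m + 5) * (7 * m + 6) *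
          (7 * m + 7) * (m + 1)) := by ring
      _ = (c1 * (7 * m + 2)) * ((7 * m + 3) * (7 * m + 4) * (7 * m + 5) * (7 * m + 6) *
          (7 * m + 7) * (m + 1)) := by rw [e2]
      _ = (c1 * (m + 1)) * ((7 * m + 2) * (7 * m + 3) * (7 * m + 4) * (7 * m + 5) *
          (7 * m + 6) * (7 * m + 7)) := by ring
      _ = ((7 * m + 1) * c0) * ((7 * m + 2) * (7 * m + 3) * (7 * m + 4) * (7 * m + 5) *
          (7 * m + 6) * (7 * m + 7)) := by rw [e1]
      _ = _ := by rw [hE]; ring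
  have hDE : 16 * D ≤ E := by
    obtain ⟨t, ht⟩ : ∃ t, m = 15 + t := ⟨m - 15, by omega⟩
    rw [hD, hE, ht]
    have : (7 * (15 + t) + 1) * ((7 * (15 + t) + 2) * (7 * (15 + t) + 3) * (7 * (15 + t) + 4) *
        (7 * (15 + t) + 5) * (7 * (15 + t) + 6) * (7 * (15 + t) + 7)) =
        16 * ((15 + t + 1) * ((6 * (15 + t) + 1) * (6 * (15 + t) + 2) * (6 * (15 + t) + 3) *
        (6 * (15 + t) + 4) * (6 * (15 + t) + 5) * (6 * (15 + t) + 6))) +
        (11715024787200 + 5616308254512 * t + 1149224740060 * t ^ 2 + 130170384808 * t ^ 3 +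
          8817910225 * t ^ 4 + 357361993 * t ^ 5 + 8024875 * t ^ 6 + 77047 * t ^ 7) := by ring
    rw [this]
    exact Nat.le_add_right _ _
  have hDpos : 0 < D := by rw [hD]; positivity
  have hfin : (16 * c0) * D ≤ c7 * D := by
    rw [hprod]
    calc (16 * c0) * D = c0 * (16 * D) := by ring
      _ ≤ _ := Nat.mul_le_mul_left _ hDE
  exact Nat.le_of_mul_le_mul_right hfin hDpos

theorem big15 (m : ℕ) (hm : 15 ≤ m) : 256 ^ m ≤ 5 * ((7 * m).choose m) ^ 2 := by
  induction m, hm using Nat.le_induction with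
  | base =>
    norm_num [Nat.choose_eq_descFactorial_div_factorial]
  | succ m hm ih =>
    have h1 := growth m hm
    calc 256 ^ (m + 1) = 256 * 256 ^ m := by ring
      _ ≤ 256 * (5 * ((7 * m).choose m) ^ 2) := Nat.mul_le_mul_left _ ih
      _ = 5 * (16 * (7 * m).choose m) ^ 2 := by ring
      _ ≤ _ := Nat.mul_le_mul_left _ (Nat.pow_le_pow_left h1 2)

/-- The comparison needed below. -/
theorem comp8 (n m : ℕ) (hm : 1 ≤ m) (hn : 8 * m + 7 ≤ n) :
    ((2 * m).choose (m - 1) * (2 * m).choose m) ^ 2 * (32 * m) ≤ ((n - m).choose m) ^ 2 := by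
  rcases Nat.lt_or_ge m 15 with h | h
  · have h1 : ((2 * m).choose (m - 1) * (2 * m).choose m) ^ 2 * (32 * m) ≤
        ((7 * m + 7).choose m) ^ 2 := by
      interval_cases m <;> norm_num [Nat.choose_eq_descFactorial_div_factorial]
    refine h1.trans (Nat.pow_le_pow_left (Nat.choose_le_choose _ (by omega)) 2)
  · have h1 : ((7 * m).choose m) ^ 2 ≤ ((n - m).choose m) ^ 2 :=
      Nat.pow_le_pow_left (Nat.choose_le_choose _ (by omega)) 2
    refine le_trans ?_ h1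
    have c2 : (2 * m).choose m * m = (2 * m).choose (m - 1) * (m + 1) := by
      have := Nat.choose_succ_right_eq (2 * m) (m - 1)
      have e1 : m - 1 + 1 = m := by omega
      have e2 : 2 * m - (m - 1) = m + 1 := by omega
      rw [e1, e2] at this
      exact this
    have c3 := central_sq m
    have c4 := big15 m h
    have c5 : 160 * m ^ 3 ≤ ((m + 1) * (3 * m + 1)) ^ 2 := by
      obtain ⟨t, rfl⟩ : ∃ t, m = 15 + t := ⟨m - 15, by omega⟩
      have : ((15 + t + 1) * (3 * (15 + t) + 1)) ^ 2 = 160 * (15 + t) ^ 3 +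
          (1696 + 30368 * t + 6052 * t ^ 2 + 404 * t ^ 3 + 9 * t ^ 4) := by
        ring
      rw [this]
      exact Nat.le_add_right _ _
    set X := (2 * m).choose m with hX
    set Y := (2 * m).choose (m - 1) with hY
    have hpos : 0 < ((m + 1) * (3 * m + 1)) ^ 2 := by positivity
    have h6 : ((Y * X) ^ 2 * (32 * m)) * (5 * ((m + 1) * (3 * m + 1)) ^ 2) ≤
        (((7 * m).choose m) ^ 2) * (5 * ((m + 1) * (3 * m + 1)) ^ 2) := by
      calc ((Y * X) ^ 2 * (32 * m)) * (5 * ((m + 1) * (3 * m + 1)) ^ 2)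
          = (Y * (m + 1)) ^ 2 * X ^ 2 * (3 * m + 1) ^ 2 * (160 * m) := by ring
        _ = (X * m) ^ 2 * X ^ 2 * (3 * m + 1) ^ 2 * (160 * m) := by rw [← c2]
        _ = (X ^ 2 * (3 * m + 1)) ^ 2 * (160 * m ^ 3) := by ring
        _ ≤ (16 ^ m) ^ 2 * ((m + 1) * (3 * m + 1)) ^ 2 :=
            Nat.mul_le_mul (Nat.pow_le_pow_left c3 2) c5
        _ = 256 ^ m * ((m + 1) * (3 * m + 1)) ^ 2 := by
            rw [← pow_mul, mul_comm m 2, pow_mul]
            norm_num
        _ ≤ (5 * ((7 * m).choose m) ^ 2) * ((m + 1) * (3 * m + 1)) ^ 2 :=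
            Nat.mul_le_mul_right _ c4
        _ = _ := by ring
    exact Nat.le_of_mul_le_mul_right h6 (by positivity)

/-- Weights from `2 w₁` on. -/
theorem mono_double8 (n d w₁ w₂ : ℕ) (hd : 1 ≤ d) (h12 : 2 * w₁ ≤ w₂) (hn : 2 * w₂ ≤ n)
    (h8 : 8 * w₁ + 7 ≤ n) : Mono n d w₁ w₂ := by
  intro C hC hD
  rcases Nat.lt_or_ge C.card 2 with h2 | h2
  · exact tiny n d w₂ (by omega) C (by omega)
  rcases Nat.eq_zero_or_pos w₁ with hw0 | hw0
  · exfalso
    obtain ⟨s0, hs0, t0, ht0, hne0⟩ := Finset.one_lt_card.mp (by omega : 1 < C.card)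
    apply hne0
    have e1 := hC s0 hs0
    have e2 := hC t0 ht0
    rw [hw0, Finset.card_eq_zero] at e1 e2
    rw [e1, e2]
  have hF : (0 : ℝ) ≤ 4 * √((2 * w₁ : ℕ) : ℝ) := by positivity
  obtain ⟨C1, g1, g2, g3⟩ := gain n d w₁ w₁ (4 * √((2 * w₁ : ℕ) : ℝ)) hF (by omega) hd (by
    intro r hr
    have e0 : w₁ + w₁ = 2 * w₁ := by ring
    rw [e0]
    set m := w₁ with hm
    have c1 : (2 * m).choose r ≤ (2 * m).choose (m - 1) :=
      choose_mono_half (2 * m) r (m - 1) (by omega) (by omega)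
    have c2 := comp8 n m hw0 h8
    have d2 : (((2 * m).choose (m - 1) : ℝ) * ((2 * m).choose m : ℝ)) ^ 2 * (32 * (m : ℝ)) ≤
        ((n - m).choose m : ℝ) ^ 2 := by
      exact_mod_cast c2
    have hsq : (4 * √((2 * m : ℕ) : ℝ)) ^ 2 = 32 * (m : ℝ) := by
      rw [mul_pow, Real.sq_sqrt (Nat.cast_nonneg _)]
      push_cast
      ring
    have d3 : ((2 * m).choose (m - 1) : ℝ) * ((2 * m).choose m : ℝ) *
        (4 * √((2 * m : ℕ) : ℝ)) ≤ ((n - m).choose m : ℝ) := by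
      apply le_of_pow_le_pow_left₀ (two_ne_zero) (Nat.cast_nonneg _)
      rw [mul_pow, hsq]
      exact d2
    have d1 : ((2 * m).choose r : ℝ) ≤ ((2 * m).choose (m - 1) : ℝ) := by exact_mod_cast c1
    refine le_trans ?_ d3
    apply mul_le_mul_of_nonneg_right _ hF
    exact mul_le_mul_of_nonneg_right d1 (Nat.cast_nonneg _)) C hC hD h2
  have e0 : w₁ + w₁ = 2 * w₁ := by ring
  rw [e0] at g2
  obtain ⟨C', k1, k2, k3⟩ := almost_mono n d (2 * w₁) w₂ (by omega) h12 hn C1 g2 g3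
  refine shrink C C' ?_ k2 k3
  have hpos : (0 : ℝ) < 4 * √((2 * w₁ : ℕ) : ℝ) := by
    have : (0 : ℝ) < ((2 * w₁ : ℕ) : ℝ) := by exact_mod_cast (by omega : 0 < 2 * w₁)
    positivity
  have h3 : (4 * √((2 * w₁ : ℕ) : ℝ)) * (C.card : ℝ) ≤
      (4 * √((2 * w₁ : ℕ) : ℝ)) * (C'.card : ℝ) := by
    calc (4 * √((2 * w₁ : ℕ) : ℝ)) * (C.card : ℝ) = (C.card : ℝ) * (4 * √((2 * w₁ : ℕ) : ℝ)) := by
          ring
      _ ≤ (C1.card : ℝ) := g1
      _ ≤ _ := k1
  exact_mod_cast le_of_mul_le_mul_left h3 hpos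

end Pool.Agent.Hhelper49.CWD
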