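import Pool.Agent.Hhelper49.CWD.Sep2
import Pool.Agent.Hhelper49.CWD.Far3
import Pool.Agent.CWPR.Plotkin

set_option autoImplicit false

/-! All distances: weights `w₁` up to about `0.19 n` against larger weights. -/

namespace Pool.Agent.Hhelper49.CWD

open Pool.Agent.Hhelper49.CWC

/-- All distances, for long words. -/
theorem all_dist (ε : ℝ) (hε : 0 < ε) (hε1 : ε ≤ 1) : ∃ n₀ : ℕ, ∀ n : ℕ, n₀ ≤ n →
    ∀ d w₁ w₂ : ℕ, 1 ≤ d → w₁ < w₂ → 2 * w₂ ≤ n →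
    (1 + ε) * ((w₁ : ℝ) * (n - w₁) * (n - 2 * w₁)) ≤
      (n : ℝ) * ((w₂ : ℝ) - w₁) * (n - w₁ - w₂) → Mono n d w₁ w₂ := by
  obtain ⟨n₁, hn₁⟩ := CWPR.mono_plotkin (ε / 3) (by linarith)
  obtain ⟨n₂, hn₂⟩ := exists_nat_ge (800000 / ((ε / 3) ^ 4 * (ε / 16) ^ 4))
  refine ⟨max n₁ (max n₂ 14), ?_⟩
  intro n hn d w₁ w₂ hd h12 h2 hreg
  have m1 : n₁ ≤ n := (le_max_left _ _).trans hn
  have m2 : n₂ ≤ n := (le_max_left _ _).trans ((le_max_right _ _).trans hn)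
  have m3 : 14 ≤ n := (le_max_right _ _).trans ((le_max_right _ _).trans hn)
  have hnR : 2 * (w₂ : ℝ) ≤ n := by exact_mod_cast h2
  have hw0 : (0 : ℝ) ≤ w₁ := Nat.cast_nonneg _
  have hnpos : (0 : ℝ) < n := by
    have : 0 < n := by omega
    exact_mod_cast this
  set k : ℝ := (w₂ : ℝ) - w₁ with hk
  have hk1 : 1 ≤ k := by
    have : (w₁ : ℝ) + 1 ≤ w₂ := by exact_mod_cast h12
    rw [hk]
    linarith
  set g : ℝ := (n : ℝ) - 2 * w₁ with hg
  set h : ℝ := (n : ℝ) - w₁ - w₂ with hh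
  have hgk : 2 * k ≤ g := by rw [hg, hk]; linarith
  have hhg : h ≤ g := by rw [hg, hh]; linarith
  have hgn : g ≤ n := by rw [hg]; linarith
  have hgpos : 0 < g := by linarith
  have hhpos : 0 < h := by
    have : g ≤ 2 * h := by rw [hg, hh]; linarith
    linarith
  rcases le_or_gt ((1 + ε / 3) * (2 * w₁ * ((n : ℝ) - w₁))) ((d : ℝ) * n) with hP | hP
  · intro C hC hD
    exact hn₁ n m1 d w₁ w₂ h12 h2 hP C hC hD
  -- lower bound for k
  have hkw : (1 + ε) * ((w₁ : ℝ) * (n - w₁)) ≤ n * k := by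
    have h3 : ((1 + ε) * ((w₁ : ℝ) * (n - w₁))) * g ≤ (n * k) * g := by
      calc ((1 + ε) * ((w₁ : ℝ) * (n - w₁))) * g = (1 + ε) * ((w₁ : ℝ) * (n - w₁) * g) := by ring
        _ ≤ (n : ℝ) * k * h := hreg
        _ ≤ (n : ℝ) * k * g := mul_le_mul_of_nonneg_left hhg (by positivity)
    exact le_of_mul_le_mul_right h3 hgpos
  have hnw : (0 : ℝ) ≤ (n : ℝ) - w₁ := by linarith
  rcases lt_or_ge (w₁ : ℝ) (ε / 16 * n) with hs | hs
  · -- small weights
    apply mono_double8 n d w₁ w₂ hd _ h2 _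
    · have h3 : (w₁ : ℝ) ≤ k := by
        have h4 : (w₁ : ℝ) * n ≤ (1 + ε) * ((w₁ : ℝ) * (n - w₁)) := by
          have h5 : (n : ℝ) ≤ (1 + ε) * (n - w₁) := by nlinarith
          calc (w₁ : ℝ) * n ≤ w₁ * ((1 + ε) * (n - w₁)) := mul_le_mul_of_nonneg_left h5 hw0
            _ = _ := by ring
        have h6 : (w₁ : ℝ) * n ≤ k * n := by linarith
        exact le_of_mul_le_mul_right h6 hnpos
      have h7 : 2 * (w₁ : ℝ) ≤ w₂ := by
        rw [hk] at h3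
        linarith
      exact_mod_cast h7
    · have h3 : (16 : ℝ) * w₁ ≤ n := by nlinarith
      have h4 : 16 * w₁ ≤ n := by exact_mod_cast h3
      omega
  · -- linear weights
    apply separated (ε / 3) (by linarith) (by linarith) n d w₁ w₂ hd h12 h2
    · have h3 : (n : ℝ) * ((1 + ε / 3) * ((d : ℝ) * g)) ≤ n * (2 * (k * h)) := by
        calc (n : ℝ) * ((1 + ε / 3) * ((d : ℝ) * g)) = (1 + ε / 3) * g * ((d : ℝ) * n) := by ring
          _ ≤ (1 + ε / 3) * g * ((1 + ε / 3) * (2 * w₁ * ((n : ℝ) - w₁))) :=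
              mul_le_mul_of_nonneg_left hP.le (by positivity)
          _ = ((1 + ε / 3) * (1 + ε / 3)) * (2 * ((w₁ : ℝ) * (n - w₁) * g)) := by ring
          _ ≤ (1 + ε) * (2 * ((w₁ : ℝ) * (n - w₁) * g)) := by
              apply mul_le_mul_of_nonneg_right _ (by positivity)
              nlinarith
          _ = 2 * ((1 + ε) * ((w₁ : ℝ) * (n - w₁) * g)) := by ring
          _ ≤ 2 * ((n : ℝ) * k * h) := mul_le_mul_of_nonneg_left hreg (by norm_num)
          _ = _ := by ring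
      exact le_of_mul_le_mul_left h3 hnpos
    · have h3 : (w₁ : ℝ) / 2 ≤ k := by
        have h4 : (w₁ : ℝ) / 2 * n ≤ (1 + ε) * ((w₁ : ℝ) * (n - w₁)) := by
          have h5 : (n : ℝ) / 2 ≤ (1 + ε) * (n - w₁) := by nlinarith
          calc (w₁ : ℝ) / 2 * n = w₁ * (n / 2) := by ring
            _ ≤ w₁ * ((1 + ε) * (n - w₁)) := mul_le_mul_of_nonneg_left h5 hw0
            _ = _ := by ring
        have h6 : (w₁ : ℝ) / 2 * n ≤ k * n := by linarith
        exact le_of_mul_le_mul_right h6 hnpos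
      have h4 : ε / 16 * n / 2 ≤ k := by linarith
      have h5 : ε / 16 * n ≤ g := by linarith
      have h6 : (ε / 16 * n) ^ 3 ≤ g ^ 3 := pow_le_pow_left₀ (by positivity) h5 3
      have h7 : (ε / 16 * n / 2) * (ε / 16 * n) ^ 3 ≤ k * g ^ 3 :=
        mul_le_mul h4 h6 (by positivity) (by linarith)
      have hp : (0 : ℝ) < (ε / 3) ^ 4 * (ε / 16) ^ 4 := by positivity
      have h8 : 800000 ≤ (n : ℝ) * ((ε / 3) ^ 4 * (ε / 16) ^ 4) := by
        have h9 : 800000 / ((ε / 3) ^ 4 * (ε / 16) ^ 4) ≤ (n : ℝ) :=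
          hn₂.trans (by exact_mod_cast m2)
        rwa [div_le_iff₀ hp] at h9
      calc 400000 * (n : ℝ) ^ 3 = 800000 * ((n : ℝ) ^ 3 / 2) := by ring
        _ ≤ ((n : ℝ) * ((ε / 3) ^ 4 * (ε / 16) ^ 4)) * ((n : ℝ) ^ 3 / 2) :=
            mul_le_mul_of_nonneg_right h8 (by positivity)
        _ = (ε / 3) ^ 4 * ((ε / 16 * n / 2) * (ε / 16 * n) ^ 3) := by ring
        _ ≤ (ε / 3) ^ 4 * (k * g ^ 3) := mul_le_mul_of_nonneg_left h7 (by positivity)

end Pool.Agent.Hhelper49.CWD
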