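import Pool.Agent.Hhelper49.CWD.Small

set_option autoImplicit false

/-! Exact monotonicity for distances up to a small multiple of the length. -/

namespace Pool.Agent.Hhelper49.CWD

open Pool.Agent.Hhelper49.CWC

/-- Packing bound at weight `w₁` against the Gilbert bound at weight `w₂`. -/
theorem crit (n d w₁ w₂ : ℕ) (h12 : w₁ ≤ w₂) (hn : w₂ ≤ n) (hd : 1 ≤ d)
    (hcond : w₂.choose ((d + 1) / 2 - 1) * n.choose w₁ ≤ n.choose w₂) : Mono n d w₁ w₂ := by
  intro C hC hD
  rcases Nat.lt_or_ge C.card 2 with h2 | h2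
  · exact tiny n d w₂ hn C (by omega)
  set δ := (d + 1) / 2 with hδdef
  have hd1 : d ≤ 2 * δ := by omega
  have hd2 : 2 * δ ≤ d + 1 := by omega
  have hI : ∀ s ∈ C, ∀ t ∈ C, s ≠ t → (s ∩ t).card + δ ≤ w₁ := by
    intro s hs t ht hne
    have ha := card_symmDiff_add s t
    have hb := hD s hs t ht hne
    rw [hC s hs, hC t ht] at ha
    omega
  obtain ⟨s0, hs0, t0, ht0, hne0⟩ := Finset.one_lt_card.mp (by omega : 1 < C.card)
  have h0 := hI s0 hs0 t0 ht0 hne0
  obtain ⟨r, hr⟩ : ∃ r, δ = r + 1 := ⟨δ - 1, by omega⟩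
  have hr1 : δ - 1 = r := by omega
  rw [hr1] at hcond
  have hrw : r < w₁ := by omega
  have hp := packing C w₁ (w₁ - r) hC (fun s hs t ht hne => by
    have := hI s hs t ht hne
    omega)
  rw [Fintype.card_fin] at hp
  have key : ∀ w, r < w → w ≤ n → n.choose w * w.choose (w - r) =
      n.choose (w - r) * (n - w + r).choose r := by
    intro w h1 h2
    have := Nat.choose_mul (n := n) (k := w) (s := w - r) (by omega)
    have ea : n - (w - r) = n - w + r := by omega
    have eb : w - (w - r) = r := by omega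
    rwa [ea, eb] at this
  have p1 : 0 < w₁.choose (w₁ - r) := Nat.choose_pos (by omega)
  have p2 : 0 < w₂.choose (w₂ - r) := Nat.choose_pos (by omega)
  have f1 : C.card * (n - w₁ + r).choose r ≤ n.choose w₁ := by
    have : (C.card * (n - w₁ + r).choose r) * w₁.choose (w₁ - r) ≤
        n.choose w₁ * w₁.choose (w₁ - r) := by
      calc (C.card * (n - w₁ + r).choose r) * w₁.choose (w₁ - r)
          = (C.card * w₁.choose (w₁ - r)) * (n - w₁ + r).choose r := by ring
        _ ≤ n.choose (w₁ - r) * (n - w₁ + r).choose r := Nat.mul_le_mul_right _ hp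
        _ = _ := (key w₁ hrw (by omega)).symm
    exact Nat.le_of_mul_le_mul_right this p1
  obtain ⟨C', g1, g2, g3⟩ := gilbert n w₂ (w₂ - r) (by omega) hn
  have f2 : n.choose w₂ ≤ C'.card * w₂.choose (w₂ - r) * (n - w₂ + r).choose r := by
    have : n.choose w₂ * w₂.choose (w₂ - r) ≤
        (C'.card * w₂.choose (w₂ - r) * (n - w₂ + r).choose r) * w₂.choose (w₂ - r) := by
      rw [key w₂ (by omega) hn]
      calc n.choose (w₂ - r) * (n - w₂ + r).choose r
          ≤ (C'.card * (w₂.choose (w₂ - r)) ^ 2) * (n - w₂ + r).choose r :=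
            Nat.mul_le_mul_right _ g1
        _ = _ := by ring
    exact Nat.le_of_mul_le_mul_right this p2
  have esym : w₂.choose (w₂ - r) = w₂.choose r := Nat.choose_symm (by omega)
  rw [esym] at f2 p2
  have p3 : 0 < (n - w₂ + r).choose r := Nat.choose_pos (by omega)
  have f3 : (n - w₂ + r).choose r ≤ (n - w₁ + r).choose r := Nat.choose_le_choose _ (by omega)
  have f4 : C.card * (w₂.choose r * (n - w₂ + r).choose r) ≤
      C'.card * (w₂.choose r * (n - w₂ + r).choose r) := by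
    calc C.card * (w₂.choose r * (n - w₂ + r).choose r)
        ≤ C.card * (w₂.choose r * (n - w₁ + r).choose r) :=
          Nat.mul_le_mul_left _ (Nat.mul_le_mul_left _ f3)
      _ = w₂.choose r * (C.card * (n - w₁ + r).choose r) := by ring
      _ ≤ w₂.choose r * n.choose w₁ := Nat.mul_le_mul_left _ f1
      _ ≤ n.choose w₂ := hcond
      _ ≤ _ := f2
      _ = _ := by ring
  have h11 : C.card ≤ C'.card := Nat.le_of_mul_le_mul_right f4 (Nat.mul_pos p2 p3)
  refine shrink C C' h11 g2 ?_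
  intro s hs t ht hne
  have ha := card_symmDiff_add s t
  have hb := g3 s hs t ht hne
  rw [g2 s hs, g2 t ht] at ha
  omega

theorem pow_self_le (r : ℕ) : r ^ r ≤ 3 ^ r * r.factorial := by
  have h1 := Real.pow_div_factorial_le_exp (r : ℝ) (Nat.cast_nonneg r) r
  have h2 : Real.exp (r : ℝ) ≤ 3 ^ r := by
    have h3 : Real.exp (r : ℝ) = Real.exp 1 ^ r := by
      rw [← Real.exp_nat_mul, mul_one]
    rw [h3]
    have h4 := Real.exp_one_lt_d9
    exact pow_le_pow_left₀ (Real.exp_pos 1).le (by linarith) r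
  have hf : (0 : ℝ) < (r.factorial : ℝ) := by exact_mod_cast Nat.factorial_pos r
  rw [div_le_iff₀ hf] at h1
  have h5 : (r : ℝ) ^ r ≤ 3 ^ r * (r.factorial : ℝ) :=
    h1.trans (mul_le_mul_of_nonneg_right h2 hf.le)
  exact_mod_cast h5

theorem choose_mul_pow_self (w r : ℕ) : w.choose r * r ^ r ≤ (3 * w) ^ r := by
  have h1 : w.choose r * r.factorial ≤ w ^ r := by
    rw [mul_comm, ← Nat.descFactorial_eq_factorial_mul_choose]
    exact Nat.descFactorial_le_pow w r
  calc w.choose r * r ^ r ≤ w.choose r * (3 ^ r * r.factorial) :=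
        Nat.mul_le_mul_left _ (pow_self_le r)
    _ = 3 ^ r * (w.choose r * r.factorial) := by ring
    _ ≤ 3 ^ r * w ^ r := Nat.mul_le_mul_left _ h1
    _ = _ := by rw [mul_pow]

/-- Distances up to a small multiple of the length. -/
theorem mono_small' (n d w₁ w₂ : ℕ) (hd : 1 ≤ d) (h12 : w₁ ≤ w₂) (hn : 2 * w₂ ≤ n)
    (hcond : (3 * w₂) ^ (((d + 1) / 2 - 1) * n) ≤
      ((d + 1) / 2 - 1) ^ (((d + 1) / 2 - 1) * n) * 2 ^ ((w₂ - w₁) * (n - w₁ - w₂))) :
    Mono n d w₁ w₂ := by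
  rcases Nat.eq_zero_or_pos n with hn0 | hn0
  · have e1 : w₁ = w₂ := by omega
    subst e1
    intro C hC hD
    exact ⟨C, rfl, hC, hD⟩
  apply crit n d w₁ w₂ h12 (by omega) hd
  set r := (d + 1) / 2 - 1 with hr
  have h6 := choose_steps n w₁ w₂ h12 hn
  have h1 := choose_mul_pow_self w₂ r
  rcases Nat.eq_zero_or_pos r with hr0 | hr0
  · rw [hr0, Nat.choose_zero_right, one_mul]
    exact choose_mono_half n w₁ w₂ h12 hn
  have h7 : (((r ^ r * (w₂.choose r * n.choose w₁) : ℕ)) : ℝ) ^ n ≤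
      (((r ^ r * n.choose w₂ : ℕ)) : ℝ) ^ n := by
    have c1 : ((3 * w₂ : ℕ) : ℝ) ^ (r * n) ≤
        ((r : ℕ) : ℝ) ^ (r * n) * 2 ^ ((w₂ - w₁) * (n - w₁ - w₂)) := by
      exact_mod_cast hcond
    have c2 : ((w₂.choose r : ℕ) : ℝ) * ((r : ℕ) : ℝ) ^ r ≤ ((3 * w₂ : ℕ) : ℝ) ^ r := by
      exact_mod_cast h1
    calc (((r ^ r * (w₂.choose r * n.choose w₁) : ℕ)) : ℝ) ^ n
        = (((w₂.choose r : ℕ) : ℝ) * ((r : ℕ) : ℝ) ^ r) ^ n * (n.choose w₁ : ℝ) ^ n := by
          push_cast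
          ring
      _ ≤ (((3 * w₂ : ℕ) : ℝ) ^ r) ^ n * (n.choose w₁ : ℝ) ^ n := by
          apply mul_le_mul_of_nonneg_right _ (by positivity)
          exact pow_le_pow_left₀ (by positivity) c2 n
      _ = ((3 * w₂ : ℕ) : ℝ) ^ (r * n) * (n.choose w₁ : ℝ) ^ n := by rw [← pow_mul]
      _ ≤ (((r : ℕ) : ℝ) ^ (r * n) * 2 ^ ((w₂ - w₁) * (n - w₁ - w₂))) *
          (n.choose w₁ : ℝ) ^ n := mul_le_mul_of_nonneg_right c1 (by positivity)
      _ = ((r : ℕ) : ℝ) ^ (r * n) *
          (2 ^ ((w₂ - w₁) * (n - w₁ - w₂)) * (n.choose w₁ : ℝ) ^ n) := by ring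
      _ ≤ ((r : ℕ) : ℝ) ^ (r * n) * (n.choose w₂ : ℝ) ^ n :=
          mul_le_mul_of_nonneg_left h6 (by positivity)
      _ = _ := by
          push_cast
          rw [mul_pow, pow_mul]
  have h8 := le_of_pow_le_pow_left₀ (by omega : n ≠ 0) (Nat.cast_nonneg _) h7
  have h9 : r ^ r * (w₂.choose r * n.choose w₁) ≤ r ^ r * n.choose w₂ := by exact_mod_cast h8
  exact Nat.le_of_mul_le_mul_left h9 (by positivity)

end Pool.Agent.Hhelper49.CWD
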