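import Pool.Agent.Hhelper49.CWD.Square
import Pool.Agent.Hhelper49.CWC.Cheb

set_option autoImplicit false

/-! `(n - 4w)^2 A(n,d,w) ≤ n^2 A(n,d,w+k)` for `4w ≤ n`. -/

namespace Pool.Agent.Hhelper49.CWD

open Pool.Agent.Hhelper49.CWC

/-- The inequality which gives the factor from `good_lower`. -/
def PI (n w : ℤ) : Prop :=
  (n - 4 * w) ^ 2 * ((n - 2 * w + 5) * (n + 2 - w) * (n + 1 - w)) ≤
    n ^ 2 * ((n + 1) * ((n + 2) * (n + 5) - 8 * w * (n - 2 * w + 5)))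

instance (n w : ℤ) : Decidable (PI n w) := by
  unfold PI
  infer_instance

theorem PI_large (w T : ℤ) (hw : 0 ≤ w) (hT : 0 ≤ T) (h : 9 * (4 * w + T) ≤ 2 * T ^ 2) :
    PI (4 * w + T) w := by
  unfold PI
  have key : 2 * ((4 * w + T) ^ 2 * ((4 * w + T + 1) * ((4 * w + T + 2) * (4 * w + T + 5) -
      8 * w * (4 * w + T - 2 * w + 5))) -
      (4 * w + T - 4 * w) ^ 2 * ((4 * w + T - 2 * w + 5) * (4 * w + T + 2 - w) *
      (4 * w + T + 1 - w))) =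
      w * ((2 * T ^ 2 - 9 * (4 * w + T)) * (46 * w ^ 2 + 27 * w * T + 4 * T ^ 2) +
        (120 * w ^ 3 + 1130 * w ^ 2 * T + 677 * w * T ^ 2 + 106 * T ^ 3 + 896 * w ^ 2 +
          992 * w * T + 230 * T ^ 2 + 320 * w + 160 * T)) := by
    ring
  have h1 : 0 ≤ w * ((2 * T ^ 2 - 9 * (4 * w + T)) * (46 * w ^ 2 + 27 * w * T + 4 * T ^ 2) +
        (120 * w ^ 3 + 1130 * w ^ 2 * T + 677 * w * T ^ 2 + 106 * T ^ 3 + 896 * w ^ 2 +
          992 * w * T + 230 * T ^ 2 + 320 * w + 160 * T)) := by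
    apply mul_nonneg hw
    apply add_nonneg
    · exact mul_nonneg (by linarith) (by positivity)
    · positivity
  linarith

theorem small_cases : ∀ n : Fin 81, ∀ w : Fin 21, 1 ≤ w.val → 4 * w.val ≤ n.val →
    16 * w.val * (n.val - 4 * w.val) ^ 4 ≤ n.val ^ 4 ∨ PI (n.val : ℤ) (w.val : ℤ) := by
  decide +kernel

theorem cases_all (n w : ℕ) (h : 4 * w ≤ n) :
    (1 ≤ w ∧ 16 * w * (n - 4 * w) ^ 4 ≤ n ^ 4) ∨ PI (n : ℤ) (w : ℤ) := by
  rcases Nat.eq_zero_or_pos w with hw | hw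
  · right
    subst hw
    unfold PI
    apply le_of_eq
    push_cast
    ring
  rcases Nat.lt_or_ge n 81 with hn | hn
  · rcases small_cases ⟨n, hn⟩ ⟨w, by omega⟩ hw h with h1 | h1
    · exact Or.inl ⟨hw, h1⟩
    · exact Or.inr h1
  obtain ⟨T, rfl⟩ : ∃ T, n = 4 * w + T := ⟨n - 4 * w, by omega⟩
  rcases Nat.lt_or_ge (2 * T ^ 2) (9 * (4 * w + T)) with hT | hT
  · left
    refine ⟨hw, ?_⟩
    have e : 4 * w + T - 4 * w = T := by omega
    rw [e]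
    set n := 4 * w + T with hndef
    have h1 : 4 * T ^ 4 ≤ 81 * n ^ 2 := by
      calc 4 * T ^ 4 = (2 * T ^ 2) ^ 2 := by ring
        _ ≤ (9 * n) ^ 2 := Nat.pow_le_pow_left hT.le 2
        _ = _ := by ring
    calc 16 * w * T ^ 4 = (4 * w) * (4 * T ^ 4) := by ring
      _ ≤ n * (81 * n ^ 2) := Nat.mul_le_mul h h1
      _ = 81 * n ^ 3 := by ring
      _ ≤ n * n ^ 3 := Nat.mul_le_mul_right _ hn
      _ = n ^ 4 := by ring
  · right
    have h1 := PI_large (w : ℤ) (T : ℤ) (Int.natCast_nonneg w) (Int.natCast_nonneg T)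
      (by exact_mod_cast hT)
    push_cast
    exact h1

/-- The proportion of good words. -/
theorem good_sq (n w k : ℕ) (hn : 2 * (w + k) ≤ n) (h4 : 4 * w ≤ n) (hP : PI (n : ℤ) (w : ℤ)) :
    ((n : ℝ) - 4 * w) ^ 2 * (n.choose w : ℝ) ≤ (n : ℝ) ^ 2 * ((good n w k).card : ℝ) := by
  have h1 := good_lower n w k hn h4
  unfold PI at hP
  set g : ℤ := ((good n w k).card : ℤ) with hg
  set B : ℤ := (n.choose w : ℤ) with hB
  have hB0 : 0 ≤ B := Int.natCast_nonneg _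
  have h2w : 2 * (w : ℤ) ≤ n := by
    have : 2 * w ≤ n := by omega
    exact_mod_cast this
  have hw0 : (0 : ℤ) ≤ w := Int.natCast_nonneg w
  have hn0 : (0 : ℤ) ≤ n := Int.natCast_nonneg n
  have hpos : (0 : ℤ) < ((n : ℤ) - 2 * w + 5) * (n + 2 - w) * (n + 1 - w) := by
    apply mul_pos
    · apply mul_pos <;> linarith
    · linarith
  have h2 : (((n : ℤ) - 2 * w + 5) * (n + 2 - w) * (n + 1 - w)) * (((n : ℤ) - 4 * w) ^ 2 * B) ≤
      (((n : ℤ) - 2 * w + 5) * (n + 2 - w) * (n + 1 - w)) * ((n : ℤ) ^ 2 * g) := by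
    calc (((n : ℤ) - 2 * w + 5) * (n + 2 - w) * (n + 1 - w)) * (((n : ℤ) - 4 * w) ^ 2 * B)
        = (((n : ℤ) - 4 * w) ^ 2 * (((n : ℤ) - 2 * w + 5) * (n + 2 - w) * (n + 1 - w))) * B := by
          ring
      _ ≤ ((n : ℤ) ^ 2 * (((n : ℤ) + 1) * (((n : ℤ) + 2) * (n + 5) -
          8 * w * (n - 2 * w + 5)))) * B := mul_le_mul_of_nonneg_right hP hB0
      _ = (n : ℤ) ^ 2 * (((n : ℤ) + 1) * (((n : ℤ) + 2) * (n + 5) -
          8 * w * (n - 2 * w + 5)) * B) := by ring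
      _ ≤ (n : ℤ) ^ 2 * (((n : ℤ) - 2 * w + 5) * (n + 2 - w) * (n + 1 - w) * g) :=
          mul_le_mul_of_nonneg_left h1 (by positivity)
      _ = _ := by ring
  have h3 := le_of_mul_le_mul_left h2 hpos
  have h4' : ((((n : ℤ) - 4 * w) ^ 2 * B : ℤ) : ℝ) ≤ (((n : ℤ) ^ 2 * g : ℤ) : ℝ) := by
    exact_mod_cast h3
  rw [hg, hB] at h4'
  push_cast at h4'
  exact h4'

/-- `A(n,d,w) ≤ (1 - 4w/n)^(-2) A(n,d,w+k)`. -/
theorem bounded_sq (n d w k : ℕ) (hn : 2 * (w + k) ≤ n) (h4 : 4 * w ≤ n)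
    (C : Finset (Finset (Fin n))) (hC : ∀ s ∈ C, s.card = w)
    (hD : ∀ s ∈ C, ∀ t ∈ C, s ≠ t → d ≤ (symmDiff s t).card) :
    ∃ C' : Finset (Finset (Fin n)),
      ((n : ℝ) - 4 * w) ^ 2 * (C.card : ℝ) ≤ (n : ℝ) ^ 2 * (C'.card : ℝ) ∧
      (∀ s ∈ C', s.card = w + k) ∧
      (∀ s ∈ C', ∀ t ∈ C', s ≠ t → d ≤ (symmDiff s t).card) := by
  rcases cases_all n w h4 with ⟨hw, hT⟩ | hP
  · obtain ⟨C', h1, h2, h3⟩ := almost_mono n d w (w + k) hw (by omega) hn C hC hD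
    refine ⟨C', ?_, h2, h3⟩
    have hT' : 16 * (w : ℝ) * ((n : ℝ) - 4 * w) ^ 4 ≤ (n : ℝ) ^ 4 := by
      have h5 : ((n - 4 * w : ℕ) : ℝ) = (n : ℝ) - 4 * w := by
        rw [Nat.cast_sub h4]
        push_cast
        ring
      rw [← h5]
      exact_mod_cast hT
    have hw0 : (0 : ℝ) ≤ w := Nat.cast_nonneg w
    have h6 : ((n : ℝ) - 4 * w) ^ 2 * (4 * √(w : ℝ)) ≤ (n : ℝ) ^ 2 := by
      apply le_of_pow_le_pow_left₀ (two_ne_zero) (by positivity)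
      calc (((n : ℝ) - 4 * w) ^ 2 * (4 * √(w : ℝ))) ^ 2
          = 16 * (√(w : ℝ)) ^ 2 * ((n : ℝ) - 4 * w) ^ 4 := by ring
        _ = 16 * (w : ℝ) * ((n : ℝ) - 4 * w) ^ 4 := by rw [Real.sq_sqrt hw0]
        _ ≤ (n : ℝ) ^ 4 := hT'
        _ = _ := by ring
    calc ((n : ℝ) - 4 * w) ^ 2 * (C.card : ℝ)
        ≤ ((n : ℝ) - 4 * w) ^ 2 * (4 * √(w : ℝ) * (C'.card : ℝ)) :=
          mul_le_mul_of_nonneg_left h1 (sq_nonneg _)
      _ = (((n : ℝ) - 4 * w) ^ 2 * (4 * √(w : ℝ))) * (C'.card : ℝ) := by ring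
      _ ≤ _ := mul_le_mul_of_nonneg_right h6 (Nat.cast_nonneg _)
  · obtain ⟨σ, hσ⟩ := exists_perm C (good n w k) w hC (fun s hs => (mem_good.mp hs).1)
    rw [card_filter_act, Fintype.card_fin] at hσ
    obtain ⟨hC1, hD1⟩ := act_code C σ w d hC hD
    obtain ⟨C', h1, h2, h3⟩ := flip_all (C.image (act σ)) w k d hC1 hD1
      ((C.image (act σ)).filter (fun s => s ∈ good n w k)) (Finset.filter_subset _ _)
      (fun x hx => (mem_good.mp (Finset.mem_filter.mp hx).2).2)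
    rw [← h1] at hσ
    have hσ' : (C.card : ℝ) * ((good n w k).card : ℝ) ≤ (C'.card : ℝ) * (n.choose w : ℝ) := by
      exact_mod_cast hσ
    have hBpos : (0 : ℝ) < (n.choose w : ℝ) := by
      exact_mod_cast Nat.choose_pos (by omega : w ≤ n)
    have hCn : (0 : ℝ) ≤ (C.card : ℝ) := Nat.cast_nonneg _
    refine ⟨C', ?_, h2, h3⟩
    have h5 := good_sq n w k hn h4 hP
    have h6 : (((n : ℝ) - 4 * w) ^ 2 * (C.card : ℝ)) * (n.choose w : ℝ) ≤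
        ((n : ℝ) ^ 2 * (C'.card : ℝ)) * (n.choose w : ℝ) := by
      calc (((n : ℝ) - 4 * w) ^ 2 * (C.card : ℝ)) * (n.choose w : ℝ)
          = (C.card : ℝ) * (((n : ℝ) - 4 * w) ^ 2 * (n.choose w : ℝ)) := by ring
        _ ≤ (C.card : ℝ) * ((n : ℝ) ^ 2 * ((good n w k).card : ℝ)) :=
            mul_le_mul_of_nonneg_left h5 hCn
        _ = (n : ℝ) ^ 2 * ((C.card : ℝ) * ((good n w k).card : ℝ)) := by ring
        _ ≤ (n : ℝ) ^ 2 * ((C'.card : ℝ) * (n.choose w : ℝ)) :=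
            mul_le_mul_of_nonneg_left hσ' (by positivity)
        _ = _ := by ring
    exact le_of_mul_le_mul_right h6 hBpos

end Pool.Agent.Hhelper49.CWD
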