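import Pool.Agent.Hhelper49.CWD.Sep
import Pool.Agent.Hhelper49.CWD.Square2
import Pool.Agent.Hhelper49.CWD.Small2

set_option autoImplicit false

/-! Exact monotonicity for `w₂ - w₁ ≥ d` and small weights, without large constants. -/

namespace Pool.Agent.Hhelper49.CWD

open Pool.Agent.Hhelper49.CWC

/-- A complemented word has at least `k/2` elements below `k`. -/
theorem flip_low {n k r : ℕ} (hr : r ≤ n) (x : Finset (Fin n)) (hx : Good k r x) :
    k ≤ 2 * (symmDiff x (seg n r) ∩ seg n k).card := by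
  obtain ⟨h1, h2, h3⟩ := hx
  have hkr : k ≤ r := by omega
  have h4 := h2 0 (Nat.zero_le _)
  have h5 : cnt x 0 = 0 := by
    unfold cnt
    simp
  have h6 := cnt_mono x hkr
  have h7 : symmDiff x (seg n r) ∩ seg n k = seg n k \ x := by
    ext i
    have h8 : i ∈ seg n k → i ∈ seg n r := fun h => seg_mono hkr h
    simp only [Finset.mem_inter, Finset.mem_symmDiff, Finset.mem_sdiff]
    tauto
  have h9 := Finset.card_sdiff_add_card_inter (seg n k) x
  rw [card_seg (by omega), Finset.inter_comm, ← cnt_eq] at h9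
  rw [h7]
  omega

/-- The image code together with the information on its position. -/
theorem flip_all' {n : ℕ} (C : Finset (Finset (Fin n))) (w k d : ℕ) (hC : ∀ s ∈ C, s.card = w)
    (hD : ∀ s ∈ C, ∀ t ∈ C, s ≠ t → d ≤ (symmDiff s t).card)
    (D : Finset (Finset (Fin n))) (hDC : D ⊆ C) (hDg : ∀ x ∈ D, ∃ r, r ≤ n ∧ Good k r x) :
    ∃ C' : Finset (Finset (Fin n)), C'.card = D.card ∧ (∀ s ∈ C', s.card = w + k) ∧
      (∀ s ∈ C', ∀ t ∈ C', s ≠ t → d ≤ (symmDiff s t).card) ∧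
      (∀ s ∈ C', k ≤ 2 * (s ∩ seg n k).card) := by
  classical
  choose! ρ hρ using hDg
  have key : ∀ x ∈ D, ∀ y ∈ D, (symmDiff x y).card ≤
      (symmDiff (symmDiff x (seg n (ρ x))) (symmDiff y (seg n (ρ y)))).card := by
    intro x hx y hy
    rcases Nat.le_total (ρ x) (ρ y) with h | h
    · exact dist_le h (hρ y hy).1 x y (hρ x hx).2 (hρ y hy).2
    · have h1 := dist_le h (hρ x hx).1 y x (hρ y hy).2 (hρ x hx).2
      rw [symmDiff_comm y x] at h1
      rw [symmDiff_comm (symmDiff x (seg n (ρ x)))]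
      exact h1
  refine ⟨D.image (fun x => symmDiff x (seg n (ρ x))), ?_, ?_, ?_, ?_⟩
  · apply Finset.card_image_of_injOn
    intro x hx y hy hxy
    have h1 := key x hx y hy
    have h2 : symmDiff x (seg n (ρ x)) = symmDiff y (seg n (ρ y)) := hxy
    rw [h2, symmDiff_self] at h1
    have h3 : (symmDiff x y).card = 0 := by
      have : (⊥ : Finset (Fin n)).card = 0 := Finset.card_empty
      omega
    rw [Finset.card_eq_zero] at h3
    exact symmDiff_eq_bot.mp h3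
  · intro s hs
    obtain ⟨x, hx, rfl⟩ := Finset.mem_image.mp hs
    rw [card_flip (hρ x hx).1 x (hρ x hx).2, hC x (hDC hx)]
  · intro s hs t ht hne
    obtain ⟨x, hx, rfl⟩ := Finset.mem_image.mp hs
    obtain ⟨y, hy, rfl⟩ := Finset.mem_image.mp ht
    refine (hD x (hDC hx) y (hDC hy) ?_).trans (key x hx y hy)
    rintro rfl
    exact hne rfl
  · intro s hs
    obtain ⟨x, hx, rfl⟩ := Finset.mem_image.mp hs
    exact flip_low (hρ x hx).1 x (hρ x hx).2

/-- Exact monotonicity for `w₂ - w₁ ≥ d` and small weights. -/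
theorem separated_small (n d w₁ w₂ : ℕ) (hd : 1 ≤ d) (h12 : w₁ < w₂) (hn : 2 * w₂ ≤ n)
    (h4 : 4 * w₁ ≤ n) (hdk : d ≤ w₂ - w₁)
    (hcond : 2 * n * (w₂ - w₁) * w₂ ≤ (w₂ - w₁ + 1 - d) * (n - 4 * w₁) ^ 2) :
    Mono n d w₁ w₂ := by
  rcases Nat.lt_or_ge d 3 with hd3 | hd3
  · apply crit n d w₁ w₂ h12.le (by omega) hd
    have : (d + 1) / 2 - 1 = 0 := by omega
    rw [this, Nat.choose_zero_right, one_mul]
    exact choose_mono_half n w₁ w₂ h12.le hn
  obtain ⟨k, rfl⟩ : ∃ k, w₂ = w₁ + k := ⟨w₂ - w₁, by omega⟩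
  have ek : w₁ + k - w₁ = k := by omega
  rw [ek] at hcond hdk
  intro C hC hD
  obtain ⟨C₂, ⟨hC₂, hD₂⟩, hmax⟩ := exists_largest n d (w₁ + k)
  -- PI
  obtain ⟨T, hT⟩ : ∃ T, n = 4 * w₁ + T := ⟨n - 4 * w₁, by omega⟩
  have eT : n - 4 * w₁ = T := by omega
  rw [eT] at hcond
  have hk0 : 0 < k := by omega
  have hT2 : 2 * n * (w₁ + k) ≤ T ^ 2 := by
    have h1 : k * (2 * n * (w₁ + k)) ≤ k * T ^ 2 := by
      calc k * (2 * n * (w₁ + k)) = 2 * n * k * (w₁ + k) := by ring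
        _ ≤ (k + 1 - d) * T ^ 2 := hcond
        _ ≤ k * T ^ 2 := Nat.mul_le_mul_right _ (by omega)
    exact Nat.le_of_mul_le_mul_left h1 hk0
  have hPI : PI (n : ℤ) (w₁ : ℤ) := by
    have h1 := PI_large (w₁ : ℤ) (T : ℤ) (Int.natCast_nonneg w₁) (Int.natCast_nonneg T) (by
      have h2 : 9 * (4 * w₁ + T) ≤ 2 * T ^ 2 := by
        rw [← hT]
        have h3 : 3 ≤ w₁ + k := by omega
        have h5 : 2 * n * 3 ≤ 2 * n * (w₁ + k) := Nat.mul_le_mul_left _ h3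
        omega
      exact_mod_cast h2)
    rw [hT]
    push_cast
    exact h1
  have hgood := good_sq n w₁ k hn h4 hPI
  -- the code C'
  obtain ⟨σ, hσ⟩ := exists_perm C (good n w₁ k) w₁ hC (fun s hs => (mem_good.mp hs).1)
  rw [card_filter_act, Fintype.card_fin] at hσ
  obtain ⟨hC1, hD1⟩ := act_code C σ w₁ d hC hD
  obtain ⟨C', h1, h2, h3, h5⟩ := flip_all' (C.image (act σ)) w₁ k d hC1 hD1
    ((C.image (act σ)).filter (fun s => s ∈ good n w₁ k)) (Finset.filter_subset _ _)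
    (fun x hx => (mem_good.mp (Finset.mem_filter.mp hx).2).2)
  rw [← h1] at hσ
  -- the part of C₂
  obtain ⟨s, hs⟩ : ∃ s, s + (d + 1) / 2 = (k + 1) / 2 := ⟨(k + 1) / 2 - (d + 1) / 2, by omega⟩
  set X := (J n (w₁ + k)).filter (fun x => cnt x k ≤ s) with hX
  obtain ⟨π, hπ⟩ := exists_perm C₂ X (w₁ + k) hC₂ (fun x hx =>
    mem_J.mp (Finset.mem_filter.mp hx).1)
  rw [card_filter_act, Fintype.card_fin] at hπ
  obtain ⟨hC3, hD3⟩ := act_code C₂ π (w₁ + k) d hC₂ hD₂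
  set Q := (C₂.image (act π)).filter (fun x => x ∈ X) with hQ
  have hQm : ∀ y ∈ Q, y.card = w₁ + k ∧ (y ∩ seg n k).card ≤ s := by
    intro y hy
    rw [hQ, Finset.mem_filter, hX, Finset.mem_filter, cnt_eq] at hy
    exact ⟨mem_J.mp hy.2.1, hy.2.2⟩
  have hcross : ∀ x ∈ C', ∀ y ∈ Q, d ≤ (symmDiff x y).card := by
    intro x hx y hy
    have g1 := h2 x hx
    have g2 := hQm y hy
    have g3 := card_symmDiff_add x y
    rw [g1, g2.1] at g3
    have g4 : (x ∩ y).card ≤ (y ∩ seg n k).card + (x \ seg n k).card := by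
      refine (Finset.card_le_card ?_).trans (Finset.card_union_le _ _)
      intro u hu
      rw [Finset.mem_inter] at hu
      rw [Finset.mem_union, Finset.mem_inter, Finset.mem_sdiff]
      by_cases hT : u ∈ seg n k
      · exact Or.inl ⟨hu.2, hT⟩
      · exact Or.inr ⟨hu.1, hT⟩
    have g5 := Finset.card_sdiff_add_card_inter x (seg n k)
    have g6 := h5 x hx
    omega
  have hdisj : Disjoint C' Q := by
    rw [Finset.disjoint_left]
    intro x hx hx'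
    have := hcross x hx x hx'
    rw [symmDiff_self] at this
    simp at this
    omega
  have hun := hmax (C' ∪ Q) (by
    intro x hx
    rcases Finset.mem_union.mp hx with hx | hx
    · exact h2 x hx
    · exact (hQm x hx).1) (by
    intro x hx y hy hne
    rcases Finset.mem_union.mp hx with hx | hx
    · rcases Finset.mem_union.mp hy with hy | hy
      · exact h3 x hx y hy hne
      · exact hcross x hx y hy
    · rcases Finset.mem_union.mp hy with hy | hy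
      · rw [symmDiff_comm]
        exact hcross y hy x hx
      · exact hD3 x (Finset.mem_filter.mp hx).1 y (Finset.mem_filter.mp hy).1 hne)
  rw [Finset.card_union_of_disjoint hdisj] at hun
  -- real numbers
  have hmo := moment n (w₁ + k) k (by omega)
  have hma := markov n (w₁ + k) k s
  have hsp := Finset.card_filter_add_card_filter_not (s := J n (w₁ + k)) (fun x => cnt x k ≤ s)
  rw [card_J] at hsp
  set B₁ : ℝ := (n.choose w₁ : ℝ) with hB₁
  set B₂ : ℝ := (n.choose (w₁ + k) : ℝ) with hB₂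
  set Y : ℝ := (((J n (w₁ + k)).filter (fun x => ¬ cnt x k ≤ s)).card : ℝ) with hY
  have hB₁pos : 0 < B₁ := by
    rw [hB₁]
    exact_mod_cast Nat.choose_pos (by omega : w₁ ≤ n)
  have hB₂pos : 0 < B₂ := by
    rw [hB₂]
    exact_mod_cast Nat.choose_pos (by omega : w₁ + k ≤ n)
  have hXY : (X.card : ℝ) + Y = B₂ := by
    rw [hY, hB₂, hX]
    exact_mod_cast hsp
  have hnpos : (0 : ℝ) < n := by
    have : 0 < n := by omega
    exact_mod_cast this
  have hY1 : (n : ℝ) * (((s : ℝ) + 1) * Y) ≤ (k : ℝ) * ((w₁ + k : ℕ) : ℝ) * B₂ :=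
    (mul_le_mul_of_nonneg_left hma hnpos.le).trans hmo
  have hunR : (C'.card : ℝ) + (Q.card : ℝ) ≤ (C₂.card : ℝ) := by exact_mod_cast hun
  have hσR : (C.card : ℝ) * ((good n w₁ k).card : ℝ) ≤ (C'.card : ℝ) * B₁ := by
    rw [hB₁]
    exact_mod_cast hσ
  have hπR : (C₂.card : ℝ) * (X.card : ℝ) ≤ (Q.card : ℝ) * B₂ := by
    rw [hB₂, hQ]
    exact_mod_cast hπ
  set c : ℝ := (C.card : ℝ) with hc
  set c' : ℝ := (C'.card : ℝ) with hc'
  set c₂ : ℝ := (C₂.card : ℝ) with hc₂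
  set q : ℝ := (Q.card : ℝ) with hq
  have hc0 : 0 ≤ c := Nat.cast_nonneg _
  have hc₂0 : 0 ≤ c₂ := Nat.cast_nonneg _
  -- c' B₂ ≤ c₂ Y
  have h6 : c' * B₂ ≤ c₂ * Y := by
    have h7 : c' * B₂ ≤ (c₂ - q) * B₂ := mul_le_mul_of_nonneg_right (by linarith) hB₂pos.le
    have h8 : c₂ * Y = c₂ * B₂ - c₂ * (X.card : ℝ) := by
      rw [← hXY]
      ring
    rw [h8]
    linarith
  -- (n - 4 w₁)^2 c ≤ n^2 c'
  have h7 : ((n : ℝ) - 4 * w₁) ^ 2 * c ≤ (n : ℝ) ^ 2 * c' := by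
    have h8 : (((n : ℝ) - 4 * w₁) ^ 2 * c) * B₁ ≤ ((n : ℝ) ^ 2 * c') * B₁ := by
      calc (((n : ℝ) - 4 * w₁) ^ 2 * c) * B₁ = c * (((n : ℝ) - 4 * w₁) ^ 2 * B₁) := by ring
        _ ≤ c * ((n : ℝ) ^ 2 * ((good n w₁ k).card : ℝ)) := mul_le_mul_of_nonneg_left hgood hc0
        _ = (n : ℝ) ^ 2 * (c * ((good n w₁ k).card : ℝ)) := by ring
        _ ≤ (n : ℝ) ^ 2 * (c' * B₁) := mul_le_mul_of_nonneg_left hσR (by positivity)
        _ = _ := by ring
    exact le_of_mul_le_mul_right h8 hB₁pos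
  -- n (s+1) c' ≤ k (w₁+k) c₂
  have h8 : (n : ℝ) * ((s : ℝ) + 1) * c' ≤ (k : ℝ) * ((w₁ + k : ℕ) : ℝ) * c₂ := by
    have h9 : ((n : ℝ) * ((s : ℝ) + 1) * c') * B₂ ≤ ((k : ℝ) * ((w₁ + k : ℕ) : ℝ) * c₂) * B₂ := by
      calc ((n : ℝ) * ((s : ℝ) + 1) * c') * B₂ = (n : ℝ) * ((s : ℝ) + 1) * (c' * B₂) := by ring
        _ ≤ (n : ℝ) * ((s : ℝ) + 1) * (c₂ * Y) := mul_le_mul_of_nonneg_left h6 (by positivity)
        _ = c₂ * ((n : ℝ) * (((s : ℝ) + 1) * Y)) := by ring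
        _ ≤ c₂ * ((k : ℝ) * ((w₁ + k : ℕ) : ℝ) * B₂) := mul_le_mul_of_nonneg_left hY1 hc₂0
        _ = _ := by ring
    exact le_of_mul_le_mul_right h9 hB₂pos
  have hTR : ((n : ℝ) - 4 * w₁) = (T : ℝ) := by
    rw [hT]
    push_cast
    ring
  rw [hTR] at h7
  have hsR : (k : ℝ) + 1 - d ≤ 2 * ((s : ℝ) + 1) := by
    have : k + 1 ≤ 2 * (s + 1) + d := by omega
    have h10 : (k : ℝ) + 1 ≤ 2 * ((s : ℝ) + 1) + d := by exact_mod_cast this
    linarith
  have hcR : 2 * (n : ℝ) * k * ((w₁ + k : ℕ) : ℝ) ≤ ((k : ℝ) + 1 - d) * (T : ℝ) ^ 2 := by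
    have h10 : ((k + 1 - d : ℕ) : ℝ) = (k : ℝ) + 1 - d := by
      rw [Nat.cast_sub (by omega)]
      push_cast
      ring
    rw [← h10]
    exact_mod_cast hcond
  have hfin : c ≤ c₂ := by
    have hs0 : (0 : ℝ) < (s : ℝ) + 1 := by positivity
    have hTpos : (0 : ℝ) < (T : ℝ) ^ 2 := by
      have h10 : 0 < T ^ 2 := by
        have : 0 < 2 * n * (w₁ + k) := by
          apply Nat.mul_pos <;> omega
        omega
      exact_mod_cast h10
    have h11 : (((s : ℝ) + 1) * (T : ℝ) ^ 2) * c ≤ (((s : ℝ) + 1) * (T : ℝ) ^ 2) * c₂ := by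
      calc (((s : ℝ) + 1) * (T : ℝ) ^ 2) * c = ((s : ℝ) + 1) * ((T : ℝ) ^ 2 * c) := by ring
        _ ≤ ((s : ℝ) + 1) * ((n : ℝ) ^ 2 * c') := mul_le_mul_of_nonneg_left h7 hs0.le
        _ = (n : ℝ) * ((n : ℝ) * ((s : ℝ) + 1) * c') := by ring
        _ ≤ (n : ℝ) * ((k : ℝ) * ((w₁ + k : ℕ) : ℝ) * c₂) :=
            mul_le_mul_of_nonneg_left h8 hnpos.le
        _ = (2 * (n : ℝ) * k * ((w₁ + k : ℕ) : ℝ)) * (c₂ / 2) := by ring
        _ ≤ (((k : ℝ) + 1 - d) * (T : ℝ) ^ 2) * (c₂ / 2) :=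
            mul_le_mul_of_nonneg_right hcR (by positivity)
        _ ≤ ((2 * ((s : ℝ) + 1)) * (T : ℝ) ^ 2) * (c₂ / 2) := by
            apply mul_le_mul_of_nonneg_right _ (by positivity)
            exact mul_le_mul_of_nonneg_right hsR hTpos.le
        _ = _ := by ring
    exact le_of_mul_le_mul_left h11 (by positivity)
  have hfin' : (C.card : ℝ) ≤ (C₂.card : ℝ) := hfin
  exact shrink C C₂ (by exact_mod_cast hfin') hC₂ hD₂

end Pool.Agent.Hhelper49.CWD
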