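import Pool.Agent.Hhelper49.CWD.TourNum
import Pool.Agent.Hhelper49.CWD.Far2

set_option autoImplicit false

/-! Adding one point of a small set `T` to every codeword, chosen by a tournament on `T`. -/

namespace Pool.Agent.Hhelper49.CWD

open Pool.Agent.Hhelper49.CWC

/-- Averaging over the `m`-subsets. -/
theorem exists_T (n w m i c : ℕ) (hm : m ≤ n) (him : i ≤ m) (C : Finset (Finset (Fin n)))
    (hC : ∀ s ∈ C, s.card = w) (hc : C.card ≤ c) :
    ∃ T : Finset (Fin n), T.card = m ∧
      (C.filter (fun x => i ≤ (x ∩ T).card)).card * n.choose i ≤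
        c * w.choose i * m.choose i := by
  classical
  by_contra hcon
  push Not at hcon
  set P := Finset.powersetCard m (Finset.univ : Finset (Fin n)) with hP
  have hPc : P.card = n.choose m := by
    rw [hP, Finset.card_powersetCard, Finset.card_univ, Fintype.card_fin]
  have hmem : ∀ T, T ∈ P ↔ T.card = m := by
    intro T
    rw [hP, Finset.mem_powersetCard]
    exact ⟨fun h => h.2, fun h => ⟨Finset.subset_univ _, h⟩⟩
  have hPne : P.Nonempty := by
    rw [← Finset.card_pos, hPc]
    exact Nat.choose_pos hm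
  -- upper bound for the double count
  have hsup : ∀ B : Finset (Fin n), B.card = i →
      (P.filter (fun T => B ⊆ T)).card ≤ (n - i).choose (m - i) := by
    intro B hB
    have e1 : (n - i).choose (m - i) = (Finset.powersetCard (m - i) Bᶜ).card := by
      rw [Finset.card_powersetCard, Finset.card_compl, Fintype.card_fin, hB]
    rw [e1]
    apply Finset.card_le_card_of_injOn (fun T => T \ B)
    · intro T hT
      rw [Finset.mem_coe, Finset.mem_filter, hmem] at hT
      rw [Finset.mem_coe, Finset.mem_powersetCard]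
      constructor
      · intro z hz
        rw [Finset.mem_sdiff] at hz
        rw [Finset.mem_compl]
        exact hz.2
      · rw [Finset.card_sdiff_of_subset hT.2, hT.1, hB]
    · intro T hT T' hT' h
      rw [Finset.mem_coe, Finset.mem_filter] at hT hT'
      have h' : T \ B = T' \ B := h
      rw [← Finset.sdiff_union_of_subset hT.2, ← Finset.sdiff_union_of_subset hT'.2, h']
  have hdc : ∑ T ∈ P, (C.filter (fun x => i ≤ (x ∩ T).card)).card ≤
      C.card * (w.choose i * (n - i).choose (m - i)) := by
    have e1 : ∀ T ∈ P, (C.filter (fun x => i ≤ (x ∩ T).card)).card =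
        ∑ x ∈ C, if i ≤ (x ∩ T).card then 1 else 0 := by
      intro T _
      rw [Finset.card_filter]
    rw [Finset.sum_congr rfl e1, Finset.sum_comm]
    have e2 : ∀ x ∈ C, (∑ T ∈ P, if i ≤ (x ∩ T).card then 1 else 0) ≤
        w.choose i * (n - i).choose (m - i) := by
      intro x hx
      rw [← Finset.card_filter]
      calc (P.filter (fun T => i ≤ (x ∩ T).card)).card
          ≤ ((Finset.powersetCard i x).biUnion (fun B => P.filter (fun T => B ⊆ T))).card := by
            apply Finset.card_le_card
            intro T hT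
            rw [Finset.mem_filter] at hT
            obtain ⟨B, hB1, hB2⟩ := Finset.exists_subset_card_eq hT.2
            rw [Finset.mem_biUnion]
            refine ⟨B, ?_, ?_⟩
            · rw [Finset.mem_powersetCard]
              exact ⟨hB1.trans Finset.inter_subset_left, hB2⟩
            · rw [Finset.mem_filter]
              exact ⟨hT.1, hB1.trans Finset.inter_subset_right⟩
        _ ≤ ∑ B ∈ Finset.powersetCard i x, (P.filter (fun T => B ⊆ T)).card :=
            Finset.card_biUnion_le
        _ ≤ ∑ _B ∈ Finset.powersetCard i x, (n - i).choose (m - i) := by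
            apply Finset.sum_le_sum
            intro B hB
            rw [Finset.mem_powersetCard] at hB
            exact hsup B hB.2
        _ = _ := by
            rw [Finset.sum_const, Finset.card_powersetCard, hC x hx, smul_eq_mul]
    calc ∑ x ∈ C, (∑ T ∈ P, if i ≤ (x ∩ T).card then 1 else 0)
        ≤ ∑ _x ∈ C, w.choose i * (n - i).choose (m - i) := Finset.sum_le_sum e2
      _ = _ := by rw [Finset.sum_const, smul_eq_mul]
  have hlow : P.card * (c * w.choose i * m.choose i) <
      (∑ T ∈ P, (C.filter (fun x => i ≤ (x ∩ T).card)).card) * n.choose i := by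
    rw [Finset.sum_mul, ← smul_eq_mul, ← Finset.sum_const]
    apply Finset.sum_lt_sum_of_nonempty hPne
    intro T hT
    exact hcon T ((hmem T).mp hT)
  have hfin : (∑ T ∈ P, (C.filter (fun x => i ≤ (x ∩ T).card)).card) * n.choose i ≤
      P.card * (c * w.choose i * m.choose i) := by
    calc (∑ T ∈ P, (C.filter (fun x => i ≤ (x ∩ T).card)).card) * n.choose i
        ≤ (C.card * (w.choose i * (n - i).choose (m - i))) * n.choose i :=
          Nat.mul_le_mul_right _ hdc
      _ ≤ (c * (w.choose i * (n - i).choose (m - i))) * n.choose i :=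
          Nat.mul_le_mul_right _ (Nat.mul_le_mul_right _ hc)
      _ = c * w.choose i * (n.choose i * (n - i).choose (m - i)) := by ring
      _ = c * w.choose i * (n.choose m * m.choose i) := by rw [Nat.choose_mul him]
      _ = _ := by rw [hPc]; ring
  omega

/-- The step for one code. -/
theorem step_one (n d w j : ℕ) (hd : 1 ≤ d) (T : Finset (Fin n)) (hT : T.card = sz j)
    (hj : 1 ≤ j) (C : Finset (Finset (Fin n))) (hC : ∀ s ∈ C, s.card = w)
    (hD : ∀ s ∈ C, ∀ t ∈ C, s ≠ t → d ≤ (symmDiff s t).card)
    (hCT : ∀ x ∈ C, (x ∩ T).card ≤ j) :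
    ∃ C' : Finset (Finset (Fin n)), C'.card = C.card ∧ (∀ s ∈ C', s.card = w + 1) ∧
      (∀ s ∈ C', ∀ t ∈ C', s ≠ t → d ≤ (symmDiff s t).card) := by
  classical
  obtain ⟨R, hR, hdom⟩ := tour j hj
  let e : {x // x ∈ T} ≃ Fin (sz j) := T.equivFinOfCardEq hT
  -- choice of the added point
  have hch : ∀ x : Finset (Fin n), (x ∩ T).card ≤ j → ∃ u : {u // u ∈ T},
      ∀ a : {a // a ∈ T}, a.val ∈ x → R (e u) (e a) := by
    intro x hx
    set A : Finset (Fin (sz j)) := (Finset.univ.filter (fun a : {a // a ∈ T} => a.val ∈ x)).map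
      e.toEmbedding with hA
    have hAc : A.card ≤ j := by
      rw [hA, Finset.card_map]
      refine le_trans (le_of_eq ?_) hx
      rw [← Finset.card_map (Function.Embedding.subtype _)]
      congr 1
      ext z
      simp only [Finset.mem_map, Finset.mem_filter, Finset.mem_univ, true_and,
        Function.Embedding.coe_subtype, Finset.mem_inter]
      constructor
      · rintro ⟨a, ha, rfl⟩
        exact ⟨ha, a.2⟩
      · rintro ⟨h1, h2⟩
        exact ⟨⟨z, h2⟩, h1, rfl⟩
    obtain ⟨v, hv⟩ := hdom A hAc
    refine ⟨e.symm v, ?_⟩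
    intro a ha
    rw [Equiv.apply_symm_apply]
    apply hv
    rw [hA, Finset.mem_map]
    exact ⟨a, by simp [ha], rfl⟩
  have hirr : ∀ a, ¬ R a a := fun a h => hR a a h h
  have : Nonempty {x // x ∈ T} := by
    have h0 : 0 < T.card := by
      rw [hT]
      unfold sz
      omega
    obtain ⟨t, ht⟩ := Finset.card_pos.mp h0
    exact ⟨⟨t, ht⟩⟩
  choose! u hu using hch
  set f : Finset (Fin n) → Finset (Fin n) := fun x => insert (u x).val x with hf
  have hnot : ∀ x ∈ C, (u x).val ∉ x := by
    intro x hx hcon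
    exact hirr _ (hu x (hCT x hx) (u x) hcon)
  have hcard : ∀ x ∈ C, (f x).card = w + 1 := by
    intro x hx
    rw [hf]
    show (insert (u x).val x).card = w + 1
    rw [Finset.card_insert_of_notMem (hnot x hx), hC x hx]
  have hdist : ∀ x ∈ C, ∀ y ∈ C, x ≠ y → d ≤ (symmDiff (f x) (f y)).card := by
    intro x hx y hy hxy
    have h1 := hD x hx y hy hxy
    have h2 := card_symmDiff_add x y
    have h3 := card_symmDiff_add (f x) (f y)
    rw [hcard x hx, hcard y hy] at h3
    rw [hC x hx, hC y hy] at h2
    have h4 : (f x ∩ f y).card ≤ (x ∩ y).card + 1 := by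
      by_cases hv : (u y).val ∈ x
      · have hux : (u x).val ∉ y := by
          intro hcon
          exact hR _ _ (hu x (hCT x hx) (u y) hv) (hu y (hCT y hy) (u x) hcon)
        calc (f x ∩ f y).card ≤ (insert (u y).val (x ∩ y)).card := by
              apply Finset.card_le_card
              intro z hz
              rw [hf, Finset.mem_inter] at hz
              obtain ⟨h5, h6⟩ := hz
              rw [Finset.mem_insert] at h5 h6
              rw [Finset.mem_insert, Finset.mem_inter]
              rcases h6 with h6 | h6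
              · exact Or.inl h6
              · right
                rcases h5 with h5 | h5
                · rw [h5] at h6
                  exact absurd h6 hux
                · exact ⟨h5, h6⟩
          _ ≤ _ := Finset.card_insert_le _ _
      · calc (f x ∩ f y).card ≤ (insert (u x).val (x ∩ y)).card := by
              apply Finset.card_le_card
              intro z hz
              rw [hf, Finset.mem_inter] at hz
              obtain ⟨h5, h6⟩ := hz
              rw [Finset.mem_insert] at h5 h6
              rw [Finset.mem_insert, Finset.mem_inter]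
              rcases h5 with h5 | h5
              · exact Or.inl h5
              · right
                rcases h6 with h6 | h6
                · rw [h6] at h5
                  exact absurd h5 hv
                · exact ⟨h5, h6⟩
          _ ≤ _ := Finset.card_insert_le _ _
    omega
  have hinj : Set.InjOn f C := by
    intro x hx y hy hxy
    by_contra hne
    have := hdist x hx y hy hne
    rw [hxy, symmDiff_self] at this
    simp at this
    omega
  refine ⟨C.image f, Finset.card_image_of_injOn hinj, ?_, ?_⟩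
  · intro s hs
    obtain ⟨x, hx, rfl⟩ := Finset.mem_image.mp hs
    exact hcard x hx
  · intro s hs t ht hst
    obtain ⟨x, hx, rfl⟩ := Finset.mem_image.mp hs
    obtain ⟨y, hy, rfl⟩ := Finset.mem_image.mp ht
    exact hdist x hx y hy (fun h => hst (by rw [h]))

/-- A chain of `k` steps. -/
theorem chain (n d w₁ j : ℕ) (hd : 1 ≤ d) (hj : 1 ≤ j) (hm : sz j ≤ n) (c D W : ℕ)
    (hD0 : c * W.choose (j + 1) * (sz j).choose (j + 1) < (D + 1) * n.choose (j + 1)) :
    ∀ k : ℕ, w₁ + k ≤ W → ∀ C : Finset (Finset (Fin n)), (∀ s ∈ C, s.card = w₁) →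
      (∀ s ∈ C, ∀ t ∈ C, s ≠ t → d ≤ (symmDiff s t).card) → C.card ≤ c →
      ∃ C' : Finset (Finset (Fin n)), C'.card ≤ C.card ∧ C.card ≤ C'.card + k * D ∧
        (∀ s ∈ C', s.card = w₁ + k) ∧
        (∀ s ∈ C', ∀ t ∈ C', s ≠ t → d ≤ (symmDiff s t).card) := by
  intro k
  induction k with
  | zero =>
    intro _ C hC hDD _
    exact ⟨C, le_refl _, by omega, hC, hDD⟩
  | succ k ih =>
    intro hk C hC hDD hc
    obtain ⟨C1, g0, g1, g2, g3⟩ := ih (by omega) C hC hDD hc
    have him : j + 1 ≤ sz j := by
      unfold sz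
      have : 0 < 4 * j ^ 2 * 2 ^ j := by positivity
      omega
    obtain ⟨T, hT, hb⟩ := exists_T n (w₁ + k) (sz j) (j + 1) c hm him C1 g2 (by omega)
    have hch : (w₁ + k).choose (j + 1) ≤ W.choose (j + 1) :=
      Nat.choose_le_choose _ (by omega)
    have hbad : (C1.filter (fun x => j + 1 ≤ (x ∩ T).card)).card ≤ D := by
      have h1 : (C1.filter (fun x => j + 1 ≤ (x ∩ T).card)).card * n.choose (j + 1) <
          (D + 1) * n.choose (j + 1) := by
        refine lt_of_le_of_lt (hb.trans ?_) hD0
        exact Nat.mul_le_mul_right _ (Nat.mul_le_mul_left _ hch)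
      have := Nat.lt_of_mul_lt_mul_right h1
      omega
    set C2 := C1.filter (fun x => ¬ j + 1 ≤ (x ∩ T).card) with hC2
    have hsum : (C1.filter (fun x => j + 1 ≤ (x ∩ T).card)).card + C2.card = C1.card :=
      Finset.card_filter_add_card_filter_not _
    obtain ⟨C3, e1, e2, e3⟩ := step_one n d (w₁ + k) j hd T hT hj C2
      (fun s hs => g2 s (Finset.mem_filter.mp hs).1)
      (fun s hs t ht hne => g3 s (Finset.mem_filter.mp hs).1 t (Finset.mem_filter.mp ht).1 hne)
      (fun x hx => by
        have := (Finset.mem_filter.mp hx).2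
        omega)
    refine ⟨C3, by omega, ?_, e2, e3⟩
    rw [Nat.succ_mul]
    omega

/-- Adding points by tournaments: for every `j ≥ 1` at most `(w₂ - w₁) ⌊|C| (2 m w₁ / n)^(j+1)⌋`
codewords are lost, `m = j + 4 j² 2^j`. -/
theorem tour_mono (n d w₁ w₂ j : ℕ) (hd : 1 ≤ d) (hj : 1 ≤ j) (h12 : w₁ ≤ w₂) (hn : 2 * w₂ ≤ n)
    (C : Finset (Finset (Fin n))) (hC : ∀ s ∈ C, s.card = w₁)
    (hD : ∀ s ∈ C, ∀ t ∈ C, s ≠ t → d ≤ (symmDiff s t).card) :
    ∃ C' : Finset (Finset (Fin n)),
      C.card ≤ C'.card + (w₂ - w₁) * (C.card * (2 * sz j * w₁) ^ (j + 1) / n ^ (j + 1)) ∧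
      (∀ s ∈ C', s.card = w₂) ∧
      (∀ s ∈ C', ∀ t ∈ C', s ≠ t → d ≤ (symmDiff s t).card) := by
  rcases Nat.eq_or_lt_of_le h12 with heq | hlt
  · subst heq
    exact ⟨C, by omega, hC, hD⟩
  rcases Nat.lt_or_ge (2 * sz j * w₁) n with hs | hs
  swap
  · -- the loss term is at least the size
    refine ⟨∅, ?_, by simp, by simp⟩
    have hnpos : 0 < n := by omega
    have h1 : C.card ≤ C.card * (2 * sz j * w₁) ^ (j + 1) / n ^ (j + 1) := by
      rw [Nat.le_div_iff_mul_le (by positivity)]
      exact Nat.mul_le_mul_left _ (Nat.pow_le_pow_left hs _)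
    have h2 : 1 * (C.card * (2 * sz j * w₁) ^ (j + 1) / n ^ (j + 1)) ≤
        (w₂ - w₁) * (C.card * (2 * sz j * w₁) ^ (j + 1) / n ^ (j + 1)) :=
      Nat.mul_le_mul_right _ (by omega)
    omega
  have hsz : 9 ≤ sz j := by
    unfold sz
    have h1 : 1 ≤ j ^ 2 := Nat.one_le_pow _ _ hj
    have h2 : 2 ≤ 2 ^ j := by
      calc 2 = 2 ^ 1 := rfl
        _ ≤ 2 ^ j := Nat.pow_le_pow_right (by norm_num) hj
    nlinarith
  have h18 : 18 * w₁ < n := by nlinarith
  rcases Nat.lt_or_ge w₂ (2 * w₁) with h2 | h2
  swap
  · obtain ⟨C', g1, g2, g3⟩ := mono_double n d w₁ w₂ hd h2 hn (by omega) C hC hD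
    exact ⟨C', by omega, g2, g3⟩
  have hw1 : 1 ≤ w₁ := by omega
  have hmn : sz j ≤ n := by nlinarith
  set D := C.card * (2 * sz j * w₁) ^ (j + 1) / n ^ (j + 1) with hDdef
  have hnpos : 0 < n ^ (j + 1) := Nat.pow_pos (by omega)
  have hlt1 : C.card * (2 * sz j * w₁) ^ (j + 1) < (D + 1) * n ^ (j + 1) := by
    rw [Nat.mul_comm (D + 1), hDdef]
    exact Nat.lt_mul_div_succ _ hnpos
  have hcond : C.card * (2 * w₁).choose (j + 1) * (sz j).choose (j + 1) <
      (D + 1) * n.choose (j + 1) := by
    have c1 := choose_mul_pow (j + 1) (2 * w₁) n (by omega)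
    have c2 : (sz j).choose (j + 1) ≤ (sz j) ^ (j + 1) := Nat.choose_le_pow _ _
    have c3 : 0 < n.choose (j + 1) := Nat.choose_pos (by
      have : j + 1 ≤ sz j := by
        unfold sz
        have : 0 < 4 * j ^ 2 * 2 ^ j := by positivity
        omega
      omega)
    have c4 : (C.card * (2 * w₁).choose (j + 1) * (sz j).choose (j + 1)) * n ^ (j + 1) <
        ((D + 1) * n.choose (j + 1)) * n ^ (j + 1) := by
      calc (C.card * (2 * w₁).choose (j + 1) * (sz j).choose (j + 1)) * n ^ (j + 1)
          = C.card * (sz j).choose (j + 1) * ((2 * w₁).choose (j + 1) * n ^ (j + 1)) := by ring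
        _ ≤ C.card * (sz j) ^ (j + 1) * (n.choose (j + 1) * (2 * w₁) ^ (j + 1)) :=
            Nat.mul_le_mul (Nat.mul_le_mul_left _ c2) c1
        _ = (C.card * (2 * sz j * w₁) ^ (j + 1)) * n.choose (j + 1) := by
            rw [mul_pow, mul_pow, mul_pow]
            ring
        _ < ((D + 1) * n ^ (j + 1)) * n.choose (j + 1) := Nat.mul_lt_mul_of_lt_of_le hlt1 le_rfl c3
        _ = _ := by ring
    exact Nat.lt_of_mul_lt_mul_right c4
  obtain ⟨C', g0, g1, g2, g3⟩ := chain n d w₁ j hd hj hmn C.card D (2 * w₁) hcond (w₂ - w₁)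
    (by omega) C hC hD (le_refl _)
  have e : w₁ + (w₂ - w₁) = w₂ := by omega
  rw [e] at g2
  exact ⟨C', g1, g2, g3⟩

end Pool.Agent.Hhelper49.CWD
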