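import Pool.Agent.Hhelper49.CWD.Square2
import Pool.Agent.Hhelper49.CWD.Step
import Pool.Agent.Hhelper49.CWD.Small2
import Pool.Agent.Hhelper49.CWD.Sep3
import Pool.Agent.Hhelper49.CWD.Far4

set_option autoImplicit false

/-! The theorems handed in. -/

namespace Pool.Agent.Hhelper49.CWD

open Pool.Agent.Hhelper49.CWC

theorem approx (n d w₁ w₂ : ℕ) (hd : 1 ≤ d) (hw : 1 ≤ w₁) (h12 : w₁ < w₂) (hn : 2 * w₂ ≤ n)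
    (C : Finset (Finset (Fin n))) (hC : ∀ s ∈ C, s.card = w₁)
    (hD : ∀ s ∈ C, ∀ t ∈ C, s ≠ t → d ≤ (symmDiff s t).card) :
    ∃ C' : Finset (Finset (Fin n)),
      (∀ s ∈ C', s.card = w₂) ∧
      (∀ s ∈ C', ∀ t ∈ C', s ≠ t → d ≤ (symmDiff s t).card) ∧
      (4 * w₁ ≤ n → ((n : ℝ) - 4 * w₁) ^ 2 * (C.card : ℝ) ≤ (n : ℝ) ^ 2 * (C'.card : ℝ)) ∧
      ((C.card : ℝ) ≤ (4 / 3 + 9 * √(((w₂ : ℝ) - w₁) * w₁ / (n - 2 * w₁))) * (C'.card : ℝ)) ∧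
      ((C.card : ℝ) ≤ 4 * √(w₁ : ℝ) * (C'.card : ℝ)) ∧
      (∀ j : ℕ, 1 ≤ j → C.card ≤ C'.card + (w₂ - w₁) *
        (C.card * (2 * (j + 4 * j ^ 2 * 2 ^ j) * w₁) ^ (j + 1) / n ^ (j + 1))) := by
  obtain ⟨C', ⟨h1, h2⟩, hmax⟩ := exists_largest n d w₂
  refine ⟨C', h1, h2, ?_, ?_, ?_, ?_⟩
  · intro h4
    obtain ⟨k, rfl⟩ : ∃ k, w₂ = w₁ + k := ⟨w₂ - w₁, by omega⟩
    obtain ⟨C'', g1, g2, g3⟩ := bounded_sq n d w₁ k hn h4 C hC hD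
    have hle : (C''.card : ℝ) ≤ (C'.card : ℝ) := by exact_mod_cast hmax C'' g2 g3
    exact g1.trans (mul_le_mul_of_nonneg_left hle (by positivity))
  · obtain ⟨C'', g1, g2, g3⟩ := almost_mono2 n d w₁ w₂ hw h12 hn C hC hD
    have hle : (C''.card : ℝ) ≤ (C'.card : ℝ) := by exact_mod_cast hmax C'' g2 g3
    exact g1.trans (mul_le_mul_of_nonneg_left hle (by positivity))
  · obtain ⟨C'', g1, g2, g3⟩ := almost_mono n d w₁ w₂ hw h12.le hn C hC hD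
    have hle : (C''.card : ℝ) ≤ (C'.card : ℝ) := by exact_mod_cast hmax C'' g2 g3
    exact g1.trans (mul_le_mul_of_nonneg_left hle (by positivity))
  · intro j hj
    obtain ⟨C'', g1, g2, g3⟩ := tour_mono n d w₁ w₂ j hd hj h12.le hn C hC hD
    have hle := hmax C'' g2 g3
    have g1' : C.card ≤ C''.card + (w₂ - w₁) *
        (C.card * (2 * (j + 4 * j ^ 2 * 2 ^ j) * w₁) ^ (j + 1) / n ^ (j + 1)) := g1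
    omega

/-- All distances. -/
theorem far (n d w₁ w₂ : ℕ) (hd : 1 ≤ d) (h12 : w₁ < w₂) (hn : 2 * w₂ ≤ n)
    (hfar : (2 * w₁ ≤ w₂ ∧ 8 * w₁ + 7 ≤ n) ∨
      (w₂ ≤ 2 * w₁ ∧ 2 ^ w₁ * (5 * w₁) ^ (w₂ - w₁) ≤ n ^ (w₂ - w₁))) : Mono n d w₁ w₂ := by
  rcases hfar with ⟨h1, h2⟩ | ⟨h1, h2⟩
  · exact mono_double8 n d w₁ w₂ hd h1 hn h2
  · have h3 := mono_near n d w₁ (w₂ - w₁) hd (by omega) (by omega) h2
    have e : w₁ + (w₂ - w₁) = w₂ := by omega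
    rwa [e] at h3

/-- Small distances. -/
theorem small (n d w₁ w₂ : ℕ) (hd : 1 ≤ d) (h12 : w₁ < w₂) (hn : 2 * w₂ ≤ n)
    (hs : (∃ ε : ℝ, 0 < ε ∧ ε ≤ 1 ∧
        (1 + ε) * ((d : ℝ) * (n - 2 * w₁)) ≤ 2 * (((w₂ : ℝ) - w₁) * (n - w₁ - w₂)) ∧
        400000 * (n : ℝ) ^ 3 ≤ ε ^ 4 * (((w₂ : ℝ) - w₁) * (n - 2 * w₁) ^ 3)) ∨
      (4 * w₁ ≤ n ∧ d ≤ w₂ - w₁ ∧
        2 * n * (w₂ - w₁) * w₂ ≤ (w₂ - w₁ + 1 - d) * (n - 4 * w₁) ^ 2) ∨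
      (4 * ((d + 1) / 2 - 1)) ^ (((d + 1) / 2 - 1) * n) ≤ 2 ^ ((w₂ - w₁) * (n - w₁ - w₂)) ∨
      (d ≤ 4 ∧ 8 * w₂ ≤ 3 * n) ∨
      w₂ * 2 ^ d * ((d + 1) / 2 - 1).factorial ≤ n) :
    Mono n d w₁ w₂ := by
  rcases hs with ⟨ε, h1, h2, h3, h4⟩ | ⟨h1, h2, h3⟩ | h | h | h
  · exact separated ε h1 h2 n d w₁ w₂ hd h12 hn h3 h4
  · exact separated_small n d w₁ w₂ hd h12 hn h1 h2 h3
  · exact mono_small n d w₁ w₂ hd h12.le hn h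
  · exact mono_fixed n d w₁ w₂ hd h12.le (Or.inl h)
  · exact mono_fixed n d w₁ w₂ hd h12.le (Or.inr h)

end Pool.Agent.Hhelper49.CWD
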