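import Pool.Agent.Hhelper49.CWC.Main
import Pool.Agent.Hhelper49.CWD.Ballot

set_option autoImplicit false

/-! Good cut points of a word, and the complementation of an initial segment up to a good
cut point: distances do not decrease. -/

namespace Pool.Agent.Hhelper49.CWD

open Pool.Agent.Hhelper49.CWC

/-- Number of elements below `q`. -/
def cnt {n : ℕ} (x : Finset (Fin n)) (q : ℕ) : ℕ := (x.filter (fun i => i.val < q)).card

/-- Initial segment. -/
def seg (n r : ℕ) : Finset (Fin n) := Finset.univ.filter (fun i => i.val < r)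

/-- `r` is a good cut point of `x` for the increase `k` of the weight. -/
def Good {n : ℕ} (k r : ℕ) (x : Finset (Fin n)) : Prop :=
  2 * cnt x r + k = r ∧ (∀ q, q ≤ r → 4 * cnt x r ≤ 4 * cnt x q + (r - q)) ∧
    (∀ q, r ≤ q → q ≤ n → 4 * cnt x q ≤ 4 * cnt x r + (q - r))

theorem cnt_eq {n : ℕ} (x : Finset (Fin n)) (q : ℕ) : cnt x q = (x ∩ seg n q).card := by
  unfold cnt seg
  congr 1
  ext i
  simp

theorem card_seg {n r : ℕ} (hr : r ≤ n) : (seg n r).card = r := by
  unfold seg
  rw [Fin.card_filter_val_lt]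
  omega

theorem seg_mono {n r s : ℕ} (h : r ≤ s) : seg n r ⊆ seg n s := by
  intro i hi
  unfold seg at *
  rw [Finset.mem_filter] at *
  exact ⟨hi.1, by omega⟩

theorem cnt_mono {n : ℕ} (x : Finset (Fin n)) {q r : ℕ} (h : q ≤ r) : cnt x q ≤ cnt x r := by
  rw [cnt_eq, cnt_eq]
  exact Finset.card_le_card (Finset.inter_subset_inter_left (seg_mono h))

theorem card_inter_block {n : ℕ} (x : Finset (Fin n)) {r s : ℕ} (h : r ≤ s) :
    (x ∩ (seg n s \ seg n r)).card + cnt x r = cnt x s := by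
  rw [cnt_eq, cnt_eq, ← Finset.card_union_of_disjoint]
  · congr 1
    ext i
    simp only [Finset.mem_union, Finset.mem_inter, Finset.mem_sdiff]
    constructor
    · rintro (⟨h1, h2, -⟩ | ⟨h1, h2⟩)
      · exact ⟨h1, h2⟩
      · exact ⟨h1, seg_mono h h2⟩
    · rintro ⟨h1, h2⟩
      by_cases h3 : i ∈ seg n r
      · exact Or.inr ⟨h1, h3⟩
      · exact Or.inl ⟨h1, h2, h3⟩
  · rw [Finset.disjoint_left]
    intro i hi hi'
    exact (Finset.mem_sdiff.mp (Finset.mem_inter.mp hi).2).2 (Finset.mem_inter.mp hi').2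

/-- Distances do not decrease. -/
theorem dist_le {n k r s : ℕ} (hrs : r ≤ s) (hs : s ≤ n) (x y : Finset (Fin n))
    (hx : Good k r x) (hy : Good k s y) :
    (symmDiff x y).card ≤ (symmDiff (symmDiff x (seg n r)) (symmDiff y (seg n s))).card := by
  have h1 : symmDiff (symmDiff x (seg n r)) (symmDiff y (seg n s)) =
      symmDiff (symmDiff x y) (symmDiff (seg n r) (seg n s)) := by
    rw [symmDiff_symmDiff_symmDiff_comm]
  have h2 : symmDiff (seg n r) (seg n s) = seg n s \ seg n r := by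
    rw [symmDiff_def, Finset.sdiff_eq_empty_iff_subset.mpr (seg_mono hrs)]
    simp
  rw [h1, h2]
  set Q := seg n s \ seg n r with hQ
  have hQc : Q.card = s - r := by
    rw [hQ, Finset.card_sdiff_of_subset (seg_mono hrs), card_seg hs, card_seg (by omega)]
  have h3 := card_symmDiff_add (symmDiff x y) Q
  have h4 : (symmDiff x y ∩ Q).card ≤ (x ∩ Q).card + (y ∩ Q).card := by
    refine (Finset.card_le_card ?_).trans (Finset.card_union_le _ _)
    intro i hi
    rw [Finset.mem_inter, Finset.mem_symmDiff] at hi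
    rw [Finset.mem_union, Finset.mem_inter, Finset.mem_inter]
    rcases hi with ⟨⟨h, -⟩ | ⟨h, -⟩, h'⟩
    · exact Or.inl ⟨h, h'⟩
    · exact Or.inr ⟨h, h'⟩
  have h5 := card_inter_block x hrs
  have h6 := card_inter_block y hrs
  have h7 := hx.2.2 s hrs hs
  have h8 := hy.2.1 r hrs
  rw [← hQ] at h5 h6
  omega

/-- The weight after complementation. -/
theorem card_flip {n k r : ℕ} (hr : r ≤ n) (x : Finset (Fin n)) (hx : Good k r x) :
    (symmDiff x (seg n r)).card = x.card + k := by
  have h3 := card_symmDiff_add x (seg n r)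
  rw [card_seg hr, ← cnt_eq] at h3
  have := hx.1
  omega

/-- Good cut points are unique. -/
theorem good_unique {n k r s : ℕ} (hrs : r ≤ s) (hs : s ≤ n) (x : Finset (Fin n))
    (hx : Good k r x) (hy : Good k s x) : r = s := by
  have h1 := hx.1
  have h2 := hy.1
  have h3 := hx.2.2 s hrs hs
  omega

/-- The image code. -/
theorem flip_all {n : ℕ} (C : Finset (Finset (Fin n))) (w k d : ℕ) (hC : ∀ s ∈ C, s.card = w)
    (hD : ∀ s ∈ C, ∀ t ∈ C, s ≠ t → d ≤ (symmDiff s t).card)
    (D : Finset (Finset (Fin n))) (hDC : D ⊆ C) (hDg : ∀ x ∈ D, ∃ r, r ≤ n ∧ Good k r x) :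
    ∃ C' : Finset (Finset (Fin n)), C'.card = D.card ∧ (∀ s ∈ C', s.card = w + k) ∧
      (∀ s ∈ C', ∀ t ∈ C', s ≠ t → d ≤ (symmDiff s t).card) := by
  classical
  choose! ρ hρ using hDg
  have key : ∀ x ∈ D, ∀ y ∈ D, (symmDiff x y).card ≤
      (symmDiff (symmDiff x (seg n (ρ x))) (symmDiff y (seg n (ρ y)))).card := by
    intro x hx y hy
    rcases Nat.le_total (ρ x) (ρ y) with h | h
    · exact dist_le h (hρ y hy).1 x y (hρ x hx).2 (hρ y hy).2
    · have h1 := dist_le h (hρ x hx).1 y x (hρ y hy).2 (hρ x hx).2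
      rw [symmDiff_comm y x] at h1
      rw [symmDiff_comm (symmDiff x (seg n (ρ x)))]
      exact h1
  refine ⟨D.image (fun x => symmDiff x (seg n (ρ x))), ?_, ?_, ?_⟩
  · apply Finset.card_image_of_injOn
    intro x hx y hy hxy
    have h1 := key x hx y hy
    have h2 : symmDiff x (seg n (ρ x)) = symmDiff y (seg n (ρ y)) := hxy
    rw [h2, symmDiff_self] at h1
    have h3 : (symmDiff x y).card = 0 := by
      have : (⊥ : Finset (Fin n)).card = 0 := Finset.card_empty
      omega
    rw [Finset.card_eq_zero] at h3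
    exact symmDiff_eq_bot.mp h3
  · intro s hs
    obtain ⟨x, hx, rfl⟩ := Finset.mem_image.mp hs
    rw [card_flip (hρ x hx).1 x (hρ x hx).2, hC x (hDC hx)]
  · intro s hs t ht hne
    obtain ⟨x, hx, rfl⟩ := Finset.mem_image.mp hs
    obtain ⟨y, hy, rfl⟩ := Finset.mem_image.mp ht
    refine (hD x (hDC hx) y (hDC hy) ?_).trans (key x hx y hy)
    rintro rfl
    exact hne rfl

end Pool.Agent.Hhelper49.CWD
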