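import Mathlib

set_option autoImplicit false
set_option linter.unusedSectionVars false

/-! Averaging over all permutations of the coordinates. -/

namespace Pool.Agent.Hhelper49.CWD

variable {V : Type*} [DecidableEq V] [Fintype V]

/-- Image of a set under a permutation. -/
def act (σ : Equiv.Perm V) (s : Finset V) : Finset V := s.map σ.toEmbedding

theorem card_act (σ : Equiv.Perm V) (s : Finset V) : (act σ s).card = s.card :=
  Finset.card_map _

theorem act_symmDiff (σ : Equiv.Perm V) (s t : Finset V) :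
    symmDiff (act σ s) (act σ t) = act σ (symmDiff s t) := by
  ext x
  simp only [act, Finset.mem_symmDiff, Finset.mem_map, Equiv.coe_toEmbedding]
  constructor
  · rintro (⟨⟨y, hy, rfl⟩, h⟩ | ⟨⟨y, hy, rfl⟩, h⟩)
    · exact ⟨y, Or.inl ⟨hy, fun h' => h ⟨y, h', rfl⟩⟩, rfl⟩
    · exact ⟨y, Or.inr ⟨hy, fun h' => h ⟨y, h', rfl⟩⟩, rfl⟩
  · rintro ⟨y, ⟨hy, h⟩ | ⟨hy, h⟩, rfl⟩
    · refine Or.inl ⟨⟨y, hy, rfl⟩, ?_⟩
      rintro ⟨z, hz, hzy⟩
      rw [σ.injective hzy] at hz
      exact h hz
    · refine Or.inr ⟨⟨y, hy, rfl⟩, ?_⟩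
      rintro ⟨z, hz, hzy⟩
      rw [σ.injective hzy] at hz
      exact h hz

theorem exists_act (s t : Finset V) (h : s.card = t.card) : ∃ σ : Equiv.Perm V, act σ s = t := by
  classical
  have hc : Fintype.card {x // x ∈ s} = Fintype.card {x // x ∈ t} := by
    rw [Fintype.card_coe, Fintype.card_coe, h]
  let e : {x // x ∈ s} ≃ {x // x ∈ t} := Fintype.equivOfCardEq hc
  refine ⟨e.extendSubtype, ?_⟩
  apply Finset.eq_of_subset_of_card_le
  · intro y hy
    unfold act at hy
    rw [Finset.mem_map] at hy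
    obtain ⟨x, hx, rfl⟩ := hy
    exact e.extendSubtype_mem x hx
  · rw [card_act, h]

theorem act_mul (σ τ : Equiv.Perm V) (s : Finset V) : act (σ * τ) s = act σ (act τ s) := by
  ext x
  simp only [act, Finset.mem_map, Equiv.coe_toEmbedding]
  constructor
  · rintro ⟨y, hy, rfl⟩
    exact ⟨τ y, ⟨y, hy, rfl⟩, rfl⟩
  · rintro ⟨z, ⟨y, hy, rfl⟩, rfl⟩
    exact ⟨y, hy, rfl⟩

/-- Number of permutations carrying `s` to `t`. -/
def num (s t : Finset V) : ℕ := (Finset.univ.filter (fun σ : Equiv.Perm V => act σ s = t)).card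

theorem num_le (s t s' t' : Finset V) (hs : s'.card = s.card) (ht : t.card = t'.card) :
    num s t ≤ num s' t' := by
  obtain ⟨α, hα⟩ := exists_act s' s hs
  obtain ⟨β, hβ⟩ := exists_act t t' ht
  unfold num
  apply Finset.card_le_card_of_injOn (fun σ => β * σ * α)
  · intro σ hσ
    rw [Finset.mem_coe, Finset.mem_filter] at hσ ⊢
    refine ⟨Finset.mem_univ _, ?_⟩
    rw [act_mul, act_mul, hα, hσ.2, hβ]
  · intro σ _ τ _ h
    have h' : β * σ * α = β * τ * α := h
    exact mul_left_cancel (mul_right_cancel h')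

theorem num_total (s : Finset V) (w : ℕ) (hs : s.card = w) :
    ∑ t ∈ Finset.powersetCard w (Finset.univ : Finset V), num s t =
      Fintype.card (Equiv.Perm V) := by
  unfold num
  rw [← Finset.card_univ]
  rw [Finset.card_eq_sum_card_fiberwise (f := fun σ : Equiv.Perm V => act σ s)
    (t := Finset.powersetCard w (Finset.univ : Finset V))]
  intro σ _
  rw [Finset.mem_coe, Finset.mem_powersetCard]
  exact ⟨Finset.subset_univ _, by rw [card_act, hs]⟩

/-- Averaging. -/
theorem exists_perm (C X : Finset (Finset V)) (w : ℕ) (hC : ∀ s ∈ C, s.card = w)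
    (hX : ∀ s ∈ X, s.card = w) :
    ∃ σ : Equiv.Perm V, C.card * X.card ≤
      (C.filter (fun s => act σ s ∈ X)).card * (Fintype.card V).choose w := by
  rcases C.eq_empty_or_nonempty with h0 | ⟨c0, hc0⟩
  · refine ⟨1, ?_⟩
    rw [h0]
    simp
  by_contra hcon
  push Not at hcon
  set N := num c0 c0 with hN
  have hconst : ∀ s t : Finset V, s.card = w → t.card = w → num s t = N := by
    intro s t hs ht
    have h1 := hC c0 hc0
    exact le_antisymm (num_le _ _ _ _ (by omega) (by omega)) (num_le _ _ _ _ (by omega) (by omega))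
  have htot : (Fintype.card V).choose w * N = Fintype.card (Equiv.Perm V) := by
    rw [← num_total c0 w (hC c0 hc0)]
    rw [Finset.sum_congr rfl (fun t ht => hconst c0 t (hC c0 hc0)
      (Finset.mem_powersetCard.mp ht).2)]
    rw [Finset.sum_const, Finset.card_powersetCard, Finset.card_univ, smul_eq_mul]
  have hsum : ∑ σ : Equiv.Perm V, (C.filter (fun s => act σ s ∈ X)).card =
      C.card * X.card * N := by
    have h1 : ∀ σ : Equiv.Perm V, (C.filter (fun s => act σ s ∈ X)).card =
        ∑ s ∈ C, ∑ t ∈ X, if act σ s = t then 1 else 0 := by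
      intro σ
      rw [Finset.card_filter]
      apply Finset.sum_congr rfl
      intro s _
      rw [Finset.sum_ite_eq]
    rw [Finset.sum_congr rfl (fun σ _ => h1 σ), Finset.sum_comm]
    have h2 : ∀ s ∈ C, ∑ σ : Equiv.Perm V, ∑ t ∈ X, (if act σ s = t then 1 else 0) =
        X.card * N := by
      intro s hs
      rw [Finset.sum_comm]
      have h3 : ∀ t ∈ X, (∑ σ : Equiv.Perm V, if act σ s = t then 1 else 0) = N := by
        intro t ht
        rw [← Finset.card_filter]
        exact hconst s t (hC s hs) (hX t ht)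
      rw [Finset.sum_congr rfl h3, Finset.sum_const, smul_eq_mul]
    rw [Finset.sum_congr rfl h2, Finset.sum_const, smul_eq_mul, mul_assoc]
  have hlt : ∑ σ : Equiv.Perm V, (C.filter (fun s => act σ s ∈ X)).card *
      (Fintype.card V).choose w < ∑ _σ : Equiv.Perm V, C.card * X.card :=
    Finset.sum_lt_sum_of_nonempty Finset.univ_nonempty (fun σ _ => hcon σ)
  rw [← Finset.sum_mul, hsum, Finset.sum_const, Finset.card_univ, smul_eq_mul, ← htot] at hlt
  have : C.card * X.card * N * (Fintype.card V).choose w =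
      (Fintype.card V).choose w * N * (C.card * X.card) := by ring
  omega

/-- A code and its image under a permutation. -/
theorem act_code (C : Finset (Finset V)) (σ : Equiv.Perm V) (w d : ℕ)
    (hC : ∀ s ∈ C, s.card = w)
    (hD : ∀ s ∈ C, ∀ t ∈ C, s ≠ t → d ≤ (symmDiff s t).card) :
    (∀ s ∈ C.image (act σ), s.card = w) ∧
      (∀ s ∈ C.image (act σ), ∀ t ∈ C.image (act σ), s ≠ t → d ≤ (symmDiff s t).card) := by
  constructor
  · intro s hs
    obtain ⟨a, ha, rfl⟩ := Finset.mem_image.mp hs
    rw [card_act, hC a ha]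
  · intro s hs t ht hne
    obtain ⟨a, ha, rfl⟩ := Finset.mem_image.mp hs
    obtain ⟨b, hb, rfl⟩ := Finset.mem_image.mp ht
    rw [act_symmDiff, card_act]
    apply hD a ha b hb
    rintro rfl
    exact hne rfl

theorem card_filter_act (C X : Finset (Finset V)) (σ : Equiv.Perm V) :
    (C.filter (fun s => act σ s ∈ X)).card = ((C.image (act σ)).filter (fun s => s ∈ X)).card := by
  rw [Finset.filter_image, Finset.card_image_of_injective]
  intro s t h
  exact Finset.map_injective _ h

end Pool.Agent.Hhelper49.CWD
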