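import Pool.Agent.Hhelper49.CWD.Cheb2
import Pool.Agent.Hhelper49.CWD.Perm
import Pool.Agent.Hhelper49.CWD.Far2

set_option autoImplicit false

/-! A flipped code of weight `w₁` and a part of a largest code of weight `w₂` fit together. -/

namespace Pool.Agent.Hhelper49.CWD

open Pool.Agent.Hhelper49.CWC

/-- A code of maximal size. -/
theorem exists_largest (n d w : ℕ) : ∃ C' : Finset (Finset (Fin n)),
    ((∀ s ∈ C', s.card = w) ∧ (∀ s ∈ C', ∀ t ∈ C', s ≠ t → d ≤ (symmDiff s t).card)) ∧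
    ∀ C'' : Finset (Finset (Fin n)), (∀ s ∈ C'', s.card = w) →
      (∀ s ∈ C'', ∀ t ∈ C'', s ≠ t → d ≤ (symmDiff s t).card) → C''.card ≤ C'.card := by
  classical
  let S : Finset (Finset (Finset (Fin n))) := Finset.univ.filter (fun C =>
    (∀ s ∈ C, s.card = w) ∧ (∀ s ∈ C, ∀ t ∈ C, s ≠ t → d ≤ (symmDiff s t).card))
  have hS : S.Nonempty := ⟨∅, by simp [S]⟩
  obtain ⟨C', h1, h2⟩ := Finset.exists_max_image S Finset.card hS
  refine ⟨C', (Finset.mem_filter.mp h1).2, ?_⟩
  intro C'' h3 h4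
  exact h2 C'' (Finset.mem_filter.mpr ⟨Finset.mem_univ _, h3, h4⟩)

/-- Averaging: a `τ`-set which meets many words in at most `s` points. -/
theorem exists_low {V : Type*} [DecidableEq V] [Fintype V] (C : Finset (Finset V)) (w τ s : ℕ)
    (hC : ∀ x ∈ C, x.card = w) (hs : s ≤ τ) (hτ : τ ≤ Fintype.card V) :
    ∃ T : Finset V, T.card = τ ∧
      C.card * ∑ i ∈ Finset.range (s + 1), hyp w (Fintype.card V - w) τ i ≤
        (C.filter (fun x => (x ∩ T).card ≤ s)).card * (Fintype.card V).choose τ := by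
  by_contra hcon
  push Not at hcon
  set S := Finset.powersetCard τ (Finset.univ : Finset V) with hS
  have hScard : S.card = (Fintype.card V).choose τ := by
    rw [hS, Finset.card_powersetCard, Finset.card_univ]
  have hSpos : 0 < S.card := by
    rw [hScard]
    exact Nat.choose_pos hτ
  have hSne : S.Nonempty := Finset.card_pos.mp hSpos
  have h1 : ∑ T ∈ S, (C.filter (fun x => (x ∩ T).card ≤ s)).card =
      ∑ x ∈ C, (S.filter (fun T => (x ∩ T).card ≤ s)).card := by
    simp_rw [Finset.card_filter]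
    rw [Finset.sum_comm]
  have h2 : C.card * ∑ i ∈ Finset.range (s + 1), hyp w (Fintype.card V - w) τ i ≤
      ∑ x ∈ C, (S.filter (fun T => (x ∩ T).card ≤ s)).card := by
    rw [← smul_eq_mul, ← Finset.sum_const]
    apply Finset.sum_le_sum
    intro x hx
    have h4 : ((Finset.range (s + 1)).biUnion
        (fun i => S.filter (fun T => (x ∩ T).card = i))).card =
        ∑ i ∈ Finset.range (s + 1), (S.filter (fun T => (x ∩ T).card = i)).card := by
      apply Finset.card_biUnion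
      intro a _ b _ hab
      show Disjoint (S.filter (fun T => (x ∩ T).card = a)) (S.filter (fun T => (x ∩ T).card = b))
      rw [Finset.disjoint_left]
      intro T hT hT'
      rw [Finset.mem_filter] at hT hT'
      exact hab (hT.2.symm.trans hT'.2)
    have h5 : ((Finset.range (s + 1)).biUnion
        (fun i => S.filter (fun T => (x ∩ T).card = i))) ⊆
        S.filter (fun T => (x ∩ T).card ≤ s) := by
      intro T hT
      obtain ⟨i, hi, hTi⟩ := Finset.mem_biUnion.mp hT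
      rw [Finset.mem_range] at hi
      rw [Finset.mem_filter] at hTi ⊢
      exact ⟨hTi.1, by omega⟩
    refine le_trans ?_ (Finset.card_le_card h5)
    rw [h4]
    apply Finset.sum_le_sum
    intro i hi
    rw [Finset.mem_range] at hi
    have := card_meet x τ i (by omega)
    rwa [hC x hx] at this
  have h3 : ∑ T ∈ S, (C.filter (fun x => (x ∩ T).card ≤ s)).card * (Fintype.card V).choose τ <
      ∑ _T ∈ S, C.card * ∑ i ∈ Finset.range (s + 1), hyp w (Fintype.card V - w) τ i :=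
    Finset.sum_lt_sum_of_nonempty hSne
      (fun T hT => hcon T (Finset.mem_powersetCard.mp hT).2)
  rw [← Finset.sum_mul, h1, Finset.sum_const, smul_eq_mul, hScard, mul_comm] at h3
  have h4 := Nat.mul_le_mul_left ((Fintype.card V).choose τ) h2
  omega

theorem act_inter {V : Type*} [DecidableEq V] [Fintype V] (σ : Equiv.Perm V) (s t : Finset V) :
    act σ s ∩ act σ t = act σ (s ∩ t) := by
  unfold act
  rw [Finset.map_inter]

/-- The union of the two codes. -/
theorem union_code (n d w₁ w₂ τ i s : ℕ) (hd : 1 ≤ d) (hτ : τ ≤ n) (hw2 : w₂ + 2 * i = w₁ + τ)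
    (hs : i + s + (d + 1) / 2 ≤ τ) (C C₂ : Finset (Finset (Fin n)))
    (hC : ∀ x ∈ C, x.card = w₁)
    (hD : ∀ x ∈ C, ∀ y ∈ C, x ≠ y → d ≤ (symmDiff x y).card)
    (hC₂ : ∀ x ∈ C₂, x.card = w₂)
    (hD₂ : ∀ x ∈ C₂, ∀ y ∈ C₂, x ≠ y → d ≤ (symmDiff x y).card) :
    ∃ C' : Finset (Finset (Fin n)), (∀ x ∈ C', x.card = w₂) ∧
      (∀ x ∈ C', ∀ y ∈ C', x ≠ y → d ≤ (symmDiff x y).card) ∧
      C.card * hyp w₁ (n - w₁) τ i +
        C₂.card * ∑ j ∈ Finset.range (s + 1), hyp w₂ (n - w₂) τ j ≤ C'.card * n.choose τ := by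
  classical
  obtain ⟨T, hT, hTc⟩ := exists_flip C w₁ τ i hC (by omega) (by rw [Fintype.card_fin]; omega)
  obtain ⟨T', hT', hTc'⟩ := exists_low C₂ w₂ τ s hC₂ (by omega) (by rw [Fintype.card_fin]; omega)
  rw [Fintype.card_fin] at hTc hTc'
  obtain ⟨σ, hσ⟩ := exists_act T' T (by rw [hT, hT'])
  set P := (C.filter (fun x => (x ∩ T).card = i)).image (fun x => symmDiff x T) with hP
  set Q := (C₂.filter (fun x => (x ∩ T').card ≤ s)).image (act σ) with hQ
  have hPc : P.card = (C.filter (fun x => (x ∩ T).card = i)).card := by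
    apply Finset.card_image_of_injOn
    intro x _ y _ hxy
    exact symmDiff_left_injective T hxy
  have hQc : Q.card = (C₂.filter (fun x => (x ∩ T').card ≤ s)).card := by
    apply Finset.card_image_of_injective
    intro x y h
    exact Finset.map_injective _ h
  have hPm : ∀ z ∈ P, z.card = w₂ ∧ (z ∩ T).card + i = τ := by
    intro z hz
    obtain ⟨x, hx, rfl⟩ := Finset.mem_image.mp hz
    rw [Finset.mem_filter] at hx
    have h1 := card_symmDiff_add x T
    rw [hC x hx.1, hT, hx.2] at h1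
    refine ⟨by omega, ?_⟩
    have h2 : symmDiff x T ∩ T = T \ x := by
      ext u
      simp only [Finset.mem_inter, Finset.mem_symmDiff, Finset.mem_sdiff]
      tauto
    rw [h2, ← hx.2, Finset.inter_comm, Finset.card_sdiff_add_card_inter, hT]
  have hQm : ∀ z ∈ Q, z.card = w₂ ∧ (z ∩ T).card ≤ s := by
    intro z hz
    obtain ⟨x, hx, rfl⟩ := Finset.mem_image.mp hz
    rw [Finset.mem_filter] at hx
    refine ⟨by rw [card_act, hC₂ x hx.1], ?_⟩
    rw [← hσ, act_inter, card_act]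
    exact hx.2
  have hcross : ∀ x ∈ P, ∀ y ∈ Q, d ≤ (symmDiff x y).card := by
    intro x hx y hy
    have h1 := hPm x hx
    have h2 := hQm y hy
    have h3 := card_symmDiff_add x y
    rw [h1.1, h2.1] at h3
    have h4 : (x ∩ y).card ≤ (y ∩ T).card + (x \ T).card := by
      refine (Finset.card_le_card ?_).trans (Finset.card_union_le _ _)
      intro u hu
      rw [Finset.mem_inter] at hu
      rw [Finset.mem_union, Finset.mem_inter, Finset.mem_sdiff]
      by_cases hT : u ∈ T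
      · exact Or.inl ⟨hu.2, hT⟩
      · exact Or.inr ⟨hu.1, hT⟩
    have h5 := Finset.card_sdiff_add_card_inter x T
    omega
  have hdisj : Disjoint P Q := by
    rw [Finset.disjoint_left]
    intro x hx hx'
    have := hcross x hx x hx'
    rw [symmDiff_self] at this
    simp at this
    omega
  have hDP : ∀ x ∈ P, ∀ y ∈ P, x ≠ y → d ≤ (symmDiff x y).card := by
    intro x hx y hy hne
    obtain ⟨a, ha, rfl⟩ := Finset.mem_image.mp hx
    obtain ⟨b, hb, rfl⟩ := Finset.mem_image.mp hy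
    rw [Finset.mem_filter] at ha hb
    have hab : a ≠ b := by
      rintro rfl
      exact hne rfl
    have h1 : symmDiff (symmDiff a T) (symmDiff b T) = symmDiff a b := by
      rw [symmDiff_symmDiff_symmDiff_comm, symmDiff_self, symmDiff_bot]
    rw [h1]
    exact hD a ha.1 b hb.1 hab
  have hDQ : ∀ x ∈ Q, ∀ y ∈ Q, x ≠ y → d ≤ (symmDiff x y).card := by
    intro x hx y hy hne
    obtain ⟨a, ha, rfl⟩ := Finset.mem_image.mp hx
    obtain ⟨b, hb, rfl⟩ := Finset.mem_image.mp hy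
    rw [Finset.mem_filter] at ha hb
    rw [act_symmDiff, card_act]
    apply hD₂ a ha.1 b hb.1
    rintro rfl
    exact hne rfl
  refine ⟨P ∪ Q, ?_, ?_, ?_⟩
  · intro x hx
    rcases Finset.mem_union.mp hx with hx | hx
    · exact (hPm x hx).1
    · exact (hQm x hx).1
  · intro x hx y hy hne
    rcases Finset.mem_union.mp hx with hx | hx
    · rcases Finset.mem_union.mp hy with hy | hy
      · exact hDP x hx y hy hne
      · exact hcross x hx y hy
    · rcases Finset.mem_union.mp hy with hy | hy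
      · rw [symmDiff_comm]
        exact hcross y hy x hx
      · exact hDQ x hx y hy hne
  · rw [Finset.card_union_of_disjoint hdisj, Nat.add_mul, hPc, hQc]
    exact Nat.add_le_add hTc hTc'

/-- The tail of the hypergeometric law. -/
theorem tail_le (w N τ s : ℕ) (hw : 1 ≤ w) (hN : 1 ≤ N) (hτ : τ ≤ w + N) (hsτ : s ≤ τ)
    (hs : (τ : ℝ) * w / (w + N) ≤ (s : ℝ) + 1) :
    ((s : ℝ) + 1 - τ * w / (w + N)) ^ 2 *
      (((w + N).choose τ : ℝ) - ∑ j ∈ Finset.range (s + 1), (hyp w N τ j : ℝ)) ≤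
      ((w : ℝ) * τ / (w + N)) * ((w + N).choose τ : ℝ) := by
  have hvar := var_le2 w N τ hw hN hτ
  refine le_trans ?_ hvar
  have e0 : ∑ j ∈ Finset.range (τ + 1), (hyp w N τ j : ℝ) = ((w + N).choose τ : ℝ) := by
    rw [← hyp_sum]
    push_cast
    rfl
  have hsub : Finset.range (s + 1) ⊆ Finset.range (τ + 1) :=
    Finset.range_subset_range.mpr (by omega)
  have h1 := Finset.sum_sdiff hsub (f := fun j => (hyp w N τ j : ℝ))
  have h2 : ((w + N).choose τ : ℝ) - ∑ j ∈ Finset.range (s + 1), (hyp w N τ j : ℝ) =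
      ∑ j ∈ Finset.range (τ + 1) \ Finset.range (s + 1), (hyp w N τ j : ℝ) := by
    rw [← e0, ← h1]
    ring
  rw [h2, Finset.mul_sum]
  refine le_trans (Finset.sum_le_sum (g := fun j : ℕ =>
    ((j : ℝ) - τ * w / (w + N)) ^ 2 * hyp w N τ j) ?_) ?_
  · intro j hj
    rw [Finset.mem_sdiff, Finset.mem_range, Finset.mem_range] at hj
    apply mul_le_mul_of_nonneg_right _ (Nat.cast_nonneg _)
    have h3 : (s : ℝ) + 1 ≤ j := by
      have : s + 1 ≤ j := by omega
      exact_mod_cast this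
    exact pow_le_pow_left₀ (by linarith) (by linarith) 2
  · apply Finset.sum_le_sum_of_subset_of_nonneg Finset.sdiff_subset
    intro j _ _
    positivity

/-- Criterion. -/
theorem sep_crit (n d w₁ w₂ τ i s : ℕ) (V : ℝ) (hd : 1 ≤ d) (hw : 1 ≤ w₁) (h12 : w₁ < w₂)
    (hn : 2 * w₂ ≤ n) (hτ : τ ≤ n) (hi : i = (w₁ + 1) * (τ + 1) / (n + 2))
    (hw2 : w₂ + 2 * i = w₁ + τ) (hs : i + s + (d + 1) / 2 ≤ τ) (hV : 0 < V)
    (hV1 : (w₁ : ℝ) * τ / n ≤ V)
    (hs1 : (τ : ℝ) * w₂ / n < (s : ℝ) + 1)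
    (hcond : 4 * (4 * √V + 1) * ((w₂ : ℝ) * τ / n) ≤ 3 * ((s : ℝ) + 1 - τ * w₂ / n) ^ 2) :
    Mono n d w₁ w₂ := by
  intro C hC hD
  obtain ⟨C₂, ⟨hC₂, hD₂⟩, hmax⟩ := exists_largest n d w₂
  obtain ⟨C', h1, h2, h3⟩ := union_code n d w₁ w₂ τ i s hd hτ hw2 hs C C₂ hC hD hC₂ hD₂
  have h4 := hmax C' h1 h2
  -- real numbers
  obtain ⟨N₁, hN₁⟩ : ∃ N, n = w₁ + N := ⟨n - w₁, by omega⟩
  obtain ⟨N₂, hN₂⟩ : ∃ N, n = w₂ + N := ⟨n - w₂, by omega⟩
  have e1 : n - w₁ = N₁ := by omega
  have e2 : n - w₂ = N₂ := by omega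
  rw [e1, e2] at h3
  have hN₁R : (n : ℝ) = w₁ + N₁ := by exact_mod_cast hN₁
  have hN₂R : (n : ℝ) = w₂ + N₂ := by exact_mod_cast hN₂
  have hmode := mode_large2 w₁ N₁ τ hw (by omega) (by omega) V hV (by rw [← hN₁R]; exact hV1)
  rw [← hN₁, ← hi] at hmode
  have htail := tail_le w₂ N₂ τ s (by omega) (by omega) (by omega) (by omega)
    (by rw [← hN₂R]; exact hs1.le)
  rw [← hN₂R, ← hN₂] at htail
  set H : ℝ := (hyp w₁ N₁ τ i : ℝ) with hH
  set L : ℝ := ∑ j ∈ Finset.range (s + 1), (hyp w₂ N₂ τ j : ℝ) with hL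
  set M : ℝ := (n.choose τ : ℝ) with hM
  have hMpos : 0 < M := by
    rw [hM]
    exact_mod_cast Nat.choose_pos hτ
  set Δ : ℝ := (s : ℝ) + 1 - τ * w₂ / n with hΔ
  have hΔpos : 0 < Δ := by rw [hΔ]; linarith
  have hA : (C.card : ℝ) * H + (C₂.card : ℝ) * L ≤ (C₂.card : ℝ) * M := by
    have h5 : (C.card : ℝ) * H + (C₂.card : ℝ) * L ≤ (C'.card : ℝ) * M := by
      rw [hH, hL, hM]
      exact_mod_cast h3
    exact h5.trans (mul_le_mul_of_nonneg_right (by exact_mod_cast h4) hMpos.le)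
  -- S ≤ H
  have hq : 0 < 4 * √V + 1 := by positivity
  have hHpos : 0 < H := by
    by_contra hcon
    push Not at hcon
    have : (4 * √V + 1) * H ≤ 0 := mul_nonpos_of_nonneg_of_nonpos hq.le hcon
    linarith
  have hSH : M - L ≤ H := by
    have h5 : Δ ^ 2 * ((4 * √V + 1) * (M - L)) ≤ Δ ^ 2 * ((4 * √V + 1) * H) := by
      calc Δ ^ 2 * ((4 * √V + 1) * (M - L)) = (4 * √V + 1) * (Δ ^ 2 * (M - L)) := by ring
        _ ≤ (4 * √V + 1) * (((w₂ : ℝ) * τ / n) * M) := mul_le_mul_of_nonneg_left htail hq.le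
        _ = (4 * (4 * √V + 1) * ((w₂ : ℝ) * τ / n)) * (M / 4) := by ring
        _ ≤ (3 * Δ ^ 2) * (M / 4) := mul_le_mul_of_nonneg_right hcond (by positivity)
        _ = Δ ^ 2 * (3 / 4 * M) := by ring
        _ ≤ Δ ^ 2 * ((4 * √V + 1) * H) := mul_le_mul_of_nonneg_left hmode (sq_nonneg _)
    have h6 := le_of_mul_le_mul_left h5 (by positivity)
    exact le_of_mul_le_mul_left h6 hq
  have hfin : (C.card : ℝ) * H ≤ (C₂.card : ℝ) * H := by
    calc (C.card : ℝ) * H ≤ (C₂.card : ℝ) * (M - L) := by linarith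
      _ ≤ _ := mul_le_mul_of_nonneg_left hSH (Nat.cast_nonneg _)
  have hle : (C.card : ℝ) ≤ (C₂.card : ℝ) := le_of_mul_le_mul_right hfin hHpos
  exact shrink C C₂ (by exact_mod_cast hle) hC₂ hD₂

end Pool.Agent.Hhelper49.CWD
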