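import Pool.Agent.Hhelper49.CWD.Sep

set_option autoImplicit false

/-! Exact monotonicity when the difference of the weights is large compared with the distance. -/

namespace Pool.Agent.Hhelper49.CWD

open Pool.Agent.Hhelper49.CWC

/-- Weights whose difference is large compared with `d`. -/
theorem separated (ε : ℝ) (hε : 0 < ε) (hε1 : ε ≤ 1) (n d w₁ w₂ : ℕ) (hd : 1 ≤ d)
    (h12 : w₁ < w₂) (hn : 2 * w₂ ≤ n)
    (hA : (1 + ε) * ((d : ℝ) * (n - 2 * w₁)) ≤ 2 * (((w₂ : ℝ) - w₁) * (n - w₁ - w₂)))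
    (hB : 400000 * (n : ℝ) ^ 3 ≤ ε ^ 4 * (((w₂ : ℝ) - w₁) * (n - 2 * w₁) ^ 3)) :
    Mono n d w₁ w₂ := by
  rcases Nat.eq_zero_or_pos w₁ with hw0 | hw0
  · intro C hC hD
    apply tiny n d w₂ (by omega) C
    by_contra hcon
    push Not at hcon
    obtain ⟨s0, hs0, t0, ht0, hne0⟩ := Finset.one_lt_card.mp hcon
    apply hne0
    have e1 := hC s0 hs0
    have e2 := hC t0 ht0
    rw [hw0, Finset.card_eq_zero] at e1 e2
    rw [e1, e2]
  obtain ⟨N, hN⟩ : ∃ N, n = w₁ + N := ⟨n - w₁, by omega⟩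
  obtain ⟨τ, hτ, hτw⟩ := exists_tau w₁ N w₂ h12.le (by omega)
  rw [← hN] at hτ hτw
  set i := (w₁ + 1) * (τ + 1) / (n + 2) with hi
  set δ := (d + 1) / 2 with hδ
  -- real quantities
  have hwR : (1 : ℝ) ≤ w₁ := by exact_mod_cast hw0
  have hdR : (1 : ℝ) ≤ d := by exact_mod_cast hd
  have hnR : 2 * (w₂ : ℝ) ≤ n := by exact_mod_cast hn
  set k : ℝ := (w₂ : ℝ) - w₁ with hk
  have hk1 : 1 ≤ k := by
    have : (w₁ : ℝ) + 1 ≤ w₂ := by exact_mod_cast h12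
    rw [hk]
    linarith
  set g : ℝ := (n : ℝ) - 2 * w₁ with hg
  set h : ℝ := (n : ℝ) - w₁ - w₂ with hh
  have hgk : 2 * k ≤ g := by rw [hg, hk]; linarith
  have hgh : g ≤ 2 * h := by rw [hg, hh]; linarith
  have hhg : h ≤ g := by rw [hg, hh]; linarith
  have hgn : g ≤ n := by rw [hg]; linarith
  have hgpos : 0 < g := by linarith
  have hhpos : 0 < h := by linarith
  have hnpos : (0 : ℝ) < n := by linarith
  -- k is large
  have hkbig : 400000 ≤ ε ^ 4 * k := by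
    have h1 : ε ^ 4 * (k * g ^ 3) ≤ ε ^ 4 * (k * (n : ℝ) ^ 3) := by
      have : g ^ 3 ≤ (n : ℝ) ^ 3 := pow_le_pow_left₀ hgpos.le hgn 3
      have h2 : k * g ^ 3 ≤ k * (n : ℝ) ^ 3 := mul_le_mul_of_nonneg_left this (by linarith)
      exact mul_le_mul_of_nonneg_left h2 (by positivity)
    have h3 : 400000 * (n : ℝ) ^ 3 ≤ (ε ^ 4 * k) * (n : ℝ) ^ 3 := by linarith
    exact le_of_mul_le_mul_right h3 (by positivity)
  have hεk : 400000 ≤ ε * k := by
    have h1 : ε ^ 4 ≤ ε := by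
      calc ε ^ 4 = ε * ε ^ 3 := by ring
        _ ≤ ε * 1 := mul_le_mul_of_nonneg_left (pow_le_one₀ hε.le hε1) hε.le
        _ = ε := mul_one ε
    have h2 : ε ^ 4 * k ≤ ε * k := mul_le_mul_of_nonneg_right h1 (by linarith)
    linarith
  -- bounds on τ and i
  have hiU : (i : ℝ) * ((n : ℝ) + 2) ≤ ((w₁ : ℝ) + 1) * (τ + 1) := by
    have hi1 : i * (n + 2) ≤ (w₁ + 1) * (τ + 1) := Nat.div_mul_le_self _ _
    exact_mod_cast hi1
  have hiL : ((w₁ : ℝ) + 1) * (τ + 1) ≤ ((i : ℝ) + 1) * ((n : ℝ) + 2) := by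
    have hi1 : (w₁ + 1) * (τ + 1) < (n + 2) * (i + 1) := Nat.lt_mul_div_succ _ (by omega)
    have hi2 : (w₁ + 1) * (τ + 1) ≤ (i + 1) * (n + 2) := by
      rw [mul_comm (i + 1)]
      exact hi1.le
    exact_mod_cast hi2
  have hi3 : (τ : ℝ) = k + 2 * i := by
    have : (w₂ : ℝ) + 2 * i = w₁ + τ := by exact_mod_cast hτw
    rw [hk]
    linarith
  have hτn : (τ : ℝ) ≤ n := by exact_mod_cast hτ
  have hτ0 : (0 : ℝ) ≤ τ := Nat.cast_nonneg τ
  have hτU : (τ : ℝ) * g ≤ 5 / 2 * (k * n) := by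
    have h1 : (τ : ℝ) * g ≤ (n + 2) * k + 2 * (w₁ + 1) := by
      rw [hg]
      nlinarith
    have h2 : 2 * ((w₁ : ℝ) + 1) ≤ n := by
      have : (w₁ : ℝ) + 1 ≤ w₂ := by exact_mod_cast h12
      linarith
    have h4 : (4 : ℝ) ≤ n := by linarith
    nlinarith
  have hτL : (k - 2) * n ≤ (τ : ℝ) * g := by
    rw [hg]
    nlinarith
  have hiτ : (τ : ℝ) * (1 - w₁ / n) - 1 ≤ (τ : ℝ) - i := by
    have h1 : (i : ℝ) ≤ w₁ * τ / n + 1 := by
      have h2 : (i : ℝ) * n * ((n : ℝ) + 2) ≤ (w₁ * τ + n) * ((n : ℝ) + 2) := by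
        have h3 : ((w₁ : ℝ) + 1) * (τ + 1) * n ≤ (w₁ * τ + n) * ((n : ℝ) + 2) := by
          nlinarith [mul_nonneg (sub_nonneg.mpr hτn) (sub_nonneg.mpr (by linarith : (w₁ : ℝ) ≤ n))]
        calc (i : ℝ) * n * ((n : ℝ) + 2) = (i * ((n : ℝ) + 2)) * n := by ring
          _ ≤ (((w₁ : ℝ) + 1) * (τ + 1)) * n := mul_le_mul_of_nonneg_right hiU hnpos.le
          _ ≤ _ := h3
      have h4 : (i : ℝ) * n ≤ w₁ * τ + n := le_of_mul_le_mul_right h2 (by linarith)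
      have h5 : (w₁ : ℝ) * τ / n + 1 = (w₁ * τ + n) / n := by
        field_simp
      rw [h5, le_div_iff₀ hnpos]
      exact h4
    have h6 : (τ : ℝ) * (1 - w₁ / n) = τ - w₁ * τ / n := by ring
    rw [h6]
    linarith
  -- δ
  have hδ2 : 2 * (δ : ℝ) ≤ d + 1 := by
    have : 2 * δ ≤ d + 1 := by omega
    exact_mod_cast this
  have hτh : (τ : ℝ) * h / n = (τ : ℝ) * (1 - w₁ / n) - τ * w₂ / n := by
    rw [hh]
    field_simp
  -- main estimate
  have hmain : ε * k / 8 ≤ (τ : ℝ) * h / n - δ := by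
    have h1 : (k - 2) * h / g ≤ (τ : ℝ) * h / n := by
      rw [div_le_div_iff₀ hgpos hnpos]
      calc (k - 2) * h * n = ((k - 2) * n) * h := by ring
        _ ≤ ((τ : ℝ) * g) * h := mul_le_mul_of_nonneg_right hτL hhpos.le
        _ = _ := by ring
    have h2 : (d : ℝ) ≤ 2 * (k * h) / ((1 + ε) * g) := by
      rw [le_div_iff₀ (by positivity)]
      calc (d : ℝ) * ((1 + ε) * g) = (1 + ε) * ((d : ℝ) * g) := by ring
        _ ≤ _ := hA
    have h3 : 2 * (k * h) / ((1 + ε) * g) ≤ 2 * ((1 - ε / 2) * (k * h / g)) := by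
      rw [div_le_iff₀ (by positivity)]
      have h4 : 2 * ((1 - ε / 2) * (k * h / g)) * ((1 + ε) * g) =
          2 * (k * h) * ((1 - ε / 2) * (1 + ε)) := by
        field_simp
      rw [h4]
      have h5 : 1 ≤ (1 - ε / 2) * (1 + ε) := by nlinarith
      have h6 : 0 ≤ 2 * (k * h) := by positivity
      nlinarith
    have h7 : (k - 2) * h / g = k * h / g - 2 * (h / g) := by ring
    have h8 : h / g ≤ 1 := by
      rw [div_le_one hgpos]
      exact hhg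
    have h9 : k / 2 ≤ k * h / g := by
      rw [div_le_div_iff₀ (by norm_num) hgpos]
      nlinarith
    have h10 : ε / 2 * (k / 2) ≤ ε / 2 * (k * h / g) := mul_le_mul_of_nonneg_left h9 (by linarith)
    have h11 : (d : ℝ) ≤ 2 * ((1 - ε / 2) * (k * h / g)) := h2.trans h3
    nlinarith
  -- s
  have hsum : i + δ ≤ τ := by
    have h1 : (i : ℝ) + δ ≤ τ := by
      have h2 : (0 : ℝ) ≤ τ * w₂ / n := by positivity
      have h3 := hmain
      rw [hτh] at h3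
      linarith
    exact_mod_cast h1
  obtain ⟨s, hs⟩ : ∃ s, i + s + δ = τ := ⟨τ - i - δ, by omega⟩
  have hsR : (i : ℝ) + s + δ = τ := by exact_mod_cast hs
  have hΔ : ε * k / 8 ≤ (s : ℝ) + 1 - τ * w₂ / n := by
    have h3 := hmain
    rw [hτh] at h3
    linarith
  -- V
  set y : ℝ := 5 / 4 * (k * n / g) with hy
  have hkng : 1 ≤ k * n / g := by
    rw [one_le_div hgpos]
    nlinarith
  have hy1 : 1 ≤ y := by rw [hy]; linarith
  have hτy : (τ : ℝ) / 2 ≤ y := by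
    rw [hy]
    have : (τ : ℝ) ≤ 5 / 2 * (k * n) / g := by
      rw [le_div_iff₀ hgpos]
      exact hτU
    have h2 : 5 / 2 * (k * n) / g = 5 / 2 * (k * n / g) := by ring
    rw [h2] at this
    linarith
  have hV1 : (w₁ : ℝ) * τ / n ≤ y := by
    refine le_trans ?_ hτy
    rw [div_le_div_iff₀ hnpos (by norm_num)]
    nlinarith
  have hV2 : (w₂ : ℝ) * τ / n ≤ y := by
    refine le_trans ?_ hτy
    rw [div_le_div_iff₀ hnpos (by norm_num)]
    nlinarith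
  have hsq1 : 1 ≤ √y := by
    rw [Real.one_le_sqrt]
    exact hy1
  have hy0 : 0 < y := by linarith
  -- y √y ≤ (3/1280) (ε k)^2
  have hcube : y ^ 3 ≤ (3 / 1280 * (ε ^ 2 * k ^ 2)) ^ 2 := by
    have h1 : (n : ℝ) ^ 3 / g ^ 3 ≤ ε ^ 4 * k / 400000 := by
      rw [div_le_div_iff₀ (by positivity) (by norm_num)]
      nlinarith
    have h2 : y ^ 3 = 125 / 64 * (k ^ 3 * ((n : ℝ) ^ 3 / g ^ 3)) := by
      rw [hy]
      field_simp
      ring
    rw [h2]
    have h3 : k ^ 3 * ((n : ℝ) ^ 3 / g ^ 3) ≤ k ^ 3 * (ε ^ 4 * k / 400000) :=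
      mul_le_mul_of_nonneg_left h1 (by positivity)
    have h4 : 0 ≤ ε ^ 4 * k ^ 4 := by positivity
    nlinarith
  have hys : y * √y ≤ 3 / 1280 * (ε ^ 2 * k ^ 2) := by
    apply le_of_pow_le_pow_left₀ (two_ne_zero) (by positivity)
    calc (y * √y) ^ 2 = y ^ 2 * (√y) ^ 2 := by ring
      _ = y ^ 3 := by rw [Real.sq_sqrt hy0.le]; ring
      _ ≤ _ := hcube
  refine sep_crit n d w₁ w₂ τ i s y hd hw0 h12 hn hτ hi hτw (by omega) hy0 hV1 ?_ ?_
  · have : 0 < ε * k / 8 := by positivity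
    linarith
  · have h1 : 4 * (4 * √y + 1) * ((w₂ : ℝ) * τ / n) ≤ 4 * (5 * √y) * y := by
      apply mul_le_mul _ hV2 (by positivity) (by positivity)
      linarith
    have h2 : (ε * k / 8) ^ 2 ≤ ((s : ℝ) + 1 - τ * w₂ / n) ^ 2 :=
      pow_le_pow_left₀ (by positivity) hΔ 2
    have h3 : 4 * (5 * √y) * y = 20 * (y * √y) := by ring
    nlinarith

end Pool.Agent.Hhelper49.CWD
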