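import Pool.Agent.Hhelper49.CWD.Far2

set_option autoImplicit false

/-! Exact monotonicity for small distances and weights which are not too close. -/

namespace Pool.Agent.Hhelper49.CWD

open Pool.Agent.Hhelper49.CWC

theorem two_pow_le (n x : ℕ) (hn : 0 < n) (hx : x ≤ n) :
    (2 : ℝ) ^ x ≤ (1 + 2 * (x : ℝ) / n) ^ n := by
  rcases Nat.eq_zero_or_pos x with h0 | h0
  · subst h0
    simp
  have hnR : (0 : ℝ) < n := by exact_mod_cast hn
  have hxR : (0 : ℝ) < x := by exact_mod_cast h0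
  have hs : (0 : ℝ) ≤ 2 * (x : ℝ) / n := by positivity
  have hp : (1 : ℝ) ≤ (n : ℝ) / x := by
    rw [one_le_div hxR]
    exact_mod_cast hx
  have h1 := one_add_mul_self_le_rpow_one_add (by linarith : (-1 : ℝ) ≤ 2 * (x : ℝ) / n) hp
  have h2 : (n : ℝ) / x * (2 * (x : ℝ) / n) = 2 := by
    field_simp
  rw [h2] at h1
  have h3 : (2 : ℝ) ≤ (1 + 2 * (x : ℝ) / n) ^ ((n : ℝ) / x) := by linarith
  have h4 : (1 + 2 * (x : ℝ) / n) ^ n = ((1 + 2 * (x : ℝ) / n) ^ ((n : ℝ) / x)) ^ x := by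
    rw [← Real.rpow_natCast, ← Real.rpow_natCast, ← Real.rpow_mul (by linarith)]
    congr 1
    field_simp
  rw [h4]
  exact pow_le_pow_left₀ (by norm_num) h3 x

theorem choose_step (n w : ℕ) (h : 2 * (w + 1) ≤ n) :
    (2 : ℝ) ^ (n - 2 * w - 1) * (n.choose w : ℝ) ^ n ≤ (n.choose (w + 1) : ℝ) ^ n := by
  have hn : 0 < n := by omega
  have hnR : (0 : ℝ) < n := by exact_mod_cast hn
  have h1 := two_pow_le n (n - 2 * w - 1) hn (by omega)
  have e1 := Nat.choose_succ_right_eq n w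
  have e1' : (n.choose (w + 1) : ℝ) * ((w : ℝ) + 1) = (n.choose w : ℝ) * ((n : ℝ) - w) := by
    have hle : w ≤ n := by omega
    have := congrArg (fun z : ℕ => (z : ℝ)) e1
    simp only [Nat.cast_mul, Nat.cast_add, Nat.cast_one, Nat.cast_sub hle] at this
    exact this
  have hx : ((n - 2 * w - 1 : ℕ) : ℝ) = (n : ℝ) - 2 * w - 1 := by
    rw [Nat.sub_sub, Nat.cast_sub (by omega)]
    push_cast
    ring
  have hw1 : (0 : ℝ) < (w : ℝ) + 1 := by positivity
  have hc0 : (0 : ℝ) ≤ (n.choose w : ℝ) := Nat.cast_nonneg _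
  have h2 : 2 * ((w : ℝ) + 1) ≤ n := by exact_mod_cast h
  have h3 : (1 + 2 * ((n - 2 * w - 1 : ℕ) : ℝ) / n) * (n.choose w : ℝ) ≤
      (n.choose (w + 1) : ℝ) := by
    have h4 : (1 + 2 * ((n - 2 * w - 1 : ℕ) : ℝ) / n) * ((w : ℝ) + 1) ≤ (n : ℝ) - w := by
      rw [hx]
      have h5 : 2 * ((n : ℝ) - 2 * w - 1) / n * ((w : ℝ) + 1) ≤ (n : ℝ) - 2 * w - 1 := by
        rw [div_mul_eq_mul_div, div_le_iff₀ hnR]
        nlinarith
      linarith
    have h6 : ((1 + 2 * ((n - 2 * w - 1 : ℕ) : ℝ) / n) * (n.choose w : ℝ)) * ((w : ℝ) + 1) ≤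
        (n.choose (w + 1) : ℝ) * ((w : ℝ) + 1) := by
      rw [e1']
      calc ((1 + 2 * ((n - 2 * w - 1 : ℕ) : ℝ) / n) * (n.choose w : ℝ)) * ((w : ℝ) + 1)
          = (n.choose w : ℝ) * ((1 + 2 * ((n - 2 * w - 1 : ℕ) : ℝ) / n) * ((w : ℝ) + 1)) := by
            ring
        _ ≤ _ := mul_le_mul_of_nonneg_left h4 hc0
    exact le_of_mul_le_mul_right h6 hw1
  calc (2 : ℝ) ^ (n - 2 * w - 1) * (n.choose w : ℝ) ^ n
      ≤ (1 + 2 * ((n - 2 * w - 1 : ℕ) : ℝ) / n) ^ n * (n.choose w : ℝ) ^ n :=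
        mul_le_mul_of_nonneg_right h1 (pow_nonneg hc0 n)
    _ = ((1 + 2 * ((n - 2 * w - 1 : ℕ) : ℝ) / n) * (n.choose w : ℝ)) ^ n := by
        rw [mul_pow]
    _ ≤ _ := pow_le_pow_left₀ (by positivity) h3 n

theorem choose_steps (n w₁ w₂ : ℕ) (h12 : w₁ ≤ w₂) (h : 2 * w₂ ≤ n) :
    (2 : ℝ) ^ ((w₂ - w₁) * (n - w₁ - w₂)) * (n.choose w₁ : ℝ) ^ n ≤
      (n.choose w₂ : ℝ) ^ n := by
  induction w₂, h12 using Nat.le_induction with
  | base => simp
  | succ m hm ih =>
    have h1 := ih (by omega)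
    have h2 := choose_step n m h
    have e : (m + 1 - w₁) * (n - w₁ - (m + 1)) = (m - w₁) * (n - w₁ - m) + (n - 2 * m - 1) := by
      obtain ⟨a, rfl⟩ : ∃ a, m = w₁ + a := ⟨m - w₁, by omega⟩
      obtain ⟨b, hb⟩ : ∃ b, n = 2 * (w₁ + a) + 2 + b := ⟨n - (2 * (w₁ + a) + 2), by omega⟩
      have e1 : w₁ + a + 1 - w₁ = a + 1 := by omega
      have e2 : n - w₁ - (w₁ + a + 1) = a + 1 + b := by omega
      have e3 : w₁ + a - w₁ = a := by omega
      have e4 : n - w₁ - (w₁ + a) = a + 2 + b := by omega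
      have e5 : n - 2 * (w₁ + a) - 1 = b + 1 := by omega
      rw [e1, e2, e3, e4, e5]
      ring
    rw [e, pow_add]
    calc (2 : ℝ) ^ ((m - w₁) * (n - w₁ - m)) * 2 ^ (n - 2 * m - 1) * (n.choose w₁ : ℝ) ^ n
        = 2 ^ (n - 2 * m - 1) * ((2 : ℝ) ^ ((m - w₁) * (n - w₁ - m)) * (n.choose w₁ : ℝ) ^ n) := by
          ring
      _ ≤ 2 ^ (n - 2 * m - 1) * (n.choose m : ℝ) ^ n :=
          mul_le_mul_of_nonneg_left h1 (by positivity)
      _ ≤ _ := h2

theorem pow_le_fact (r N : ℕ) : (N + 1) ^ r ≤ r.factorial * (N + r).choose r := by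
  induction r with
  | zero => simp
  | succ r ih =>
    have h1 : (r + 1) * (N + (r + 1)).choose (r + 1) = (N + r + 1) * (N + r).choose r := by
      have := Nat.add_one_mul_choose_eq (N + r) r
      have e : N + (r + 1) = N + r + 1 := by ring
      rw [e]
      linarith
    calc (N + 1) ^ (r + 1) = (N + 1) * (N + 1) ^ r := by ring
      _ ≤ (N + r + 1) * (r.factorial * (N + r).choose r) := Nat.mul_le_mul (by omega) ih
      _ = r.factorial * ((N + r + 1) * (N + r).choose r) := by ring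
      _ = r.factorial * ((r + 1) * (N + (r + 1)).choose (r + 1)) := by rw [h1]
      _ = (r + 1).factorial * (N + (r + 1)).choose (r + 1) := by
          rw [Nat.factorial_succ]
          ring

/-- Small distances. -/
theorem mono_small (n d w₁ w₂ : ℕ) (hd : 1 ≤ d) (h12 : w₁ ≤ w₂) (hn : 2 * w₂ ≤ n)
    (hcond : (4 * ((d + 1) / 2 - 1)) ^ (((d + 1) / 2 - 1) * n) ≤
      2 ^ ((w₂ - w₁) * (n - w₁ - w₂))) : Mono n d w₁ w₂ := by
  intro C hC hD
  rcases Nat.lt_or_ge C.card 2 with h2 | h2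
  · exact tiny n d w₂ (by omega) C (by omega)
  have hn0 : 0 < n := by
    rcases Nat.eq_zero_or_pos n with h0 | h0
    · exfalso
      subst h0
      have hw : w₁ = 0 := by omega
      obtain ⟨s0, hs0, t0, ht0, hne0⟩ := Finset.one_lt_card.mp (by omega : 1 < C.card)
      apply hne0
      have e1 := hC s0 hs0
      have e2 := hC t0 ht0
      rw [hw, Finset.card_eq_zero] at e1 e2
      rw [e1, e2]
    · exact h0
  set δ := (d + 1) / 2 with hδdef
  have hd1 : d ≤ 2 * δ := by omega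
  have hd2 : 2 * δ ≤ d + 1 := by omega
  have hI : ∀ s ∈ C, ∀ t ∈ C, s ≠ t → (s ∩ t).card + δ ≤ w₁ := by
    intro s hs t ht hne
    have ha := card_symmDiff_add s t
    have hb := hD s hs t ht hne
    rw [hC s hs, hC t ht] at ha
    omega
  obtain ⟨s0, hs0, t0, ht0, hne0⟩ := Finset.one_lt_card.mp (by omega : 1 < C.card)
  have h0 := hI s0 hs0 t0 ht0 hne0
  obtain ⟨r, hr⟩ : ∃ r, δ = r + 1 := ⟨δ - 1, by omega⟩
  have hr1 : δ - 1 = r := by omega
  rw [hr1] at hcond
  have hrw : r < w₁ := by omega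
  have hp := packing C w₁ (w₁ - r) hC (fun s hs t ht hne => by
    have := hI s hs t ht hne
    omega)
  rw [Fintype.card_fin] at hp
  -- packing bound in the form |C| C(n-w₁+r, r) ≤ C(n, w₁)
  have e1 : n.choose w₁ * w₁.choose (w₁ - r) =
      n.choose (w₁ - r) * (n - w₁ + r).choose r := by
    have := Nat.choose_mul (n := n) (k := w₁) (s := w₁ - r) (by omega)
    have ea : n - (w₁ - r) = n - w₁ + r := by omega
    have eb : w₁ - (w₁ - r) = r := by omega
    rwa [ea, eb] at this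
  have p1 : 0 < w₁.choose (w₁ - r) := Nat.choose_pos (by omega)
  have f1 : C.card * (n - w₁ + r).choose r ≤ n.choose w₁ := by
    have : (C.card * (n - w₁ + r).choose r) * w₁.choose (w₁ - r) ≤
        n.choose w₁ * w₁.choose (w₁ - r) := by
      calc (C.card * (n - w₁ + r).choose r) * w₁.choose (w₁ - r)
          = (C.card * w₁.choose (w₁ - r)) * (n - w₁ + r).choose r := by ring
        _ ≤ n.choose (w₁ - r) * (n - w₁ + r).choose r := Nat.mul_le_mul_right _ hp
        _ = _ := e1.symm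
    exact Nat.le_of_mul_le_mul_right this p1
  have f2 : C.card * n ^ r ≤ 2 ^ r * r.factorial * n.choose w₁ := by
    have h3 := pow_le_fact r (n - w₁)
    calc C.card * n ^ r ≤ C.card * (2 * (n - w₁ + 1)) ^ r :=
          Nat.mul_le_mul_left _ (Nat.pow_le_pow_left (by omega) r)
      _ = 2 ^ r * (C.card * (n - w₁ + 1) ^ r) := by rw [mul_pow]; ring
      _ ≤ 2 ^ r * (C.card * (r.factorial * (n - w₁ + r).choose r)) :=
          Nat.mul_le_mul_left _ (Nat.mul_le_mul_left _ h3)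
      _ = 2 ^ r * r.factorial * (C.card * (n - w₁ + r).choose r) := by ring
      _ ≤ _ := Nat.mul_le_mul_left _ f1
  obtain ⟨p, hpp, hp1, hp2⟩ := Nat.exists_prime_lt_and_le_two_mul n (by omega)
  obtain ⟨C', g1, g2, g3⟩ := gs_code n w₂ δ p hpp hp1.le
  rw [hr1] at g1
  -- the binomial comparison
  have h5 : (4 * r) ^ r * n.choose w₁ ≤ n.choose w₂ := by
    have h6 := choose_steps n w₁ w₂ h12 hn
    have h7 : (((4 * r) ^ r * n.choose w₁ : ℕ) : ℝ) ^ n ≤ (n.choose w₂ : ℝ) ^ n := by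
      push_cast
      rw [mul_pow]
      refine le_trans ?_ h6
      apply mul_le_mul_of_nonneg_right _ (by positivity)
      rw [← pow_mul]
      exact_mod_cast hcond
    have h8 := le_of_pow_le_pow_left₀ (by omega : n ≠ 0) (Nat.cast_nonneg _) h7
    exact_mod_cast h8
  have h9 : r.factorial ≤ r ^ r := Nat.factorial_le_pow r
  have h10 : C.card * ((2 * n) ^ r) ≤ C'.card * ((2 * n) ^ r) := by
    calc C.card * ((2 * n) ^ r) = 2 ^ r * (C.card * n ^ r) := by rw [mul_pow]; ring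
      _ ≤ 2 ^ r * (2 ^ r * r.factorial * n.choose w₁) := Nat.mul_le_mul_left _ f2
      _ = 4 ^ r * r.factorial * n.choose w₁ := by
          have : (4 : ℕ) ^ r = 2 ^ r * 2 ^ r := by
            rw [← mul_pow]
            norm_num
          rw [this]
          ring
      _ ≤ 4 ^ r * r ^ r * n.choose w₁ :=
          Nat.mul_le_mul_right _ (Nat.mul_le_mul_left _ h9)
      _ = (4 * r) ^ r * n.choose w₁ := by rw [mul_pow]
      _ ≤ n.choose w₂ := h5
      _ ≤ C'.card * p ^ r := g1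
      _ ≤ _ := Nat.mul_le_mul_left _ (Nat.pow_le_pow_left hp2 r)
  have h11 : C.card ≤ C'.card := Nat.le_of_mul_le_mul_right h10 (by positivity)
  refine shrink C C' h11 g2 ?_
  intro s hs t ht hne
  have ha := card_symmDiff_add s t
  have hb := g3 s hs t ht hne
  rw [g2 s hs, g2 t ht] at ha
  omega

end Pool.Agent.Hhelper49.CWD
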