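import Pool.Agent.Hhelper49.CWD.Conv
import Pool.Agent.Hhelper49.CWD.Bounded

set_option autoImplicit false

/-! The proportion of words with a good cut point is at least `(1 - 4w/n)^2`. -/

namespace Pool.Agent.Hhelper49.CWD

open Pool.Agent.Hhelper49.CWC

theorem hh_mul (m a : ℕ) : ((m : ℤ) + 2 * a) * hh m a = ((m : ℤ) - 2 * a) * cc m a := by
  cases a with
  | zero => simp [hh, cc]
  | succ a =>
    simp only [hh, cc]
    have e : m + 2 * (a + 1) = (m + 2 * a + 1) + 1 := by ring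
    have e2 : m + 2 * a + 2 = (m + 2 * a + 1) + 1 := by ring
    have h3 := Nat.add_one_mul_choose_eq (m + 2 * a + 1) a
    rw [e, e2]
    have h4 : ((m + 2 * a + 1 + 1 : ℕ) : ℤ) * ((m + 2 * a + 1).choose a : ℤ) =
        ((m + 2 * a + 1 + 1).choose (a + 1) : ℤ) * ((a + 1 : ℕ) : ℤ) := by
      exact_mod_cast h3
    push_cast at h4 ⊢
    linarith

theorem hh_nonneg (m a : ℕ) (h : 2 * a ≤ m) : 0 ≤ hh m a := by
  rcases Nat.eq_zero_or_pos a with h0 | h0
  · subst h0
    simp [hh]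
  · have h1 := hh_mul m a
    have h2 : (0 : ℤ) ≤ ((m : ℤ) - 2 * a) * cc m a := by
      apply mul_nonneg
      · have : (2 : ℤ) * a ≤ m := by exact_mod_cast h
        linarith
      · unfold cc
        exact Int.natCast_nonneg _
    rw [← h1] at h2
    have h3 : (0 : ℤ) < (m : ℤ) + 2 * a := by
      have : (0 : ℤ) < a := by exact_mod_cast h0
      linarith [Int.natCast_nonneg m]
    exact nonneg_of_mul_nonneg_right h2 h3

theorem hh_nonpos (m a : ℕ) (h : m ≤ 2 * a) (ha : 1 ≤ a) : hh m a ≤ 0 := by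
  have h1 := hh_mul m a
  have h2 : ((m : ℤ) - 2 * a) * cc m a ≤ 0 := by
    apply mul_nonpos_of_nonpos_of_nonneg
    · have : (m : ℤ) ≤ 2 * a := by exact_mod_cast h
      linarith
    · unfold cc
      exact Int.natCast_nonneg _
  rw [← h1] at h2
  have h3 : (0 : ℤ) < (m : ℤ) + 2 * a := by
    have : (0 : ℤ) < a := by exact_mod_cast ha
    linarith [Int.natCast_nonneg m]
  by_contra hcon
  push Not at hcon
  have := mul_pos h3 hcon
  linarith

/-- The ballot count in integer form. -/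
theorem G_ge (m a : ℕ) : hh (m + 1) a ≤ ((G (m + 2 * a) a).card : ℤ) := by
  have h1 := ballot (m + 2 * a) a (by omega)
  have h2 : ((m : ℤ) + 1 + a) * hh (m + 1) a =
      ((m : ℤ) + 1 - 2 * a) * ((m + 2 * a).choose a : ℤ) := by
    rcases Nat.eq_zero_or_pos a with h0 | h0
    · subst h0
      simp [hh]
    · have h3 := hh_mul (m + 1) a
      have h4 : ((m : ℤ) + 1 + a) * cc (m + 1) a = ((m : ℤ) + 2 * a + 1) * ((m + 2 * a).choose a : ℤ) := by
        unfold cc
        have e : m + 1 + 2 * a = m + 2 * a + 1 := by ring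
        rw [e]
        have h6 := Nat.choose_succ_right_eq (m + 2 * a + 1) a
        have h7 : (m + 2 * a + 1).choose a * (m + 2 * a + 1 - a) =
            (m + 2 * a + 1) * (m + 2 * a).choose a := by
          have h8 := Nat.add_one_mul_choose_eq (m + 2 * a) a
          rw [← h6, h8]
        have e2 : m + 2 * a + 1 - a = m + 1 + a := by omega
        rw [e2] at h7
        have h9 : ((m + 2 * a + 1).choose a : ℤ) * ((m + 1 + a : ℕ) : ℤ) =
            ((m + 2 * a + 1 : ℕ) : ℤ) * ((m + 2 * a).choose a : ℤ) := by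
          exact_mod_cast h7
        push_cast at h9
        linarith
      have hpos : (0 : ℤ) < (m : ℤ) + 2 * a + 1 := by positivity
      have h10 : ((m : ℤ) + 2 * a + 1) * (((m : ℤ) + 1 + a) * hh (m + 1) a) =
          ((m : ℤ) + 2 * a + 1) * (((m : ℤ) + 1 - 2 * a) * ((m + 2 * a).choose a : ℤ)) := by
        push_cast at h3
        calc ((m : ℤ) + 2 * a + 1) * (((m : ℤ) + 1 + a) * hh (m + 1) a)
            = ((m : ℤ) + 1 + a) * (((m : ℤ) + 1 + 2 * a) * hh (m + 1) a) := by ring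
          _ = ((m : ℤ) + 1 + a) * (((m : ℤ) + 1 - 2 * a) * cc (m + 1) a) := by rw [h3]
          _ = ((m : ℤ) + 1 - 2 * a) * (((m : ℤ) + 1 + a) * cc (m + 1) a) := by ring
          _ = ((m : ℤ) + 1 - 2 * a) * (((m : ℤ) + 2 * a + 1) * ((m + 2 * a).choose a : ℤ)) := by
              rw [h4]
          _ = _ := by ring
      exact mul_left_cancel₀ hpos.ne' h10
  have h3 : (((m : ℤ) + 1 - 2 * a : ℤ) : ℝ) * (((m + 2 * a).choose a : ℤ) : ℝ) ≤
      (((m : ℤ) + 1 + a : ℤ) : ℝ) * (((G (m + 2 * a) a).card : ℤ) : ℝ) := by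
    push_cast at h1 ⊢
    linarith
  have h4 : ((m : ℤ) + 1 - 2 * a) * ((m + 2 * a).choose a : ℤ) ≤
      ((m : ℤ) + 1 + a) * ((G (m + 2 * a) a).card : ℤ) := by
    exact_mod_cast h3
  rw [← h2] at h4
  exact le_of_mul_le_mul_left h4 (by positivity)

/-- The number of good words. -/
theorem good_ge_cv (n w k : ℕ) (hn : 2 * (w + k) ≤ n) (h4 : 4 * w ≤ n) :
    cv hh hh (k + 1) (n - 2 * w - k + 1) w ≤ ((good n w k).card : ℤ) := by
  have h1 := sum_good n w k w (by omega)
  have h1' : ∑ a ∈ Finset.range (w + 1), ((goodSet n w k (k + 2 * a)).card : ℤ) ≤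
      ((good n w k).card : ℤ) := by
    exact_mod_cast h1
  refine le_trans ?_ h1'
  unfold cv
  apply Finset.sum_le_sum
  intro a ha
  rw [Finset.mem_range] at ha
  have hr : k + 2 * a ≤ n := by omega
  have haw : a ≤ w := by omega
  have hg := good_count (n := n) (k := k) hr haw
  have hg' : ((G (k + 2 * a) a).card : ℤ) * ((G (n - (k + 2 * a)) (w - a)).card : ℤ) ≤
      ((goodSet n w k (k + 2 * a)).card : ℤ) := by
    exact_mod_cast hg
  refine le_trans ?_ hg'
  have g1 := G_ge k a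
  have g2 := G_ge (n - 2 * w - k) (w - a)
  have e : n - 2 * w - k + 2 * (w - a) = n - (k + 2 * a) := by omega
  rw [e] at g2
  have n1 : (0 : ℤ) ≤ ((G (k + 2 * a) a).card : ℤ) := Int.natCast_nonneg _
  have n2 : (0 : ℤ) ≤ ((G (n - (k + 2 * a)) (w - a)).card : ℤ) := Int.natCast_nonneg _
  rcases Nat.lt_or_ge (k + 1) (2 * a) with c1 | c1
  · -- the first factor is at most zero, the second at least zero
    have p1 := hh_nonpos (k + 1) a (by omega) (by omega)
    have p2 := hh_nonneg (n - 2 * w - k + 1) (w - a) (by omega)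
    have := mul_nonpos_of_nonpos_of_nonneg p1 p2
    exact this.trans (mul_nonneg n1 n2)
  · have p1 := hh_nonneg (k + 1) a (by omega)
    rcases Nat.lt_or_ge (n - 2 * w - k + 1) (2 * (w - a)) with c2 | c2
    · have p2 := hh_nonpos (n - 2 * w - k + 1) (w - a) (by omega) (by omega)
      have := mul_nonpos_of_nonneg_of_nonpos p1 p2
      exact this.trans (mul_nonneg n1 n2)
    · have p2 := hh_nonneg (n - 2 * w - k + 1) (w - a) (by omega)
      exact mul_le_mul g1 g2 p2 n1

/-- Closed form of the lower bound. -/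
theorem good_lower (n w k : ℕ) (hn : 2 * (w + k) ≤ n) (h4 : 4 * w ≤ n) :
    ((n : ℤ) + 1) * (((n : ℤ) + 2) * (n + 5) - 8 * w * (n - 2 * w + 5)) * (n.choose w : ℤ) ≤
      ((n : ℤ) - 2 * w + 5) * (n + 2 - w) * (n + 1 - w) * ((good n w k).card : ℤ) := by
  have h1 := good_ge_cv n w k hn h4
  rw [cv_hh] at h1
  have eM : k + 1 + (n - 2 * w - k + 1) = n - 2 * w + 2 := by omega
  rw [eM] at h1
  set M := n - 2 * w + 2 with hM
  have h2 := QQ_lower w M (by omega)
  have hMz : (M : ℤ) = (n : ℤ) - 2 * w + 2 := by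
    rw [hM]
    have : ((n - 2 * w : ℕ) : ℤ) = (n : ℤ) - 2 * w := by
      have h5 : 2 * w ≤ n := by omega
      rw [Nat.cast_sub h5]
      push_cast
      ring
    push_cast
    rw [this]
  have hcc : cc M w = ((n + 2).choose w : ℤ) := by
    unfold cc
    have : M + 2 * w = n + 2 := by omega
    rw [this]
  -- 4 (u - c) = - 8 C(N-1, w-1)
  have h3 : ((n : ℤ) + 2) * (4 * uu M w - 4 * cc M w) = -8 * w * cc M w := by
    rcases Nat.eq_zero_or_pos w with h0 | h0
    · subst h0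
      simp [uu, cc]
    · obtain ⟨v, hv⟩ : ∃ v, w = v + 1 := ⟨w - 1, by omega⟩
      rw [hv]
      simp only [uu, cc]
      have e : M + 2 * (v + 1) = (M + 2 * v + 1) + 1 := by ring
      have e2 : M + 2 * v + 2 = (M + 2 * v + 1) + 1 := by ring
      have h5 := Nat.add_one_mul_choose_eq (M + 2 * v + 1) v
      rw [e, e2]
      have h6 : ((M + 2 * v + 1 + 1 : ℕ) : ℤ) * ((M + 2 * v + 1).choose v : ℤ) =
          ((M + 2 * v + 1 + 1).choose (v + 1) : ℤ) * ((v + 1 : ℕ) : ℤ) := by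
        exact_mod_cast h5
      have h7 : ((M + 2 * v + 1 + 1 : ℕ) : ℤ) = (n : ℤ) + 2 := by
        have : M + 2 * v + 1 + 1 = n + 2 := by omega
        rw [this]
        push_cast
        ring
      rw [h7] at h6
      push_cast at h6 ⊢
      linarith
  rw [hcc] at h2 h3 h1
  set X : ℤ := ((n + 2).choose w : ℤ) with hX
  set B : ℤ := (n.choose w : ℤ) with hB
  have h5 : ((n : ℤ) + 2 - w) * (n + 1 - w) * X = (n + 2) * (n + 1) * B := by
    have a1 := Nat.choose_succ_right_eq (n + 1) w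
    have a2 := Nat.add_one_mul_choose_eq n w
    have a3 := Nat.choose_succ_right_eq (n + 2) w
    have a4 := Nat.add_one_mul_choose_eq (n + 1) w
    have b1 : (n + 1).choose w * (n + 1 - w) = (n + 1) * n.choose w := by rw [← a1, a2]
    have b2 : (n + 2).choose w * (n + 2 - w) = (n + 2) * (n + 1).choose w := by
      rw [← a3]
      exact a4.symm
    have c1 : ((n + 1).choose w : ℤ) * ((n : ℤ) + 1 - w) = ((n : ℤ) + 1) * B := by
      have := congrArg (fun z : ℕ => (z : ℤ)) b1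
      have h6 : w ≤ n + 1 := by omega
      simp only [Nat.cast_mul, Nat.cast_add, Nat.cast_one, Nat.cast_sub h6] at this
      exact this
    have c2 : X * ((n : ℤ) + 2 - w) = ((n : ℤ) + 2) * ((n + 1).choose w : ℤ) := by
      have := congrArg (fun z : ℕ => (z : ℤ)) b2
      have h6 : w ≤ n + 2 := by omega
      simp only [Nat.cast_mul, Nat.cast_add, Nat.cast_ofNat, Nat.cast_sub h6] at this
      exact this
    calc ((n : ℤ) + 2 - w) * (n + 1 - w) * X = (X * ((n : ℤ) + 2 - w)) * (n + 1 - w) := by ring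
      _ = (((n : ℤ) + 2) * ((n + 1).choose w : ℤ)) * (n + 1 - w) := by rw [c2]
      _ = ((n : ℤ) + 2) * (((n + 1).choose w : ℤ) * ((n : ℤ) + 1 - w)) := by ring
      _ = _ := by rw [c1]; ring
  set g : ℤ := ((good n w k).card : ℤ) with hg
  set q : ℤ := QQ M w with hq
  set t : ℤ := 4 * uu M w - 4 * X with ht
  rw [hMz] at h2
  have hwn : (w : ℤ) ≤ n := by
    have : w ≤ n := by omega
    exact_mod_cast this
  have h2w : 2 * (w : ℤ) ≤ n := by
    have : 2 * w ≤ n := by omega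
    exact_mod_cast this
  have hn0 : (0 : ℤ) ≤ n := Int.natCast_nonneg n
  have hw0 : (0 : ℤ) ≤ w := Int.natCast_nonneg w
  have hB0 : 0 ≤ B := Int.natCast_nonneg _
  have hX0 : 0 ≤ X := Int.natCast_nonneg _
  -- (n+2) (n-2w+5) g ≥ ((n+2)(n+5) - 8w(n-2w+5)) X
  have h6 : (((n : ℤ) + 2) * (n + 5) - 8 * w * (n - 2 * w + 5)) * X ≤
      ((n : ℤ) + 2) * ((n : ℤ) - 2 * w + 5) * g := by
    have h7 : ((n : ℤ) + 2) * (((n : ℤ) - 2 * w + 2 + 2 * w + 3) * X) ≤
        ((n : ℤ) + 2) * (((n : ℤ) - 2 * w + 2 + 3) * q) :=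
      mul_le_mul_of_nonneg_left h2 (by linarith)
    have h8 : ((n : ℤ) + 2) * ((n : ℤ) - 2 * w + 5) * (t + q) ≤
        ((n : ℤ) + 2) * ((n : ℤ) - 2 * w + 5) * g :=
      mul_le_mul_of_nonneg_left h1 (mul_nonneg (by linarith) (by linarith))
    have h9 : ((n : ℤ) + 2) * ((n : ℤ) - 2 * w + 5) * t = ((n : ℤ) - 2 * w + 5) * (-8 * w * X) := by
      calc ((n : ℤ) + 2) * ((n : ℤ) - 2 * w + 5) * t
          = ((n : ℤ) - 2 * w + 5) * (((n : ℤ) + 2) * t) := by ring
        _ = _ := by rw [h3]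
    nlinarith
  have h10 : ((n : ℤ) + 2) * (((n : ℤ) + 1) * (((n : ℤ) + 2) * (n + 5) -
      8 * w * (n - 2 * w + 5)) * B) ≤
      ((n : ℤ) + 2) * (((n : ℤ) - 2 * w + 5) * (n + 2 - w) * (n + 1 - w) * g) := by
    have h11 : (((n : ℤ) + 2 - w) * (n + 1 - w)) *
        ((((n : ℤ) + 2) * (n + 5) - 8 * w * (n - 2 * w + 5)) * X) ≤
        (((n : ℤ) + 2 - w) * (n + 1 - w)) * (((n : ℤ) + 2) * ((n : ℤ) - 2 * w + 5) * g) :=
      mul_le_mul_of_nonneg_left h6 (mul_nonneg (by linarith) (by linarith))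
    calc ((n : ℤ) + 2) * (((n : ℤ) + 1) * (((n : ℤ) + 2) * (n + 5) -
          8 * w * (n - 2 * w + 5)) * B)
        = (((n : ℤ) + 2) * (n + 5) - 8 * w * (n - 2 * w + 5)) *
          ((n + 2) * (n + 1) * B) := by ring
      _ = (((n : ℤ) + 2) * (n + 5) - 8 * w * (n - 2 * w + 5)) *
          (((n : ℤ) + 2 - w) * (n + 1 - w) * X) := by rw [h5]
      _ = (((n : ℤ) + 2 - w) * (n + 1 - w)) *
          ((((n : ℤ) + 2) * (n + 5) - 8 * w * (n - 2 * w + 5)) * X) := by ring
      _ ≤ _ := h11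
      _ = _ := by ring
  exact le_of_mul_le_mul_left h10 (by linarith)

end Pool.Agent.Hhelper49.CWD
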