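import Pool.Agent.Hhelper49.CWD.Count

set_option autoImplicit false

/-! Lower bound for the proportion of words with a good cut point. -/

namespace Pool.Agent.Hhelper49.CWD

/-- Words of weight `w`. -/
def J (n w : ℕ) : Finset (Finset (Fin n)) := Finset.powersetCard w Finset.univ

theorem mem_J {n w : ℕ} {x : Finset (Fin n)} : x ∈ J n w ↔ x.card = w := by
  unfold J
  rw [Finset.mem_powersetCard]
  exact ⟨fun h => h.2, fun h => ⟨Finset.subset_univ _, h⟩⟩

theorem card_J (n w : ℕ) : (J n w).card = n.choose w := by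
  unfold J
  rw [Finset.card_powersetCard, Finset.card_univ, Fintype.card_fin]

/-- Words with exactly `a` elements below `r`. -/
def hset (n w r a : ℕ) : Finset (Finset (Fin n)) := (J n w).filter (fun x => cnt x r = a)

theorem card_hset {n w r a : ℕ} (hr : r ≤ n) :
    (hset n w r a).card ≤ r.choose a * (n - r).choose (w - a) := by
  have h1 : (Finset.powersetCard a (seg n r) ×ˢ Finset.powersetCard (w - a) (seg n r)ᶜ).card =
      r.choose a * (n - r).choose (w - a) := by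
    rw [Finset.card_product, Finset.card_powersetCard, Finset.card_powersetCard,
      Finset.card_compl, Fintype.card_fin, card_seg hr]
  rw [← h1]
  apply Finset.card_le_card_of_injOn (fun x => (x ∩ seg n r, x \ seg n r))
  · intro x hx
    unfold hset at hx
    rw [Finset.mem_coe, Finset.mem_filter, mem_J] at hx
    rw [Finset.mem_coe, Finset.mem_product, Finset.mem_powersetCard, Finset.mem_powersetCard]
    have h2 := Finset.card_sdiff_add_card_inter x (seg n r)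
    have h3 := cnt_eq x r
    refine ⟨⟨Finset.inter_subset_right, ?_⟩, ?_, ?_⟩
    · show (x ∩ seg n r).card = a
      omega
    · intro i hi
      rw [Finset.mem_compl]
      exact (Finset.mem_sdiff.mp hi).2
    · show (x \ seg n r).card = w - a
      omega
  · intro x _ y _ hxy
    have h2 : (x ∩ seg n r, x \ seg n r) = (y ∩ seg n r, y \ seg n r) := hxy
    rw [Prod.mk.injEq] at h2
    have e1 := Finset.sdiff_union_inter x (seg n r)
    have e2 := Finset.sdiff_union_inter y (seg n r)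
    rw [← e1, ← e2, h2.1, h2.2]

/-- Good words against all words with `a` elements below `k + 2a`. -/
theorem good_ge {n k w a : ℕ} (hn : 2 * (w + k) ≤ n) (ha : 4 * a ≤ k) (haw : a ≤ w)
    (h6 : 0 ≤ (n : ℝ) - 6 * w) :
    ((k : ℝ) + 1 - 2 * a) * ((n : ℝ) - 6 * w) * ((hset n w (k + 2 * a) a).card : ℝ) ≤
      ((k : ℝ) + 1 + a) * (n : ℝ) * ((goodSet n w k (k + 2 * a)).card : ℝ) := by
  have hr : k + 2 * a ≤ n := by omega
  have hb1 := ballot (k + 2 * a) a (by omega)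
  have hb2 := ballot (n - (k + 2 * a)) (w - a) (by omega)
  have hg := good_count (n := n) (k := k) hr haw
  have hh := card_hset (w := w) (a := a) hr
  obtain ⟨b, hb⟩ : ∃ b, w = a + b := ⟨w - a, by omega⟩
  obtain ⟨N, hN⟩ : ∃ N, n = k + 2 * a + N := ⟨n - (k + 2 * a), by omega⟩
  have e1 : n - (k + 2 * a) = N := by omega
  have e2 : w - a = b := by omega
  rw [e1, e2] at hb2 hg hh
  set g1 : ℝ := ((G (k + 2 * a) a).card : ℝ) with hg1
  set g2 : ℝ := ((G N b).card : ℝ) with hg2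
  set c1 : ℝ := ((k + 2 * a).choose a : ℝ) with hc1
  set c2 : ℝ := (N.choose b : ℝ) with hc2
  have hg' : g1 * g2 ≤ ((goodSet n w k (k + 2 * a)).card : ℝ) := by
    rw [hg1, hg2]
    exact_mod_cast hg
  have hh' : ((hset n w (k + 2 * a) a).card : ℝ) ≤ c1 * c2 := by
    rw [hc1, hc2]
    exact_mod_cast hh
  have hc1n : 0 ≤ c1 := Nat.cast_nonneg _
  have hc2n : 0 ≤ c2 := Nat.cast_nonneg _
  have hg1n : 0 ≤ g1 := Nat.cast_nonneg _
  have hg2n : 0 ≤ g2 := Nat.cast_nonneg _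
  push_cast at hb1
  have hb1' : ((k : ℝ) + 1 - 2 * a) * c1 ≤ ((k : ℝ) + 1 + a) * g1 := by linarith
  have haR : 4 * (a : ℝ) ≤ k := by exact_mod_cast ha
  have ha0 : (0 : ℝ) ≤ a := Nat.cast_nonneg a
  have hNb : ((a : ℝ) + b + k) + a ≤ (k : ℝ) + 2 * a + N ∧ b ≤ N := by
    constructor
    · have : (a + b + k) + a ≤ k + 2 * a + N := by omega
      exact_mod_cast this
    · omega
  have hnR : (n : ℝ) = (k : ℝ) + 2 * a + N := by
    rw [hN]
    push_cast
    ring
  have hwR : (w : ℝ) = (a : ℝ) + b := by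
    rw [hb]
    push_cast
    ring
  have hbn : (0 : ℝ) ≤ b := Nat.cast_nonneg b
  have hkn : (0 : ℝ) ≤ k := Nat.cast_nonneg k
  have hNn : (0 : ℝ) ≤ N := Nat.cast_nonneg N
  have hNbR : (b : ℝ) ≤ N := by exact_mod_cast hNb.2
  -- the ratio for the right part
  have hratio : ((n : ℝ) - 6 * w) * ((N : ℝ) + 1 - b) ≤ (n : ℝ) * ((N : ℝ) + 1 - 4 * b) := by
    have h2 : 2 * ((a : ℝ) + b + k) ≤ n := by
      have : 2 * (a + b + k) ≤ n := by omega
      exact_mod_cast this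
    rw [hwR]
    rw [hnR] at h2 ⊢
    nlinarith [mul_nonneg ha0 hbn, mul_nonneg ha0 hkn, mul_nonneg hbn hNn, mul_nonneg ha0 hNn,
      mul_nonneg hbn (sub_nonneg.mpr h2), mul_nonneg ha0 (sub_nonneg.mpr h2),
      mul_nonneg ha0 (sub_nonneg.mpr hNbR), mul_nonneg hbn (sub_nonneg.mpr hNbR)]
  have hpos : 0 < (N : ℝ) + 1 - b := by linarith
  have hn0 : (0 : ℝ) ≤ n := Nat.cast_nonneg n
  have h7 : ((n : ℝ) - 6 * w) * c2 ≤ (n : ℝ) * g2 := by
    have h8 : (((n : ℝ) - 6 * w) * c2) * ((N : ℝ) + 1 - b) ≤ ((n : ℝ) * g2) * ((N : ℝ) + 1 - b) := by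
      calc (((n : ℝ) - 6 * w) * c2) * ((N : ℝ) + 1 - b)
          = (((n : ℝ) - 6 * w) * ((N : ℝ) + 1 - b)) * c2 := by ring
        _ ≤ ((n : ℝ) * ((N : ℝ) + 1 - 4 * b)) * c2 := mul_le_mul_of_nonneg_right hratio hc2n
        _ = (n : ℝ) * (((N : ℝ) + 1 - 4 * b) * c2) := by ring
        _ ≤ (n : ℝ) * (((N : ℝ) + 1 - b) * g2) := mul_le_mul_of_nonneg_left hb2 hn0
        _ = ((n : ℝ) * g2) * ((N : ℝ) + 1 - b) := by ring
    exact le_of_mul_le_mul_right h8 hpos
  have h9 : 0 ≤ (k : ℝ) + 1 - 2 * a := by linarith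
  calc ((k : ℝ) + 1 - 2 * a) * ((n : ℝ) - 6 * w) * ((hset n w (k + 2 * a) a).card : ℝ)
      ≤ ((k : ℝ) + 1 - 2 * a) * ((n : ℝ) - 6 * w) * (c1 * c2) :=
        mul_le_mul_of_nonneg_left hh' (mul_nonneg h9 h6)
    _ = (((k : ℝ) + 1 - 2 * a) * c1) * (((n : ℝ) - 6 * w) * c2) := by ring
    _ ≤ (((k : ℝ) + 1 + a) * g1) * ((n : ℝ) * g2) :=
        mul_le_mul hb1' h7 (mul_nonneg h6 hc2n) (mul_nonneg (by linarith) hg1n)
    _ = ((k : ℝ) + 1 + a) * (n : ℝ) * (g1 * g2) := by ring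
    _ ≤ ((k : ℝ) + 1 + a) * (n : ℝ) * ((goodSet n w k (k + 2 * a)).card : ℝ) :=
        mul_le_mul_of_nonneg_left hg' (mul_nonneg (by linarith) hn0)

end Pool.Agent.Hhelper49.CWD
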