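import Pool.Agent.Hhelper49.CWD.Sum
import Pool.Agent.Hhelper49.CWD.Perm

set_option autoImplicit false

namespace Pool.Agent.Hhelper49.CWD

/-- First visit. -/
theorem first_visit {n : ℕ} (x : Finset (Fin n)) (k A : ℕ) (h : cnt x (k + 2 * A) ≤ A) :
    ∃ a, a ≤ A ∧ cnt x (k + 2 * a) = a ∧ a ≤ cnt x (k + 2 * A) := by
  classical
  have hex : ∃ a, cnt x (k + 2 * a) ≤ a := ⟨A, h⟩
  obtain ⟨a, ha, hmin⟩ : ∃ a, cnt x (k + 2 * a) ≤ a ∧ ∀ b < a, ¬ cnt x (k + 2 * b) ≤ b :=
    ⟨Nat.find hex, Nat.find_spec hex, fun b hb => Nat.find_min hex hb⟩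
  have haA : a ≤ A := by
    by_contra hcon
    push Not at hcon
    exact hmin A hcon h
  have heq : cnt x (k + 2 * a) = a := by
    rcases Nat.eq_zero_or_pos a with h0 | h0
    · subst h0
      omega
    · have h1 := hmin (a - 1) (by omega)
      have h2 : cnt x (k + 2 * (a - 1)) ≤ cnt x (k + 2 * a) := cnt_mono x (by omega)
      omega
  refine ⟨a, haA, heq, ?_⟩
  rw [← heq]
  have h3 : cnt x (k + 2 * a) ≤ cnt x (k + 2 * A) := cnt_mono x (by omega)
  rw [heq] at h3 ⊢
  exact h3

theorem sum_visits (n w k A : ℕ) (c : ℕ → ℝ) (hc0 : ∀ a, a ≤ A → 0 ≤ c a)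
    (hc : ∀ a b, a ≤ b → b ≤ A → c b ≤ c a) :
    ∑ x ∈ (J n w).filter (fun x => cnt x (k + 2 * A) ≤ A), c (cnt x (k + 2 * A)) ≤
      ∑ a ∈ Finset.range (A + 1), c a * ((hset n w (k + 2 * a) a).card : ℝ) := by
  have h1 : ∀ a ∈ Finset.range (A + 1), c a * ((hset n w (k + 2 * a) a).card : ℝ) =
      ∑ x ∈ J n w, if cnt x (k + 2 * a) = a then c a else 0 := by
    intro a _
    unfold hset
    rw [Finset.card_filter]
    push_cast
    rw [Finset.mul_sum]
    apply Finset.sum_congr rfl
    intro x _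
    split_ifs <;> simp
  rw [Finset.sum_congr rfl h1, Finset.sum_comm, Finset.sum_filter]
  apply Finset.sum_le_sum
  intro x _
  have hnn : ∀ a ∈ Finset.range (A + 1), 0 ≤ (if cnt x (k + 2 * a) = a then c a else 0) := by
    intro a ha
    rw [Finset.mem_range] at ha
    split_ifs
    · exact hc0 a (by omega)
    · exact le_refl _
  split_ifs with hx
  · obtain ⟨a, ha, h2, h3⟩ := first_visit x k A hx
    have h4 := Finset.single_le_sum hnn (Finset.mem_range.mpr (by omega : a < A + 1))
    rw [if_pos h2] at h4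
    exact (hc a _ h3 hx).trans h4
  · exact Finset.sum_nonneg hnn

theorem sum_cnt (n w R : ℕ) (hR : R ≤ n) :
    ∑ x ∈ J n w, cnt x R ≤ R * (n - 1).choose (w - 1) := by
  have h1 : ∀ x ∈ J n w, cnt x R = ∑ i ∈ seg n R, if i ∈ x then 1 else 0 := by
    intro x _
    rw [cnt_eq, ← Finset.card_filter]
    congr 1
    ext i
    rw [Finset.mem_inter, Finset.mem_filter]
    exact and_comm
  rw [Finset.sum_congr rfl h1, Finset.sum_comm]
  have h2 : ∀ i ∈ seg n R, (∑ x ∈ J n w, if i ∈ x then 1 else 0) ≤ (n - 1).choose (w - 1) := by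
    intro i _
    rw [← Finset.card_filter]
    have h3 : (Finset.powersetCard (w - 1) ((Finset.univ : Finset (Fin n)).erase i)).card =
        (n - 1).choose (w - 1) := by
      rw [Finset.card_powersetCard, Finset.card_erase_of_mem (Finset.mem_univ i),
        Finset.card_univ, Fintype.card_fin]
    rw [← h3]
    apply Finset.card_le_card_of_injOn (fun x => x.erase i)
    · intro x hx
      rw [Finset.mem_coe, Finset.mem_filter, mem_J] at hx
      rw [Finset.mem_coe, Finset.mem_powersetCard]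
      refine ⟨Finset.erase_subset_erase i (Finset.subset_univ x), ?_⟩
      rw [Finset.card_erase_of_mem hx.2, hx.1]
    · intro x hx y hy hxy
      rw [Finset.mem_coe, Finset.mem_filter] at hx hy
      have h4 : x.erase i = y.erase i := hxy
      rw [← Finset.insert_erase hx.2, ← Finset.insert_erase hy.2, h4]
  refine (Finset.sum_le_sum h2).trans ?_
  rw [Finset.sum_const, card_seg hR, smul_eq_mul]

/-- First moment and Markov. -/
theorem moment (n w R : ℕ) (hR : R ≤ n) :
    (n : ℝ) * ∑ x ∈ J n w, (cnt x R : ℝ) ≤ (R : ℝ) * w * ((n.choose w : ℕ) : ℝ) := by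
  have h1 := sum_cnt n w R hR
  have h1' : (∑ x ∈ J n w, (cnt x R : ℝ)) ≤ (R : ℝ) * ((n - 1).choose (w - 1) : ℝ) := by
    exact_mod_cast h1
  rcases Nat.eq_zero_or_pos w with hw | hw
  · have h2 : ∀ x ∈ J n w, (cnt x R : ℝ) = 0 := by
      intro x hx
      rw [mem_J] at hx
      have : cnt x R ≤ x.card := by
        rw [cnt_eq]
        exact Finset.card_le_card Finset.inter_subset_left
      have h3 : cnt x R = 0 := by omega
      rw [h3]
      simp
    rw [Finset.sum_congr rfl h2, hw]
    simp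
  · rcases Nat.eq_zero_or_pos n with hn | hn
    · subst hn
      have : R = 0 := by omega
      subst this
      simp
    · have h3 : n * (n - 1).choose (w - 1) = n.choose w * w := by
        obtain ⟨m, rfl⟩ : ∃ m, n = m + 1 := ⟨n - 1, by omega⟩
        obtain ⟨v, rfl⟩ : ∃ v, w = v + 1 := ⟨w - 1, by omega⟩
        simpa using Nat.add_one_mul_choose_eq m v
      have h3' : (n : ℝ) * ((n - 1).choose (w - 1) : ℝ) = (n.choose w : ℝ) * w := by
        exact_mod_cast h3
      calc (n : ℝ) * ∑ x ∈ J n w, (cnt x R : ℝ)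
          ≤ (n : ℝ) * ((R : ℝ) * ((n - 1).choose (w - 1) : ℝ)) :=
            mul_le_mul_of_nonneg_left h1' (Nat.cast_nonneg n)
        _ = (R : ℝ) * ((n : ℝ) * ((n - 1).choose (w - 1) : ℝ)) := by ring
        _ = (R : ℝ) * w * (n.choose w : ℝ) := by rw [h3']; ring

theorem markov (n w R A : ℕ) :
    ((A : ℝ) + 1) * (((J n w).filter (fun x => ¬ cnt x R ≤ A)).card : ℝ) ≤
      ∑ x ∈ J n w, (cnt x R : ℝ) := by
  calc ((A : ℝ) + 1) * (((J n w).filter (fun x => ¬ cnt x R ≤ A)).card : ℝ)
      = ∑ _x ∈ (J n w).filter (fun x => ¬ cnt x R ≤ A), ((A : ℝ) + 1) := by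
        rw [Finset.sum_const, nsmul_eq_mul]
        ring
    _ ≤ ∑ x ∈ (J n w).filter (fun x => ¬ cnt x R ≤ A), (cnt x R : ℝ) := by
        apply Finset.sum_le_sum
        intro x hx
        rw [Finset.mem_filter] at hx
        have : A + 1 ≤ cnt x R := by omega
        exact_mod_cast this
    _ ≤ ∑ x ∈ J n w, (cnt x R : ℝ) := by
        apply Finset.sum_le_sum_of_subset_of_nonneg (Finset.filter_subset _ _)
        intro x _ _
        exact Nat.cast_nonneg _

open Classical in
/-- All words of weight `w` with a good cut point. -/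
noncomputable def good (n w k : ℕ) : Finset (Finset (Fin n)) :=
  (J n w).filter (fun x => ∃ r, r ≤ n ∧ Good k r x)

theorem mem_good {n w k : ℕ} {x : Finset (Fin n)} : x ∈ good n w k ↔
    x.card = w ∧ ∃ r, r ≤ n ∧ Good k r x := by
  classical
  unfold good
  rw [Finset.mem_filter, mem_J]

theorem sum_good (n w k A : ℕ) (hA : k + 2 * A ≤ n) :
    ∑ a ∈ Finset.range (A + 1), ((goodSet n w k (k + 2 * a)).card : ℝ) ≤
      ((good n w k).card : ℝ) := by
  classical
  have h1 : ((Finset.range (A + 1)).biUnion (fun a => goodSet n w k (k + 2 * a))).card =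
      ∑ a ∈ Finset.range (A + 1), (goodSet n w k (k + 2 * a)).card := by
    apply Finset.card_biUnion
    intro a ha b hb hab
    rw [Finset.mem_coe, Finset.mem_range] at ha hb
    show Disjoint (goodSet n w k (k + 2 * a)) (goodSet n w k (k + 2 * b))
    rw [Finset.disjoint_left]
    intro x hx hx'
    rw [mem_goodSet] at hx hx'
    rcases Nat.le_total a b with h | h
    · have := good_unique (by omega) (by omega) x hx.2 hx'.2
      omega
    · have := good_unique (by omega) (by omega) x hx'.2 hx.2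
      omega
  have h2 : ((Finset.range (A + 1)).biUnion (fun a => goodSet n w k (k + 2 * a))).card ≤
      (good n w k).card := by
    apply Finset.card_le_card
    intro x hx
    obtain ⟨a, ha, hxa⟩ := Finset.mem_biUnion.mp hx
    rw [Finset.mem_range] at ha
    rw [mem_goodSet] at hxa
    rw [mem_good]
    exact ⟨hxa.1, k + 2 * a, by omega, hxa.2⟩
  rw [h1] at h2
  exact_mod_cast h2

end Pool.Agent.Hhelper49.CWD
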