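import Mathlib

set_option autoImplicit false

/-! Tournaments in which every `j` players are beaten by a common player (counting proof). -/

namespace Pool.Agent.Hhelper49.CWD

variable {m : ℕ}

/-- Arc from `v` to `a` in the orientation coded by `g`. -/
def arc (g : Fin m → Fin m → Bool) (v a : Fin m) : Prop :=
  v ≠ a ∧ (if v < a then g v a else !(g a v)) = true

theorem arc_asymm (g : Fin m → Fin m → Bool) (v a : Fin m) (h : arc g v a) : ¬ arc g a v := by
  rintro ⟨-, h2⟩
  obtain ⟨h0, h1⟩ := h
  rcases lt_trichotomy v a with hlt | heq | hgt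
  · rw [if_pos hlt] at h1
    rw [if_neg (not_lt.mpr hlt.le), h1] at h2
    simp at h2
  · exact h0 heq
  · rw [if_neg (not_lt.mpr hgt.le)] at h1
    rw [if_pos hgt] at h2
    rw [h2] at h1
    simp at h1

/-- Make `v` dominate `A`. -/
def reset (A : Finset (Fin m)) (v : Fin m) (g : Fin m → Fin m → Bool) : Fin m → Fin m → Bool :=
  fun x y => if x = v ∧ y ∈ A ∧ v < y then true else if y = v ∧ x ∈ A ∧ x < v then false
    else g x y

theorem arc_reset (A : Finset (Fin m)) (v : Fin m) (hv : v ∉ A) (g : Fin m → Fin m → Bool) :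
    ∀ a ∈ A, arc (reset A v g) v a := by
  intro a ha
  have hne : v ≠ a := fun h => hv (h ▸ ha)
  refine ⟨hne, ?_⟩
  rcases lt_or_gt_of_ne hne with h | h
  · rw [if_pos h]
    unfold reset
    rw [if_pos ⟨rfl, ha, h⟩]
  · rw [if_neg (not_lt.mpr h.le)]
    unfold reset
    rw [if_neg (by rintro ⟨h1, -⟩; exact hne h1.symm), if_pos ⟨rfl, ha, h⟩]
    rfl

theorem arc_other (A : Finset (Fin m)) (v u : Fin m) (hv : v ∉ A) (huv : u ≠ v)
    (g : Fin m → Fin m → Bool) (a : Fin m) (ha : a ∈ A) :
    arc (reset A v g) u a ↔ arc g u a := by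
  have hav : a ≠ v := fun h => hv (h ▸ ha)
  have e1 : reset A v g u a = g u a := by
    unfold reset
    rw [if_neg (by rintro ⟨h1, -⟩; exact huv h1), if_neg (by rintro ⟨h1, -⟩; exact hav h1)]
  have e2 : reset A v g a u = g a u := by
    unfold reset
    rw [if_neg (by rintro ⟨h1, -⟩; exact hav h1), if_neg (by rintro ⟨h1, -⟩; exact huv h1)]
  unfold arc
  rw [e1, e2]

open Classical in
/-- Orientations in which no vertex of `S` dominates `A`. -/
noncomputable def bad (A S : Finset (Fin m)) : Finset (Fin m → Fin m → Bool) :=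
  Finset.univ.filter (fun g => ∀ v ∈ S, ¬ ∀ a ∈ A, arc g v a)

theorem mem_bad {A S : Finset (Fin m)} {g : Fin m → Fin m → Bool} :
    g ∈ bad A S ↔ ∀ v ∈ S, ¬ ∀ a ∈ A, arc g v a := by
  classical
  unfold bad
  rw [Finset.mem_filter]
  simp

theorem bad_insert (A S : Finset (Fin m)) (v : Fin m) (hv : v ∉ A) (hvS : v ∉ S) :
    (bad A (insert v S)).card * 2 ^ A.card ≤ (bad A S).card * (2 ^ A.card - 1) := by
  classical
  set E := (bad A S).filter (fun g => ∀ a ∈ A, arc g v a) with hE
  have h1 : (bad A S).card ≤ E.card * 2 ^ A.card := by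
    have hcard : (E ×ˢ (Finset.univ : Finset ({a // a ∈ A} → Bool))).card =
        E.card * 2 ^ A.card := by
      rw [Finset.card_product, Finset.card_univ, Fintype.card_fun, Fintype.card_bool,
        Fintype.card_coe]
    rw [← hcard]
    apply Finset.card_le_card_of_injOn (fun g => (reset A v g,
      fun a : {a // a ∈ A} => (if v < a.val then g v a.val else !(g a.val v))))
    · intro g hg
      rw [Finset.mem_coe, mem_bad] at hg
      rw [Finset.mem_coe, Finset.mem_product, hE, Finset.mem_filter, mem_bad]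
      refine ⟨⟨?_, arc_reset A v hv g⟩, Finset.mem_univ _⟩
      intro u hu hcon
      apply hg u hu
      intro a ha
      have huv : u ≠ v := fun h => hvS (h ▸ hu)
      exact (arc_other A v u hv huv g a ha).mp (hcon a ha)
    · intro g _ g' _ h
      have h' : (reset A v g, fun a : {a // a ∈ A} =>
          (if v < a.val then g v a.val else !(g a.val v))) =
          (reset A v g', fun a : {a // a ∈ A} =>
          (if v < a.val then g' v a.val else !(g' a.val v))) := h
      rw [Prod.mk.injEq] at h'
      obtain ⟨h2, h3⟩ := h'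
      funext x y
      by_cases c1 : x = v ∧ y ∈ A ∧ v < y
      · obtain ⟨rfl, hy, hlt⟩ := c1
        have := congrFun h3 ⟨y, hy⟩
        simp only [if_pos hlt] at this
        exact this
      · by_cases c2 : y = v ∧ x ∈ A ∧ x < v
        · obtain ⟨rfl, hx, hlt⟩ := c2
          have := congrFun h3 ⟨x, hx⟩
          simp only [if_neg (not_lt.mpr hlt.le)] at this
          exact Bool.not_inj this
        · have := congrFun (congrFun h2 x) y
          unfold reset at this
          rw [if_neg c1, if_neg c2, if_neg c1, if_neg c2] at this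
          exact this
  have h2 : (bad A (insert v S)).card + E.card ≤ (bad A S).card := by
    rw [← Finset.card_union_of_disjoint]
    · apply Finset.card_le_card
      intro g hg
      rcases Finset.mem_union.mp hg with hg | hg
      · rw [mem_bad] at hg ⊢
        exact fun u hu => hg u (Finset.mem_insert_of_mem hu)
      · rw [hE, Finset.mem_filter] at hg
        exact hg.1
    · rw [Finset.disjoint_left]
      intro g hg hg'
      rw [mem_bad] at hg
      rw [hE, Finset.mem_filter] at hg'
      exact hg v (Finset.mem_insert_self v S) hg'.2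
  obtain ⟨N, hN⟩ : ∃ N, 2 ^ A.card = N + 1 := ⟨2 ^ A.card - 1, by
    have : 0 < 2 ^ A.card := by positivity
    omega⟩
  rw [hN] at h1 ⊢
  have : N + 1 - 1 = N := by omega
  rw [this]
  nlinarith

theorem bad_card (A S : Finset (Fin m)) (hAS : Disjoint A S) :
    (bad A S).card * (2 ^ A.card) ^ S.card ≤
      Fintype.card (Fin m → Fin m → Bool) * (2 ^ A.card - 1) ^ S.card := by
  classical
  induction S using Finset.induction_on with
  | empty =>
    simp only [Finset.card_empty, pow_zero, mul_one]
    exact Finset.card_le_univ _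
  | insert v S hvS ih =>
    rw [Finset.disjoint_insert_right] at hAS
    have h1 := ih hAS.2
    have h2 := bad_insert A S v hAS.1 hvS
    rw [Finset.card_insert_of_notMem hvS, pow_succ, pow_succ]
    calc (bad A (insert v S)).card * ((2 ^ A.card) ^ S.card * 2 ^ A.card)
        = ((bad A (insert v S)).card * 2 ^ A.card) * (2 ^ A.card) ^ S.card := by ring
      _ ≤ ((bad A S).card * (2 ^ A.card - 1)) * (2 ^ A.card) ^ S.card :=
          Nat.mul_le_mul_right _ h2
      _ = ((bad A S).card * (2 ^ A.card) ^ S.card) * (2 ^ A.card - 1) := by ring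
      _ ≤ (Fintype.card (Fin m → Fin m → Bool) * (2 ^ A.card - 1) ^ S.card) *
          (2 ^ A.card - 1) := Nat.mul_le_mul_right _ h1
      _ = _ := by ring

/-- Existence. -/
theorem exists_tour (j : ℕ) (hj : j ≤ m)
    (h : m.choose j * (2 ^ j - 1) ^ (m - j) < (2 ^ j) ^ (m - j)) :
    ∃ R : Fin m → Fin m → Prop, (∀ a b, R a b → ¬ R b a) ∧
      ∀ A : Finset (Fin m), A.card ≤ j → ∃ v, ∀ a ∈ A, R v a := by
  classical
  by_contra hcon
  push Not at hcon
  have hall : ∀ g : Fin m → Fin m → Bool, ∃ A ∈ Finset.powersetCard j (Finset.univ : Finset (Fin m)),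
      g ∈ bad A Aᶜ := by
    intro g
    obtain ⟨A, hA, hAv⟩ := hcon (arc g) (arc_asymm g)
    obtain ⟨B, hAB, -, hB⟩ := Finset.exists_subsuperset_card_eq (Finset.subset_univ A) hA
      (by rw [Finset.card_univ, Fintype.card_fin]; exact hj)
    refine ⟨B, ?_, ?_⟩
    · rw [Finset.mem_powersetCard]
      exact ⟨Finset.subset_univ _, hB⟩
    · rw [mem_bad]
      intro v _ hv
      obtain ⟨a, ha, hna⟩ := hAv v
      exact hna (hv a (hAB ha))
  have h1 : Fintype.card (Fin m → Fin m → Bool) ≤
      ∑ A ∈ Finset.powersetCard j (Finset.univ : Finset (Fin m)), (bad A Aᶜ).card := by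
    rw [← Finset.card_univ]
    refine le_trans (Finset.card_le_card ?_) Finset.card_biUnion_le
    intro g _
    obtain ⟨A, hA, hg⟩ := hall g
    exact Finset.mem_biUnion.mpr ⟨A, hA, hg⟩
  have hpos : 0 < Fintype.card (Fin m → Fin m → Bool) := Fintype.card_pos
  have h2 : ∀ A ∈ Finset.powersetCard j (Finset.univ : Finset (Fin m)),
      (bad A Aᶜ).card * (2 ^ j) ^ (m - j) ≤
        Fintype.card (Fin m → Fin m → Bool) * (2 ^ j - 1) ^ (m - j) := by
    intro A hA
    rw [Finset.mem_powersetCard] at hA
    have h3 := bad_card A Aᶜ disjoint_compl_right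
    rw [hA.2, Finset.card_compl, Fintype.card_fin, hA.2] at h3
    exact h3
  have h4 : Fintype.card (Fin m → Fin m → Bool) * (2 ^ j) ^ (m - j) ≤
      Fintype.card (Fin m → Fin m → Bool) * (m.choose j * (2 ^ j - 1) ^ (m - j)) := by
    calc Fintype.card (Fin m → Fin m → Bool) * (2 ^ j) ^ (m - j)
        ≤ (∑ A ∈ Finset.powersetCard j (Finset.univ : Finset (Fin m)), (bad A Aᶜ).card) *
          (2 ^ j) ^ (m - j) := Nat.mul_le_mul_right _ h1
      _ = ∑ A ∈ Finset.powersetCard j (Finset.univ : Finset (Fin m)),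
          (bad A Aᶜ).card * (2 ^ j) ^ (m - j) := by rw [Finset.sum_mul]
      _ ≤ ∑ _A ∈ Finset.powersetCard j (Finset.univ : Finset (Fin m)),
          Fintype.card (Fin m → Fin m → Bool) * (2 ^ j - 1) ^ (m - j) := Finset.sum_le_sum h2
      _ = _ := by
          rw [Finset.sum_const, Finset.card_powersetCard, Finset.card_univ, Fintype.card_fin,
            smul_eq_mul]
          ring
  have h5 := Nat.le_of_mul_le_mul_left h4 hpos
  omega

end Pool.Agent.Hhelper49.CWD
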