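import Pool.Agent.Hhelper49.CWD.Tour

set_option autoImplicit false

/-! The counting condition of `exists_tour` holds for `m = j + 4 j² 2^j`. -/

namespace Pool.Agent.Hhelper49.CWD

theorem four_sq (j : ℕ) : 4 * j ^ 2 ≤ 4 ^ j := by
  rcases Nat.eq_zero_or_pos j with h | h
  · subst h; norm_num
  induction j, (show 1 ≤ j from h) using Nat.le_induction with
  | base => norm_num
  | succ m hm ih =>
    have h1 := ih hm
    rw [pow_succ 4 m]
    rcases Nat.lt_or_ge m 2 with h2 | h2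
    · have : m = 1 := by omega
      subst this
      norm_num
    · have h3 : 4 * (m + 1) ^ 2 ≤ 4 * m ^ 2 * 4 := by nlinarith
      exact h3.trans (Nat.mul_le_mul_right _ h1)

theorem two_mul_pow_succ (K : ℕ) : 2 * K ^ (K + 1) ≤ (K + 1) ^ (K + 1) := by
  have h : ∀ t : ℕ, K ^ t * (K + t) ≤ (K + 1) ^ t * K := by
    intro t
    induction t with
    | zero => simp
    | succ t ih =>
      rw [pow_succ, pow_succ]
      nlinarith [Nat.zero_le (K ^ t)]
  have h1 := h (K + 1)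
  rcases Nat.eq_zero_or_pos K with hK | hK
  · subst hK; norm_num
  · have h2 : K * (2 * K ^ (K + 1)) ≤ K * (K + 1) ^ (K + 1) := by
      calc K * (2 * K ^ (K + 1)) = K ^ (K + 1) * (K + K) := by ring
        _ ≤ K ^ (K + 1) * (K + (K + 1)) := Nat.mul_le_mul_left _ (by omega)
        _ ≤ (K + 1) ^ (K + 1) * K := h1
        _ = _ := by ring
    exact Nat.le_of_mul_le_mul_left h2 hK

/-- Number of vertices. -/
def sz (j : ℕ) : ℕ := j + 4 * j ^ 2 * 2 ^ j

theorem sz_lt (j : ℕ) (hj : 1 ≤ j) : sz j < 16 ^ j := by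
  have h1 := four_sq j
  have h2 : 4 * j ^ 2 * 2 ^ j ≤ 4 ^ j * 2 ^ j := Nat.mul_le_mul_right _ h1
  have h3 : (4 : ℕ) ^ j * 2 ^ j = 8 ^ j := by rw [← mul_pow]; norm_num
  have h4 : j < 2 ^ j := Nat.lt_two_pow_self
  have h5 : (2 : ℕ) * 8 ^ j ≤ 16 ^ j := by
    have : (16 : ℕ) ^ j = 2 ^ j * 8 ^ j := by rw [← mul_pow]; norm_num
    rw [this]
    apply Nat.mul_le_mul_right
    calc 2 = 2 ^ 1 := rfl
      _ ≤ 2 ^ j := Nat.pow_le_pow_right (by norm_num) hj
  have h6 : (2 : ℕ) ^ j ≤ 8 ^ j := Nat.pow_le_pow_left (by norm_num) j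
  unfold sz
  omega

theorem cond_sz (j : ℕ) (hj : 1 ≤ j) :
    (sz j).choose j * (2 ^ j - 1) ^ (sz j - j) < (2 ^ j) ^ (sz j - j) := by
  obtain ⟨K, hK⟩ : ∃ K, 2 ^ j = K + 1 := ⟨2 ^ j - 1, by
    have : 0 < 2 ^ j := by positivity
    omega⟩
  have e1 : sz j - j = (K + 1) * (4 * j ^ 2) := by
    unfold sz
    rw [hK]
    have : j + 4 * j ^ 2 * (K + 1) - j = 4 * j ^ 2 * (K + 1) := by omega
    rw [this]
    ring
  have e2 : K + 1 - 1 = K := by omega
  rw [e1, hK, e2, pow_mul K (K + 1) (4 * j ^ 2), pow_mul (K + 1) (K + 1) (4 * j ^ 2)]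
  have h1 : (2 * K ^ (K + 1)) ^ (4 * j ^ 2) ≤ ((K + 1) ^ (K + 1)) ^ (4 * j ^ 2) :=
    Nat.pow_le_pow_left (two_mul_pow_succ K) _
  rw [mul_pow] at h1
  have h2 : (sz j).choose j < 2 ^ (4 * j ^ 2) := by
    calc (sz j).choose j ≤ (sz j) ^ j := Nat.choose_le_pow _ _
      _ < (16 ^ j) ^ j := Nat.pow_lt_pow_left (sz_lt j hj) (by omega)
      _ = 2 ^ (4 * j ^ 2) := by
          rw [← pow_mul, ← pow_two, show (16 : ℕ) = 2 ^ 4 by norm_num, ← pow_mul]
  have hKpos : 0 < K := by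
    have : 2 ≤ 2 ^ j := by
      calc 2 = 2 ^ 1 := rfl
        _ ≤ 2 ^ j := Nat.pow_le_pow_right (by norm_num) hj
    omega
  have h3 : 0 < (K ^ (K + 1)) ^ (4 * j ^ 2) := by positivity
  exact lt_of_lt_of_le (Nat.mul_lt_mul_of_lt_of_le h2 le_rfl h3) h1

/-- Tournament with the domination property for sets of size at most `j`. -/
theorem tour (j : ℕ) (hj : 1 ≤ j) :
    ∃ R : Fin (sz j) → Fin (sz j) → Prop, (∀ a b, R a b → ¬ R b a) ∧
      ∀ A : Finset (Fin (sz j)), A.card ≤ j → ∃ v, ∀ a ∈ A, R v a :=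
  exists_tour j (by unfold sz; omega) (cond_sz j hj)

end Pool.Agent.Hhelper49.CWD
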